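import Pool.Agent.R958.PN
import Pool.Agent.N603.DA.All

set_option autoImplicit false
set_option linter.unusedSectionVars false

/-!
Points with common denominators near a given point, for families with symplectic monodromy.
-/

open NumberField Filter Matrix Module

namespace Pool.Agent.N603.DB

open Pool.Agent Pool.Agent.Y890.MV Pool.Agent.Y890.SM Pool.Agent.R349.PC
open Pool.Agent.Y124 (Cov)
open Pool.Agent.R437.Met Pool.Agent.R437.Met.Fam

/-- integral basis indexed by the embeddings -/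
noncomputable def Bas (K : Type) [Field K] [NumberField K] : Basis (K →+* ℂ) ℤ (𝓞 K) :=
  (RingOfIntegers.basis K).reindex (equivReindex K).symm

theorem repr_bound (K : Type) [Field K] [NumberField K] : ∃ c1 : ℝ, 0 ≤ c1 ∧ ∀ (a : 𝓞 K) (i : K →+* ℂ),
    |(((Bas K).repr a i : ℤ) : ℝ)| ≤ c1 * house (a : K) := by
  classical
  obtain ⟨c, hc⟩ : ∃ c : ℝ, ∀ (a : 𝓞 K) (i : K →+* ℂ),
      ‖(((integralBasis K).reindex (equivReindex K).symm).repr a i : ℂ)‖ ≤ c * house (a : K) :=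
    ⟨_, fun a i => NumberField.house.basis_repr_norm_le_const_mul_house K a i⟩
  refine ⟨|c|, abs_nonneg _, fun a i => ?_⟩
  have h1 := hc a i
  have h2 : ((integralBasis K).reindex (equivReindex K).symm).repr (a : K) i
      = (((Bas K).repr a i : ℤ) : ℚ) := by
    have h3 := integralBasis_repr_apply K a (equivReindex K i)
    simp only [Bas, Basis.repr_reindex, Finsupp.mapDomain_equiv_apply, Equiv.symm_symm] at h3 ⊢
    simp at h3
    simp
  rw [h2] at h1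
  have h3 : ‖((((((Bas K).repr a i : ℤ) : ℚ) : ℚ) : ℂ))‖ = |(((Bas K).repr a i : ℤ) : ℝ)| := by
    push_cast
    rw [Complex.norm_intCast]
  rw [h3] at h1
  exact h1.trans (mul_le_mul_of_nonneg_right (le_abs_self c) (house_nonneg _))

/-- the number of integers with bounded conjugates -/
theorem int_count (K : Type) [Field K] [NumberField K] : ∃ C : ℝ, 0 ≤ C ∧ ∀ T : ℝ, 1 ≤ T →
    {a : 𝓞 K | ∀ φ : K →+* ℂ, ‖φ a‖ ≤ T}.Finite ∧
    (({a : 𝓞 K | ∀ φ : K →+* ℂ, ‖φ a‖ ≤ T}.ncard : ℕ) : ℝ) ≤ C * T ^ Module.finrank ℚ K := by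
  classical
  obtain ⟨c, hc, h⟩ := repr_bound K
  refine ⟨(2 * c + 1) ^ Module.finrank ℚ K, by positivity, fun T hT => ?_⟩
  obtain ⟨M, hM⟩ : ∃ M : ℕ, M = ⌊c * T⌋₊ := ⟨_, rfl⟩
  set P : Finset ((K →+* ℂ) → ℤ) := Fintype.piFinset fun _ : K →+* ℂ => Finset.Icc (-(M : ℤ)) M with hP
  have hmaps : Set.MapsTo (fun (a : 𝓞 K) (i : K →+* ℂ) => (Bas K).repr a i)
      {a : 𝓞 K | ∀ φ : K →+* ℂ, ‖φ a‖ ≤ T} (P : Set ((K →+* ℂ) → ℤ)) := by
    intro a ha
    rw [hP, Finset.mem_coe, Fintype.mem_piFinset]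
    intro i
    have h1 : house (a : K) ≤ T := Y120.house_le K (by linarith) ha
    have h2 := (h a i).trans (mul_le_mul_of_nonneg_left h1 hc)
    rw [Finset.mem_Icc, ← abs_le]
    have h3 : (|(Bas K).repr a i| : ℤ) ≤ (⌊c * T⌋₊ : ℤ) := by
      have h4 : ((|(Bas K).repr a i| : ℤ) : ℝ) ≤ c * T := by
        push_cast
        exact h2
      have h5 : (((|(Bas K).repr a i|).toNat : ℕ) : ℝ) ≤ c * T := by
        have h6 : (((|(Bas K).repr a i|).toNat : ℕ) : ℤ) = |(Bas K).repr a i| :=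
          Int.toNat_of_nonneg (abs_nonneg _)
        have h7 : (((|(Bas K).repr a i|).toNat : ℕ) : ℝ) = ((|(Bas K).repr a i| : ℤ) : ℝ) := by
          exact_mod_cast congrArg (fun z : ℤ => (z : ℝ)) h6
        rw [h7]
        exact h4
      have h8 := Nat.le_floor h5
      have h9 : |(Bas K).repr a i| = (((|(Bas K).repr a i|).toNat : ℕ) : ℤ) :=
        (Int.toNat_of_nonneg (abs_nonneg _)).symm
      rw [h9]
      exact_mod_cast h8
    rw [hM]
    exact h3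
  have hinj : Set.InjOn (fun (a : 𝓞 K) (i : K →+* ℂ) => (Bas K).repr a i)
      {a : 𝓞 K | ∀ φ : K →+* ℂ, ‖φ a‖ ≤ T} := by
    intro a _ b _ hab
    apply (Bas K).repr.injective
    ext i
    exact congrFun hab i
  have hPf : (P : Set ((K →+* ℂ) → ℤ)).Finite := P.finite_toSet
  refine ⟨hPf.of_injOn hmaps hinj, ?_⟩
  have h1 := Set.ncard_le_ncard_of_injOn _ hmaps hinj hPf
  rw [Set.ncard_coe_finset, hP, Fintype.card_piFinset] at h1
  simp only [Int.card_Icc, Finset.prod_const, Finset.card_univ, Embeddings.card] at h1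
  have h2 : ((M : ℤ) + 1 - -(M : ℤ)).toNat = 2 * M + 1 := by omega
  rw [h2] at h1
  have h3 : (M : ℝ) ≤ c * T := by
    rw [hM]
    exact Nat.floor_le (by positivity)
  calc (({a : 𝓞 K | ∀ φ : K →+* ℂ, ‖φ a‖ ≤ T}.ncard : ℕ) : ℝ) ≤ (((2 * M + 1) ^ Module.finrank ℚ K : ℕ) : ℝ) := by
        exact_mod_cast h1
    _ = (2 * (M : ℝ) + 1) ^ Module.finrank ℚ K := by push_cast; rfl
    _ ≤ ((2 * c + 1) * T) ^ Module.finrank ℚ K := pow_le_pow_left₀ (by positivity) (by nlinarith) _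
    _ = (2 * c + 1) ^ Module.finrank ℚ K * T ^ Module.finrank ℚ K := mul_pow _ _ _

/-- the coordinates of `s` are `a j / b` with integers `a j`, `b` of `K` all of whose conjugates have absolute value at
most `T` -/
def CommonDen (K : Type) [Field K] [NumberField K] {X : Type} (T : ℝ) (s : X → K) : Prop :=
  ∃ (b : 𝓞 K) (a : X → 𝓞 K), b ≠ 0 ∧ (∀ φ : K →+* ℂ, ‖φ b‖ ≤ T ∧ ∀ j, ‖φ (a j)‖ ≤ T) ∧
    ∀ j, s j = (a j : K) / (b : K)

theorem CommonDen.mono {K : Type} [Field K] [NumberField K] {X : Type} {T T' : ℝ} {s : X → K}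
    (h : CommonDen K T s) (hT : T ≤ T') : CommonDen K T' s := by
  obtain ⟨b, a, h1, h2, h3⟩ := h
  exact ⟨b, a, h1, fun φ => ⟨(h2 φ).1.trans hT, fun j => ((h2 φ).2 j).trans hT⟩, h3⟩

theorem CommonDen.htLe {K : Type} [Field K] [NumberField K] {X : Type} {T : ℝ} {s : X → K}
    (h : CommonDen K T s) (j : X) : Y120.HtLe K T (s j) := by
  obtain ⟨b, a, h1, h2, h3⟩ := h
  exact Tors.htLe_of ⟨a j, b, h1, fun φ => ⟨(h2 φ).2 j, (h2 φ).1⟩, h3 j⟩

variable {X : Type} [Fintype X] [DecidableEq X]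

theorem cd_count [Nonempty X] (K : Type) [Field K] [NumberField K] (io : K →+* ℂ) (Bd : ℝ → (X → K) → Prop)
    (ε : ℝ) {D : ℕ} {C T₀ : ℝ} (hC : 0 ≤ C) (H : ∀ T : ℝ, T₀ ≤ T →
      Cov D ⌊C * T ^ ε⌋₊ ((fun (s : X → K) j => io (s j)) '' {s | CommonDen K T s ∧ Bd T s})) :
    ∃ C' : ℝ, ∀ T : ℝ, max T₀ 1 ≤ T → {s : X → K | CommonDen K T s ∧ Bd T s}.Finite ∧
      (({s : X → K | CommonDen K T s ∧ Bd T s}.ncard : ℕ) : ℝ) ≤
        C' * T ^ ((Module.finrank ℚ K : ℝ) * (Fintype.card X : ℝ) + ε) := by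
  classical
  obtain ⟨C₁, hC₁, hI⟩ := int_count K
  have hX : 1 ≤ Fintype.card X := Fintype.card_pos
  refine ⟨C * D * C₁ ^ Fintype.card X, fun T hT => ?_⟩
  have hT1 : 1 ≤ T := (le_max_right _ _).trans hT
  have hT0 : 0 < T := by linarith
  obtain ⟨hf, hn⟩ := hI T hT1
  set I : Set (𝓞 K) := {a : 𝓞 K | ∀ φ : K →+* ℂ, ‖φ a‖ ≤ T} with hIdef
  have hcov := H T ((le_max_left _ _).trans hT)
  have hb : ∀ b : 𝓞 K, {s : X → K | (∀ j, s j ∈ (fun a : 𝓞 K => (a : K) / (b : K)) '' I) ∧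
      CommonDen K T s ∧ Bd T s}.Finite ∧
      {s : X → K | (∀ j, s j ∈ (fun a : 𝓞 K => (a : K) / (b : K)) '' I) ∧
      CommonDen K T s ∧ Bd T s}.ncard ≤ ⌊C * T ^ ε⌋₊ * (D * I.ncard ^ (Fintype.card X - 1)) := by
    intro b
    obtain ⟨h1, h2⟩ := cov_count io ((fun a : 𝓞 K => (a : K) / (b : K)) '' I) (hf.image _)
      {s : X → K | (∀ j, s j ∈ (fun a : 𝓞 K => (a : K) / (b : K)) '' I) ∧ CommonDen K T s ∧ Bd T s}
      (fun s hs => hs.1) (hcov.mono le_rfl le_rfl (Set.image_mono fun s hs => ⟨hs.2.1, hs.2.2⟩))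
    refine ⟨h1, h2.trans ?_⟩
    exact Nat.mul_le_mul_left _ (Nat.mul_le_mul_left _ (Nat.pow_le_pow_left (Set.ncard_image_le hf) _))
  have hsub : {s : X → K | CommonDen K T s ∧ Bd T s} ⊆ ⋃ b ∈ hf.toFinset,
      {s : X → K | (∀ j, s j ∈ (fun a : 𝓞 K => (a : K) / (b : K)) '' I) ∧ CommonDen K T s ∧ Bd T s} := by
    rintro s ⟨⟨b, a, h1, h2, h3⟩, h4⟩
    refine Set.mem_iUnion₂.2 ⟨b, ?_, fun j => ⟨a j, fun φ => (h2 φ).2 j, (h3 j).symm⟩, ⟨b, a, h1, h2, h3⟩, h4⟩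
    rw [Set.Finite.mem_toFinset]
    exact fun φ => (h2 φ).1
  have hfin := Set.Finite.biUnion (Finset.finite_toSet hf.toFinset) fun b _ => (hb b).1
  refine ⟨hfin.subset hsub, ?_⟩
  have h1 : {s : X → K | CommonDen K T s ∧ Bd T s}.ncard ≤
      I.ncard * (⌊C * T ^ ε⌋₊ * (D * I.ncard ^ (Fintype.card X - 1))) := by
    refine (Set.ncard_le_ncard hsub hfin).trans ((Finset.set_ncard_biUnion_le _ _).trans ?_)
    refine (Finset.sum_le_sum fun b _ => (hb b).2).trans ?_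
    rw [Finset.sum_const, smul_eq_mul, Set.ncard_eq_toFinset_card _ hf]
  have h3 : ((⌊C * T ^ ε⌋₊ : ℕ) : ℝ) ≤ C * T ^ ε := Nat.floor_le (by positivity)
  calc (({s : X → K | CommonDen K T s ∧ Bd T s}.ncard : ℕ) : ℝ)
      ≤ ((I.ncard * (⌊C * T ^ ε⌋₊ * (D * I.ncard ^ (Fintype.card X - 1))) : ℕ) : ℝ) := by exact_mod_cast h1
    _ = (⌊C * T ^ ε⌋₊ : ℝ) * D * ((I.ncard : ℝ) ^ Fintype.card X) := by
        push_cast
        rw [← Nat.sub_add_cancel hX, pow_succ, Nat.sub_add_cancel hX]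
        ring
    _ ≤ (C * T ^ ε) * D * ((C₁ * T ^ Module.finrank ℚ K) ^ Fintype.card X) := by gcongr
    _ = C * D * C₁ ^ Fintype.card X *
        (T ^ ((Module.finrank ℚ K : ℝ) * (Fintype.card X : ℝ)) * T ^ ε) := by
        rw [mul_pow, ← pow_mul, ← Real.rpow_natCast T (Module.finrank ℚ K * Fintype.card X)]
        push_cast
        ring
    _ = _ := by rw [← Real.rpow_add hT0]

/-- the covering argument for a general class of points -/
theorem near_gen (K : Type) [Field K] [NumberField K] (io : K →+* ℂ) (U : Set (X → ℂ)) (hU : IsOpen U)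
    (Adm : ℝ → (X → K) → Prop) (hAdm : ∀ T T' s, T ≤ T' → Adm T s → Adm T' s) (Bad : ℕ → ℝ → (X → K) → Prop)
    (hmono : ∀ k T T' s, 1 ≤ T → T ≤ T' → Bad k T s → Bad k T' s) (k₁ : ℕ) {σ : ℝ} (hσ : 0 ≤ σ)
    (H : ∀ (k : ℕ) (ε : ℝ), k₁ ≤ k → 0 < ε → ∃ C T₀ : ℝ, ∀ T : ℝ, T₀ ≤ T →
      {s : X → K | Adm T s ∧ (fun j => io (s j)) ∈ InnerM U k ∧ Bad k T s}.Finite ∧
      (({s : X → K | Adm T s ∧ (fun j => io (s j)) ∈ InnerM U k ∧ Bad k T s}.ncard : ℕ) : ℝ) ≤ C * T ^ (σ + ε))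
    (τ : ℝ) (hτ : 0 < τ) :
    ∃ E : Set (X → ℂ), dimH E ≤ ENNReal.ofReal (σ / τ) ∧
      ∀ ξ ∈ U, ξ ∉ E → ∃ k₀ : ℕ, ∀ k : ℕ, k₀ ≤ k → ∀ C : ℝ, ∃ T₁ : ℝ, ∀ T : ℝ, T₁ ≤ T → ∀ s : X → K,
        Adm T s → (∀ j, ‖ξ j - io (s j)‖ ≤ C * T ^ (-τ)) → ¬ Bad k T s := by
  classical
  have hgood : ∀ k : ℕ, k₁ ≤ k → Fam.Good (fun _ _ T => {s : X → K | Adm T s ∧
      (fun j => io (s j)) ∈ InnerM U k ∧ Bad k T s}) σ := by
    intro k hk
    refine ⟨fun A ε _ hε => ?_, fun _ _ _ T _ _ => subset_rfl, fun _ _ _ T _ _ => subset_rfl, ?_⟩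
    · obtain ⟨C, T₀, h⟩ := H k ε hk hε
      exact ⟨0, C, T₀, h⟩
    · rintro A B T T' - - - hT1 hTT' - s ⟨h1, h2, h3⟩
      exact ⟨hAdm T T' s hTT' h1, h2, hmono k T T' s hT1 hTT' h3⟩
  have hfam : ∀ k : ℕ, ∃ E : Set (X → ℂ), dimH E ≤ ENNReal.ofReal (σ / τ) ∧
      (k₁ ≤ k → ∀ ξ ∉ E, ∀ C : ℝ, ∃ T₁ : ℝ, ∀ T : ℝ, T₁ ≤ T → ∀ s : X → K,
        Adm T s → (fun j => io (s j)) ∈ InnerM U k → Bad k T s →
          C * T ^ (-τ) < dist ξ (fun j => io (s j))) := by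
    intro k
    by_cases hk : k₁ ≤ k
    · obtain ⟨E, hE, h⟩ := fam (fun (s : X → K) (j : X) => io (s j)) _ hσ hτ (hgood k hk)
      refine ⟨E, hE, fun _ ξ hξ C => ?_⟩
      obtain ⟨B, hB⟩ := h ξ hξ 0
      obtain ⟨T₁, hT₁⟩ := hB C
      exact ⟨T₁, fun T hT s h1 h2 h3 => hT₁ T hT s ⟨h1, h2, h3⟩⟩
    · exact ⟨∅, by rw [dimH_empty]; exact bot_le, fun h => absurd h hk⟩
  choose E hE h using hfam
  refine ⟨⋃ k, E k, ?_, fun ξ hξ hξE => ?_⟩
  · rw [dimH_iUnion]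
    exact iSup_le hE
  · obtain ⟨r, hr, hrU⟩ := Metric.isOpen_iff.1 hU ξ hξ
    obtain ⟨k₀, hk₀⟩ := exists_nat_ge (max (‖ξ‖ + r) (2 / r))
    refine ⟨max k₀ k₁, fun k hk C => ?_⟩
    have hk1 : k₁ ≤ k := (le_max_right _ _).trans hk
    have hkk : (k₀ : ℝ) ≤ k := by exact_mod_cast (le_max_left _ _).trans hk
    have hka : ‖ξ‖ + r ≤ k := ((le_max_left _ _).trans hk₀).trans hkk
    have hkb : 2 / r ≤ k := ((le_max_right _ _).trans hk₀).trans hkk
    have hkpos : (0 : ℝ) < k := lt_of_lt_of_le (by positivity) hkb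
    have hkc : (k : ℝ)⁻¹ ≤ r / 2 := by
      rw [inv_le_comm₀ hkpos (by positivity)]
      calc (r / 2)⁻¹ = 2 / r := by rw [inv_div]
        _ ≤ k := hkb
    obtain ⟨T₁, hT₁⟩ := h k hk1 ξ (fun hmem => hξE (Set.mem_iUnion.2 ⟨k, hmem⟩)) |C|
    obtain ⟨T₂, hT₂⟩ := Near.small (C := |C|) hτ (by positivity : (0 : ℝ) < r / 2)
    refine ⟨max (max T₁ T₂) 0, fun T hT s hA hs hbad => ?_⟩
    have hTa : T₁ ≤ T := ((le_max_left _ _).trans (le_max_left _ _)).trans hT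
    have hTb : T₂ ≤ T := ((le_max_right _ _).trans (le_max_left _ _)).trans hT
    have hT0 : 0 ≤ T := (le_max_right _ _).trans hT
    have hd : dist ξ (fun j => io (s j)) ≤ |C| * T ^ (-τ) := by
      rw [dist_pi_le_iff (by positivity)]
      intro j
      rw [dist_eq_norm]
      exact (hs j).trans (mul_le_mul_of_nonneg_right (le_abs_self C) (by positivity))
    have hd2 : dist ξ (fun j => io (s j)) < r / 2 := hd.trans_lt (hT₂ T hTb)
    have hin : (fun j => io (s j)) ∈ InnerM U k := by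
      constructor
      · have h1 := norm_sub_norm_le (fun j => io (s j)) ξ
        rw [← dist_eq_norm, dist_comm] at h1
        linarith
      · intro z hz
        apply hrU
        rw [Metric.mem_ball] at hz ⊢
        have h1 := dist_triangle z (fun j => io (s j)) ξ
        rw [dist_comm (fun j => io (s j)) ξ] at h1
        linarith
    exact absurd (hT₁ T hTa s hA hin hbad) (not_lt.2 hd)

variable {ι : Type} [Fintype ι] [DecidableEq ι] {n : ι → ℕ}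

/-- one number `z`, points over `L`, coefficients in `K` -/
theorem near1 [Nonempty X] (F : SympFam X n) (L : Type) [Field L] [NumberField L] (K : Type) [Field K] [NumberField K]
    (io : K →+* ℂ) (u : L →+* K) (z : ℂ) (τ : ℝ) (hτ : 0 < τ) :
    ∃ E : Set (X → ℂ),
      dimH E ≤ ENNReal.ofReal ((Module.finrank ℚ L : ℝ) * (Fintype.card X : ℝ) / τ) ∧
      ∀ ξ ∈ F.U, ξ ∉ E → ∀ (k : ℕ) (C : ℝ), ∃ T₁ : ℝ, ∀ T : ℝ, T₁ ≤ T → ∀ s : X → L,
        CommonDen L T s → (∀ j, ‖ξ j - io (u (s j))‖ ≤ C * T ^ (-τ)) →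
          (fun j => io (u (s j))) ∈ F.U ∧ R349.PC.Good F k K io T z (fun j => io (u (s j))) := by
  classical
  obtain ⟨E, hE, h⟩ := near_gen L (io.comp u) F.U F.isOpen (fun T s => CommonDen L T s)
    (fun T T' s hTT' hs => hs.mono hTT')
    (fun k T s => ¬ F.Generic k K io (fun a : Fin k => z ^ (a : ℕ)) T (fun j => io (u (s j))))
    (fun k T T' s hT1 hTT' hbad hgen => hbad fun c' hc' => hgen c' fun l a φ => (hc' l a φ).trans
      (pow_le_pow_left₀ (by linarith) hTT' k))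
    (max (Module.finrank ℚ K) 1) (σ := (Module.finrank ℚ L : ℝ) * (Fintype.card X : ℝ)) (by positivity)
    (fun k ε hk hε => by
      obtain ⟨D, C, T₀, hC, H⟩ := R958.PN.cover F k (lt_of_lt_of_le one_pos ((le_max_right _ _).trans hk)) ε hε
      obtain ⟨C', h'⟩ := cd_count L (io.comp u) (fun T s => (fun j => (io.comp u) (s j)) ∈ InnerM F.U k ∧
        ¬ F.Generic k K io (fun a : Fin k => z ^ (a : ℕ)) T (fun j => io (u (s j)))) ε hC
        (fun T hT => (H K ((le_max_left _ _).trans hk) io (fun a : Fin k => z ^ (a : ℕ)) T hT).mono le_rfl le_rfl (by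
          rintro _ ⟨s, ⟨h1, h2, h3⟩, rfl⟩
          refine ⟨fun j => u (s j), ⟨fun j => ?_, h2, h3⟩, rfl⟩
          obtain ⟨b, a, e1, e2, e3⟩ := h1
          refine Tors.htLe_of ⟨RingOfIntegers.mapRingHom u (a j), RingOfIntegers.mapRingHom u b, ?_, fun φ => ?_, ?_⟩
          · intro h0
            apply e1
            apply RingOfIntegers.ext
            apply u.injective
            have := congrArg (fun x : 𝓞 K => (x : K)) h0
            simpa using this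
          · exact ⟨(e2 (φ.comp u)).2 j, (e2 (φ.comp u)).1⟩
          · show u (s j) = _
            rw [e3 j, map_div₀]
            rfl))
      exact ⟨C', max T₀ 1, h'⟩)
    τ hτ
  refine ⟨E, hE, fun ξ hξ hξE k C => ?_⟩
  obtain ⟨k₀, hk₀⟩ := h ξ hξ hξE
  obtain ⟨T₁, hT₁⟩ := hk₀ (max k₀ (2 * k + 4)) (le_max_left _ _) C
  obtain ⟨r, hr, hrU⟩ := Metric.isOpen_iff.1 F.isOpen ξ hξ
  obtain ⟨T₂, hT₂⟩ := R437.Met.Near.small (C := |C|) hτ hr
  refine ⟨max (max T₁ T₂) (max 0 (4 * (((Fintype.card (Ix n → Fin (k + 1)) : ℕ) : ℝ) ^ 2 + k + 2))),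
    fun T hT s hA hs => ?_⟩
  have hTa : T₁ ≤ T := ((le_max_left _ _).trans (le_max_left _ _)).trans hT
  have hTb : T₂ ≤ T := ((le_max_right _ _).trans (le_max_left _ _)).trans hT
  have hT0 : 0 ≤ T := ((le_max_left _ _).trans (le_max_right _ _)).trans hT
  have hTc : 4 * (((Fintype.card (Ix n → Fin (k + 1)) : ℕ) : ℝ) ^ 2 + k + 2) ≤ T :=
    ((le_max_right _ _).trans (le_max_right _ _)).trans hT
  have hd : dist ξ (fun j => io (u (s j))) ≤ |C| * T ^ (-τ) := by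
    rw [dist_pi_le_iff (by positivity)]
    intro j
    rw [dist_eq_norm]
    exact (hs j).trans (mul_le_mul_of_nonneg_right (le_abs_self C) (by positivity))
  have hin : (fun j => io (u (s j))) ∈ F.U := by
    apply hrU
    rw [Metric.mem_ball, dist_comm]
    exact hd.trans_lt (hT₂ T hTb)
  exact ⟨hin, good_of F (le_max_right _ _) io hTc z (fun j => u (s j)) hin (not_not.1 (hT₁ T hTa s hA hs))⟩

/-- countably many numbers `z` and all number fields which contain `L` -/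
theorem near [Nonempty X] (F : SympFam X n) (L : Type) [Field L] [NumberField L] (io : L →+* ℂ) {Z : Set ℂ}
    (hZ : Z.Countable) (τ : ℝ) (hτ : 0 < τ) :
    ∃ E : Set (X → ℂ),
      dimH E ≤ ENNReal.ofReal ((Module.finrank ℚ L : ℝ) * (Fintype.card X : ℝ) / τ) ∧
      ∀ ξ ∈ F.U, ξ ∉ E → ∀ (K : IntermediateField ℚ ℂ) [NumberField K], (∀ x, io x ∈ K) → ∀ z ∈ Z,
        ∀ (k : ℕ) (C : ℝ), ∃ T₁ : ℝ, ∀ T : ℝ, T₁ ≤ T → ∀ s : X → L,
          CommonDen L T s → (∀ j, ‖ξ j - io (s j)‖ ≤ C * T ^ (-τ)) →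
            (fun j => io (s j)) ∈ F.U ∧ R349.PC.Good F k K (algebraMap K ℂ) T z (fun j => io (s j)) := by
  classical
  have hcount := N603.DA.countable_fields
  have hZc : Countable Z := hZ.to_subtype
  have key : ∀ p : {F : IntermediateField ℚ ℂ // FiniteDimensional ℚ F} × Z,
      ∃ E : Set (X → ℂ),
      dimH E ≤ ENNReal.ofReal ((Module.finrank ℚ L : ℝ) * (Fintype.card X : ℝ) / τ) ∧
      ∀ ξ ∈ F.U, ξ ∉ E → ∀ [NumberField p.1.1], (∀ x, io x ∈ p.1.1) →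
        ∀ (k : ℕ) (C : ℝ), ∃ T₁ : ℝ, ∀ T : ℝ, T₁ ≤ T → ∀ s : X → L,
          CommonDen L T s → (∀ j, ‖ξ j - io (s j)‖ ≤ C * T ^ (-τ)) →
            (fun j => io (s j)) ∈ F.U ∧ R349.PC.Good F k p.1.1 (algebraMap p.1.1 ℂ) T (p.2 : ℂ)
              (fun j => io (s j)) := by
    rintro ⟨⟨K, hK⟩, z⟩
    have : NumberField K := { to_charZero := inferInstance, to_finiteDimensional := hK }
    by_cases hLK : ∀ x, io x ∈ K
    · obtain ⟨E, hE, h⟩ := near1 F L K (algebraMap K ℂ) (io.codRestrict K hLK) (z : ℂ) τ hτ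
      exact ⟨E, hE, fun ξ hξ hξE _ _ => h ξ hξ hξE⟩
    · exact ⟨∅, by simp, fun ξ _ _ _ h => absurd h hLK⟩
  choose E hE hE2 using key
  refine ⟨⋃ p, E p, ?_, fun ξ hξ hξE K hK hLK z hz => ?_⟩
  · rw [dimH_iUnion]
    exact iSup_le hE
  · have h1 : ξ ∉ E (⟨K, hK.to_finiteDimensional⟩, ⟨z, hz⟩) := fun h => hξE (Set.mem_iUnion.2 ⟨_, h⟩)
    exact hE2 (⟨K, hK.to_finiteDimensional⟩, ⟨z, hz⟩) ξ hξ h1 hLK

theorem good_mono (F : SympFam X n) {k : ℕ} {K : Type} [Field K] [NumberField K] {io : K →+* ℂ} {z : ℂ}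
    {T T' : ℝ} (hT0 : 0 ≤ T) (hT : T ≤ T') {x : X → ℂ} (h : R349.PC.Good F k K io T' z x) :
    R349.PC.Good F k K io T z x := by
  have hB : ∀ y : 𝓞 K, Bd k T y → Bd k T' y := fun y hy φ => (hy φ).trans (pow_le_pow_left₀ hT0 hT k)
  exact ⟨fun q c g1 g2 => h.1 q c (hB _ g1) (fun l => hB _ (g2 l)),
    fun hz q c hq g1 g2 => h.2.1 hz q c hq (hB _ g1) (fun l => hB _ (g2 l)),
    fun q c hq g1 g2 => h.2.2.1 q c hq (hB _ g1) (fun l => hB _ (g2 l)),
    fun ht c g1 => h.2.2.2 ht c (fun a l => hB _ (g1 a l))⟩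

/-- rational approximations of real points -/
theorem near_real [Nonempty X] (F : SympFam X n) {Z : Set ℂ} (hZ : Z.Countable) (τ : ℝ) (hτ : 0 < τ) :
    ∃ E : Set (X → ℝ), dimH E ≤ ENNReal.ofReal ((Fintype.card X : ℝ) / (1 + τ)) ∧
      ∀ y : X → ℝ, y ∉ E → (fun j => (y j : ℂ)) ∈ F.U → ∀ (K : IntermediateField ℚ ℂ) [NumberField K], ∀ z ∈ Z,
        ∀ (k : ℕ) (C : ℝ), ∃ Q : ℕ, ∀ q : ℕ, Q ≤ q → ∀ p : X → ℤ,
          (∀ j, |(q : ℝ) * y j - p j| ≤ C * (q : ℝ) ^ (-τ)) →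
            (fun j => (p j : ℂ) / q) ∈ F.U ∧
            R349.PC.Good F k K (algebraMap K ℂ) (q : ℝ) z (fun j => (p j : ℂ) / q) := by
  classical
  obtain ⟨E, hE, h⟩ := near F ℚ (algebraMap ℚ ℂ) hZ (1 + τ) (by linarith)
  have hiso : Isometry (fun (y : X → ℝ) (j : X) => (y j : ℂ)) := by
    refine Isometry.of_dist_eq fun y y' => ?_
    simp only [dist_pi_def]
    congr 1
    refine Finset.sup_congr rfl fun j _ => ?_
    rw [← NNReal.coe_inj]
    simp [nndist_dist, Complex.dist_eq, Real.dist_eq, ← Complex.ofReal_sub]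
  refine ⟨{y | (fun j => (y j : ℂ)) ∈ E}, ?_, fun y hy hyU K _ z hz k C => ?_⟩
  · rw [← hiso.dimH_image]
    refine (dimH_mono ?_).trans (hE.trans (le_of_eq ?_))
    · rintro _ ⟨y, hy, rfl⟩
      exact hy
    · rw [Module.finrank_self]
      simp
  · obtain ⟨A, hA⟩ : ∃ A : ℝ, A = ‖y‖ + |C| + 1 := ⟨_, rfl⟩
    have hA1 : 1 ≤ A := by
      rw [hA]
      linarith [norm_nonneg y, abs_nonneg C]
    have hA0 : 0 < A := by linarith
    obtain ⟨T₁, hT₁⟩ := h _ hyU hy K (fun x => by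
      rw [eq_ratCast]
      exact SubfieldClass.ratCast_mem K x) z hz k (|C| * A ^ (1 + τ))
    refine ⟨max ⌈T₁⌉₊ 1, fun q hq p hp => ?_⟩
    have hq1 : 1 ≤ q := (le_max_right _ _).trans hq
    have hq1' : (1 : ℝ) ≤ q := by exact_mod_cast hq1
    have hq0 : (0 : ℝ) < q := by linarith
    have hqT : T₁ ≤ A * q := by
      have h1 : (⌈T₁⌉₊ : ℝ) ≤ q := by exact_mod_cast (le_max_left _ _).trans hq
      have h2 := Nat.le_ceil T₁
      nlinarith
    have hqτ : (q : ℝ) ^ (-τ) ≤ 1 := Real.rpow_le_one_of_one_le_of_nonpos hq1' (by linarith)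
    have hqτ0 : (0 : ℝ) < (q : ℝ) ^ (-τ) := Real.rpow_pos_of_pos hq0 _
    have hp' : ∀ j, |(q : ℝ) * y j - p j| ≤ |C| * (q : ℝ) ^ (-τ) := fun j =>
      (hp j).trans (mul_le_mul_of_nonneg_right (le_abs_self C) hqτ0.le)
    have hpb : ∀ j, |(p j : ℝ)| ≤ A * q := by
      intro j
      have h1 : |(q : ℝ) * y j| ≤ ‖y‖ * q := by
        rw [abs_mul, abs_of_pos hq0, mul_comm]
        exact mul_le_mul_of_nonneg_right (norm_le_pi_norm y j) hq0.le
      have h2 : |(p j : ℝ)| ≤ |(q : ℝ) * y j - p j| + |(q : ℝ) * y j| := by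
        have h3 := abs_sub_abs_le_abs_sub (p j : ℝ) ((q : ℝ) * y j)
        rw [abs_sub_comm] at h3
        linarith
      have h3 : |C| * (q : ℝ) ^ (-τ) ≤ |C| * 1 := mul_le_mul_of_nonneg_left hqτ (abs_nonneg C)
      have h4 := hp' j
      have h5 : |C| * 1 ≤ |C| * q := mul_le_mul_of_nonneg_left hq1' (abs_nonneg C)
      rw [hA]
      nlinarith
    have hs : (fun j => (algebraMap ℚ ℂ) ((p j : ℚ) / q)) = fun j => (p j : ℂ) / q := by
      funext j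
      simp
    have hcd : CommonDen ℚ (A * q) (fun j : X => (p j : ℚ) / q) := by
      refine ⟨((q : ℕ) : 𝓞 ℚ), fun j => ((p j : ℤ) : 𝓞 ℚ), by
        exact_mod_cast (by omega : q ≠ 0), fun φ => ⟨?_, fun j => ?_⟩, fun j => by simp⟩
      · have e1 : φ ((((q : ℕ) : 𝓞 ℚ)) : ℚ) = (q : ℂ) := by simp
        rw [e1, Complex.norm_natCast]
        nlinarith
      · have e1 : φ ((((p j : ℤ) : 𝓞 ℚ)) : ℚ) = ((p j : ℤ) : ℂ) := by simp
        rw [e1, Complex.norm_intCast]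
        exact hpb j
    have hdist : ∀ j, ‖(y j : ℂ) - (algebraMap ℚ ℂ) ((p j : ℚ) / q)‖ ≤
        |C| * A ^ (1 + τ) * (A * q) ^ (-(1 + τ)) := by
      intro j
      have e1 : (y j : ℂ) - (algebraMap ℚ ℂ) ((p j : ℚ) / q) = (((y j - p j / q : ℝ)) : ℂ) := by
        push_cast
        simp
      have e2 : y j - (p j : ℝ) / q = ((q : ℝ) * y j - p j) / q := by
        field_simp
      rw [e1, Complex.norm_real, Real.norm_eq_abs, e2, abs_div, abs_of_pos hq0, div_le_iff₀ hq0]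
      refine (hp' j).trans ?_
      have e3 : (A * q) ^ (-(1 + τ)) = A ^ (-(1 + τ)) * ((q : ℝ) ^ (-τ) * (q : ℝ)⁻¹) := by
        rw [Real.mul_rpow hA0.le hq0.le]
        congr 1
        rw [← Real.rpow_neg_one (q : ℝ), ← Real.rpow_add hq0]
        congr 1
        ring
      have e4 : A ^ (1 + τ) * A ^ (-(1 + τ)) = 1 := by
        rw [← Real.rpow_add hA0, add_neg_cancel, Real.rpow_zero]
      rw [e3]
      refine le_of_eq ?_
      calc |C| * (q : ℝ) ^ (-τ) = |C| * (q : ℝ) ^ (-τ) * ((A ^ (1 + τ) * A ^ (-(1 + τ))) * ((q : ℝ)⁻¹ * q)) := by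
            rw [e4, inv_mul_cancel₀ hq0.ne']
            ring
        _ = _ := by ring
    obtain ⟨g1, g2⟩ := hT₁ (A * q) hqT (fun j => (p j : ℚ) / q) hcd hdist
    rw [hs] at g1 g2
    exact ⟨g1, good_mono F hq0.le (by nlinarith) g2⟩

end Pool.Agent.N603.DB
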