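import Pool.Agent.N603.DB.CD
import Pool.Agent.R909.RandSets
import Pool.Agent.R479.DA.Lim

set_option autoImplicit false
set_option linter.unusedSectionVars false

/-!
Exceptional points which are covered by few hypersurfaces of bounded degree: approximation, denominators of good
approximations, random sets. General statements.
-/

open NumberField Filter Matrix Module MeasureTheory

namespace Pool.Agent.N603.DB

open Pool.Agent Pool.Agent.Y890.MV
open Pool.Agent.Y124 (Cov)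
open Pool.Agent.R437.Met Pool.Agent.R437.Met.Fam
open Pool.Agent.N671.DA (Solves Expanding approx_good)

/-- the height of `x`: the least `T` such that `x` is a quotient of two integers of `K` all of whose
conjugates have absolute value at most `T` -/
noncomputable def hgt (K : Type) [Field K] [NumberField K] (x : K) : ℝ := sInf {T : ℝ | Y120.HtLe K T x}

theorem hgt_eq (K : Type) [Field K] [NumberField K] (x : K) : hgt K x = N603.DA.ht K x := by
  unfold hgt N603.DA.ht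
  congr 1
  ext T
  exact ⟨Tors.isPt_of, Tors.htLe_of⟩

theorem hgt_le_iff (K : Type) [Field K] [NumberField K] (x : K) (T : ℝ) : hgt K x ≤ T ↔ Y120.HtLe K T x := by
  rw [hgt_eq]
  exact (N603.DA.ht_le_iff K x T).trans ⟨Tors.htLe_of, Tors.isPt_of⟩

theorem one_le_hgt (K : Type) [Field K] [NumberField K] (x : K) : 1 ≤ hgt K x := by
  rw [hgt_eq]
  exact N603.DA.one_le_ht K x

variable {X : Type} [Fintype X] [DecidableEq X]

/-- a property of points of `U` with parameters `K`, `k`, `T` such that the points over `K` of height at most `T` with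
this property lie on few hypersurfaces of bounded degree -/
structure CovFam (U : Set (X → ℂ))
    (P : ∀ (K : Type) [Field K] [NumberField K], (K →+* ℂ) → ℕ → ℝ → (X → ℂ) → Prop) : Prop where
  isOpen : IsOpen U
  mono : ∀ (K : Type) [Field K] [NumberField K] (io : K →+* ℂ) (k k' : ℕ) (T T' : ℝ) (x : X → ℂ), k ≤ k' → 1 ≤ T →
    T ≤ T' → P K io k T x → P K io k' T' x
  cov : ∀ k : ℕ, 0 < k → ∀ ε : ℝ, 0 < ε → ∃ (D : ℕ) (C T₀ : ℝ), 0 ≤ C ∧ ∀ (K : Type) [Field K] [NumberField K],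
    Module.finrank ℚ K ≤ k → ∀ (io : K →+* ℂ) (T : ℝ), T₀ ≤ T →
      Cov D ⌊C * T ^ ε⌋₊ ((fun (s : X → K) j => io (s j)) '' {s | (∀ j, Y120.HtLe K T (s j)) ∧
        (fun j => io (s j)) ∈ InnerM U k ∧ P K io k T (fun j => io (s j))})

variable {U : Set (X → ℂ)} {P : ∀ (K : Type) [Field K] [NumberField K], (K →+* ℂ) → ℕ → ℝ → (X → ℂ) → Prop}

/-- points over a smaller field `L` -/
theorem CovFam.covL (h : CovFam U P) {k : ℕ} (hk : 0 < k) {ε : ℝ} (hε : 0 < ε) (L : Type) [Field L] [NumberField L]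
    (K : Type) [Field K] [NumberField K] (hK : Module.finrank ℚ K ≤ k) (io : K →+* ℂ) (u : L →+* K) :
    ∃ (D : ℕ) (C T₀ : ℝ), 0 ≤ C ∧ ∀ T : ℝ, T₀ ≤ T →
      Cov D ⌊C * T ^ ε⌋₊ ((fun (s : X → L) j => (io.comp u) (s j)) '' {s | (∀ j, Y120.HtLe L T (s j)) ∧
        (fun j => (io.comp u) (s j)) ∈ InnerM U k ∧ P K io k T (fun j => io (u (s j)))}) := by
  obtain ⟨D, C, T₀, hC, H⟩ := h.cov k hk ε hε
  refine ⟨D, C, T₀, hC, fun T hT => (H K hK io T hT).mono le_rfl le_rfl ?_⟩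
  rintro _ ⟨s, ⟨h1, h2, h3⟩, rfl⟩
  refine ⟨fun j => u (s j), ⟨fun j => ?_, h2, h3⟩, rfl⟩
  obtain ⟨a, b, e1, e2, e3⟩ := Tors.isPt_of (h1 j)
  refine Tors.htLe_of ⟨RingOfIntegers.mapRingHom u a, RingOfIntegers.mapRingHom u b, ?_, fun φ => ?_, ?_⟩
  · intro h0
    apply e1
    apply RingOfIntegers.ext
    apply u.injective
    have := congrArg (fun x : 𝓞 K => (x : K)) h0
    simpa using this
  · exact e2 (φ.comp u)
  · show u (s j) = _
    rw [e3, map_div₀]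
    rfl

/-- the number of points of height at most `T` -/
theorem ht_count [Nonempty X] (K : Type) [Field K] [NumberField K] (io : K →+* ℂ) (Bd : ℝ → (X → K) → Prop)
    (ε : ℝ) {D : ℕ} {C T₀ : ℝ} (hC : 0 ≤ C) (H : ∀ T : ℝ, T₀ ≤ T →
      Cov D ⌊C * T ^ ε⌋₊ ((fun (s : X → K) j => io (s j)) '' {s | (∀ j, Y120.HtLe K T (s j)) ∧ Bd T s})) :
    ∃ C' : ℝ, 0 ≤ C' ∧ ∀ T : ℝ, max T₀ 1 ≤ T → {s : X → K | (∀ j, Y120.HtLe K T (s j)) ∧ Bd T s}.Finite ∧
      (({s : X → K | (∀ j, Y120.HtLe K T (s j)) ∧ Bd T s}.ncard : ℕ) : ℝ) ≤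
        C' * T ^ (2 * (Module.finrank ℚ K : ℝ) * ((Fintype.card X : ℝ) - 1) + ε) := by
  classical
  have hX : 1 ≤ Fintype.card X := Fintype.card_pos
  obtain ⟨C₁, hC₁, hcnt⟩ := Tors.count_le K
  refine ⟨C * D * C₁ ^ (Fintype.card X - 1), by positivity, fun T hT => ?_⟩
  have hT1 : 1 ≤ T := (le_max_right _ _).trans hT
  have hT0 : 0 < T := by linarith
  obtain ⟨h1, h2⟩ := cov_count io {x : K | Y120.HtLe K T x} (Y120.HtLe_fin K T) _
    (fun s hs => hs.1) (H T ((le_max_left _ _).trans hT))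
  refine ⟨h1, ?_⟩
  have h3 : ((⌊C * T ^ ε⌋₊ : ℕ) : ℝ) ≤ C * T ^ ε := Nat.floor_le (by positivity)
  have h4 : ({x : K | Y120.HtLe K T x}.ncard : ℝ) ^ (Fintype.card X - 1) ≤
      (C₁ * T ^ (2 * Module.finrank ℚ K)) ^ (Fintype.card X - 1) :=
    pow_le_pow_left₀ (Nat.cast_nonneg _) (hcnt T hT1) _
  calc (({s : X → K | (∀ j, Y120.HtLe K T (s j)) ∧ Bd T s}.ncard : ℕ) : ℝ)
      ≤ ((⌊C * T ^ ε⌋₊ * (D * {x : K | Y120.HtLe K T x}.ncard ^ (Fintype.card X - 1)) : ℕ) : ℝ) := by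
        exact_mod_cast h2
    _ = ((⌊C * T ^ ε⌋₊ : ℕ) : ℝ) * (D *
        ({x : K | Y120.HtLe K T x}.ncard : ℝ) ^ (Fintype.card X - 1)) := by push_cast; rfl
    _ ≤ (C * T ^ ε) * (D * (C₁ * T ^ (2 * Module.finrank ℚ K)) ^ (Fintype.card X - 1)) :=
        mul_le_mul h3 (mul_le_mul_of_nonneg_left h4 (Nat.cast_nonneg _)) (by positivity)
          (by positivity)
    _ = C * D * C₁ ^ (Fintype.card X - 1) *
        (T ^ (2 * (Module.finrank ℚ K : ℝ) * ((Fintype.card X : ℝ) - 1)) * T ^ ε) := by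
        rw [mul_pow, ← pow_mul, ← Real.rpow_natCast T (2 * Module.finrank ℚ K * (Fintype.card X - 1))]
        have e : ((2 * Module.finrank ℚ K * (Fintype.card X - 1) : ℕ) : ℝ) =
            2 * (Module.finrank ℚ K : ℝ) * ((Fintype.card X : ℝ) - 1) := by
          push_cast [Nat.cast_sub hX]
          ring
        rw [e]
        ring
    _ = _ := by rw [← Real.rpow_add hT0]

/-- a compact subset of `U` is contained in `InnerM U k` for large `k` -/
theorem compact_inner (hU : IsOpen U) {S : Set (X → ℂ)} (hS : IsCompact S) (hSU : S ⊆ U) :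
    ∃ k₀ : ℕ, ∀ k : ℕ, k₀ ≤ k → S ⊆ InnerM U k := by
  obtain ⟨R, hR⟩ := hS.isBounded.exists_norm_le
  obtain ⟨δ, hδ, hδU⟩ := hS.exists_cthickening_subset_open hU hSU
  obtain ⟨k₀, hk₀⟩ := exists_nat_ge (max R (1 / δ))
  refine ⟨k₀, fun k hk x hx => ?_⟩
  have hkk : (k₀ : ℝ) ≤ k := by exact_mod_cast hk
  have h1 : R ≤ k := ((le_max_left _ _).trans hk₀).trans hkk
  have h2 : 1 / δ ≤ k := ((le_max_right _ _).trans hk₀).trans hkk
  have hk0 : (0 : ℝ) < k := lt_of_lt_of_le (by positivity) h2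
  refine ⟨(hR x hx).trans h1, fun y hy => hδU ?_⟩
  have h3 : (k : ℝ)⁻¹ ≤ δ := by
    rw [inv_le_comm₀ hk0 hδ, ← one_div]
    exact h2
  rw [Metric.mem_ball] at hy
  exact Metric.mem_cthickening_of_dist_le y x δ S hx (hy.le.trans h3)

/-- **points near a given point**, a general class of points over `L` -/
theorem CovFam.near (h : CovFam U P) (L : Type) [Field L] [NumberField L] (io : L →+* ℂ)
    (Adm : ℝ → (X → L) → Prop) (hAdm : ∀ T T' s, T ≤ T' → Adm T s → Adm T' s) {σ : ℝ} (hσ : 0 ≤ σ)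
    (H : ∀ (K : Type) [Field K] [NumberField K] (io' : K →+* ℂ) (u : L →+* K) (k : ℕ) (ε : ℝ), 0 < k →
      Module.finrank ℚ K ≤ k → 0 < ε → ∃ C T₀ : ℝ, ∀ T : ℝ, T₀ ≤ T →
      {s : X → L | Adm T s ∧ (fun j => (io'.comp u) (s j)) ∈ InnerM U k ∧
        P K io' k T (fun j => io' (u (s j)))}.Finite ∧
      (({s : X → L | Adm T s ∧ (fun j => (io'.comp u) (s j)) ∈ InnerM U k ∧
        P K io' k T (fun j => io' (u (s j)))}.ncard : ℕ) : ℝ) ≤ C * T ^ (σ + ε))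
    (τ : ℝ) (hτ : 0 < τ) :
    ∃ E : Set (X → ℂ), dimH E ≤ ENNReal.ofReal (σ / τ) ∧
      ∀ ξ ∈ U, ξ ∉ E → ∀ (K : IntermediateField ℚ ℂ) [NumberField K], (∀ x, io x ∈ K) →
        ∀ (k : ℕ) (C : ℝ), ∃ T₁ : ℝ, ∀ T : ℝ, T₁ ≤ T → ∀ s : X → L,
          Adm T s → (∀ j, ‖ξ j - io (s j)‖ ≤ C * T ^ (-τ)) →
            (fun j => io (s j)) ∈ U ∧ ¬ P K (algebraMap K ℂ) k T (fun j => io (s j)) := by
  classical
  have hcount := N603.DA.countable_fields
  have key : ∀ p : {F : IntermediateField ℚ ℂ // FiniteDimensional ℚ F},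
      ∃ E : Set (X → ℂ), dimH E ≤ ENNReal.ofReal (σ / τ) ∧
      ∀ ξ ∈ U, ξ ∉ E → ∀ [NumberField p.1], (∀ x, io x ∈ p.1) →
        ∀ (k : ℕ) (C : ℝ), ∃ T₁ : ℝ, ∀ T : ℝ, T₁ ≤ T → ∀ s : X → L,
          Adm T s → (∀ j, ‖ξ j - io (s j)‖ ≤ C * T ^ (-τ)) →
            ¬ P p.1 (algebraMap p.1 ℂ) k T (fun j => io (s j)) := by
    rintro ⟨K, hK⟩
    have : NumberField K := { to_charZero := inferInstance, to_finiteDimensional := hK }
    by_cases hLK : ∀ x, io x ∈ K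
    · obtain ⟨E, hE, h'⟩ := near_gen L io U h.isOpen Adm hAdm
        (fun k T s => P K (algebraMap K ℂ) k T (fun j => io (s j)))
        (fun k T T' s hT hTT' hs => h.mono K _ k k T T' _ le_rfl hT hTT' hs)
        (max (Module.finrank ℚ K) 1) (σ := σ) hσ
        (fun k ε hk hε => H K (algebraMap K ℂ) (io.codRestrict K hLK) k ε
          (lt_of_lt_of_le one_pos ((le_max_right _ _).trans hk)) ((le_max_left _ _).trans hk) hε)
        τ hτ
      refine ⟨E, hE, fun ξ hξ hξE _ _ k C => ?_⟩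
      obtain ⟨k₀, hk₀⟩ := h' ξ hξ hξE
      obtain ⟨T₁, hT₁⟩ := hk₀ (max k₀ k) (le_max_left _ _) C
      refine ⟨max T₁ 1, fun T hT s hs hd hbad => ?_⟩
      exact hT₁ T ((le_max_left _ _).trans hT) s hs hd
        (h.mono K _ k (max k₀ k) T T _ (le_max_right _ _) ((le_max_right _ _).trans hT) le_rfl hbad)
    · exact ⟨∅, by simp, fun ξ _ _ _ h => absurd h hLK⟩
  choose E hE hE2 using key
  refine ⟨⋃ p, E p, ?_, fun ξ hξ hξE K hK hLK k C => ?_⟩
  · rw [dimH_iUnion]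
    exact iSup_le hE
  · have h1 : ξ ∉ E ⟨K, hK.to_finiteDimensional⟩ := fun h => hξE (Set.mem_iUnion.2 ⟨_, h⟩)
    obtain ⟨T₁, hT₁⟩ := hE2 ⟨K, hK.to_finiteDimensional⟩ ξ hξ h1 hLK k C
    obtain ⟨r, hr, hrU⟩ := Metric.isOpen_iff.1 h.isOpen ξ hξ
    obtain ⟨T₂, hT₂⟩ := Near.small (C := |C|) hτ hr
    refine ⟨max (max T₁ T₂) 0, fun T hT s hs hd => ⟨?_, hT₁ T
      (((le_max_left _ _).trans (le_max_left _ _)).trans hT) s hs hd⟩⟩
    have hTb : T₂ ≤ T := ((le_max_right _ _).trans (le_max_left _ _)).trans hT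
    have hT0 : 0 ≤ T := (le_max_right _ _).trans hT
    have hd' : dist ξ (fun j => io (s j)) ≤ |C| * T ^ (-τ) := by
      rw [dist_pi_le_iff (by positivity)]
      intro j
      rw [dist_eq_norm]
      exact (hd j).trans (mul_le_mul_of_nonneg_right (le_abs_self C) (by positivity))
    apply hrU
    rw [Metric.mem_ball, dist_comm]
    exact hd'.trans_lt (hT₂ T hTb)

/-- points with common denominators -/
theorem CovFam.near_cd [Nonempty X] (h : CovFam U P) (L : Type) [Field L] [NumberField L] (io : L →+* ℂ)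
    (τ : ℝ) (hτ : 0 < τ) :
    ∃ E : Set (X → ℂ),
      dimH E ≤ ENNReal.ofReal ((Module.finrank ℚ L : ℝ) * (Fintype.card X : ℝ) / τ) ∧
      ∀ ξ ∈ U, ξ ∉ E → ∀ (K : IntermediateField ℚ ℂ) [NumberField K], (∀ x, io x ∈ K) →
        ∀ (k : ℕ) (C : ℝ), ∃ T₁ : ℝ, ∀ T : ℝ, T₁ ≤ T → ∀ s : X → L,
          CommonDen L T s → (∀ j, ‖ξ j - io (s j)‖ ≤ C * T ^ (-τ)) →
            (fun j => io (s j)) ∈ U ∧ ¬ P K (algebraMap K ℂ) k T (fun j => io (s j)) := by
  refine h.near L io (fun T s => CommonDen L T s) (fun T T' s hT hs => hs.mono hT)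
    (σ := (Module.finrank ℚ L : ℝ) * (Fintype.card X : ℝ)) (by positivity) ?_ τ hτ
  intro K _ _ io' u k ε hk hKk hε
  obtain ⟨D, C, T₀, hC, H⟩ := h.covL hk hε L K hKk io' u
  obtain ⟨C', h'⟩ := cd_count L (io'.comp u) (fun T s => (fun j => (io'.comp u) (s j)) ∈ InnerM U k ∧
    P K io' k T (fun j => io' (u (s j)))) ε hC
    (fun T hT => (H T hT).mono le_rfl le_rfl (Set.image_mono fun s hs => ⟨hs.1.htLe, hs.2⟩))
  exact ⟨C', max T₀ 1, h'⟩

/-- all points of bounded height -/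
theorem CovFam.near_all [Nonempty X] (h : CovFam U P) (L : Type) [Field L] [NumberField L] (io : L →+* ℂ)
    (τ : ℝ) (hτ : 0 < τ) :
    ∃ E : Set (X → ℂ),
      dimH E ≤ ENNReal.ofReal (2 * (Module.finrank ℚ L : ℝ) * ((Fintype.card X : ℝ) - 1) / τ) ∧
      ∀ ξ ∈ U, ξ ∉ E → ∀ (K : IntermediateField ℚ ℂ) [NumberField K], (∀ x, io x ∈ K) →
        ∀ (k : ℕ) (C : ℝ), ∃ T₁ : ℝ, ∀ T : ℝ, T₁ ≤ T → ∀ s : X → L,
          (∀ j, Y120.HtLe L T (s j)) → (∀ j, ‖ξ j - io (s j)‖ ≤ C * T ^ (-τ)) →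
            (fun j => io (s j)) ∈ U ∧ ¬ P K (algebraMap K ℂ) k T (fun j => io (s j)) := by
  have hX' : (1 : ℝ) ≤ Fintype.card X := by exact_mod_cast Fintype.card_pos
  refine h.near L io (fun T s => ∀ j, Y120.HtLe L T (s j)) (fun T T' s hT hs j => Tors.htLe_mono (hs j) hT)
    (σ := 2 * (Module.finrank ℚ L : ℝ) * ((Fintype.card X : ℝ) - 1))
    (mul_nonneg (by positivity) (by linarith)) ?_ τ hτ
  intro K _ _ io' u k ε hk hKk hε
  obtain ⟨D, C, T₀, hC, H⟩ := h.covL hk hε L K hKk io' u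
  obtain ⟨C', -, h'⟩ := ht_count L (io'.comp u) (fun T s => (fun j => (io'.comp u) (s j)) ∈ InnerM U k ∧
    P K io' k T (fun j => io' (u (s j)))) ε hC H
  exact ⟨C', max T₀ 1, h'⟩

/-- one parameter, all exponents -/
theorem CovFam.near_zero [Nonempty X] (h : CovFam U P) (hX : Fintype.card X = 1) (L : Type) [Field L] [NumberField L]
    (io : L →+* ℂ) :
    ∃ E : Set (X → ℂ), dimH E = 0 ∧
      ∀ ξ ∈ U, ξ ∉ E → ∀ (K : IntermediateField ℚ ℂ) [NumberField K], (∀ x, io x ∈ K) →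
        ∀ (k : ℕ) (τ C : ℝ), 0 < τ → ∃ T₁ : ℝ, ∀ T : ℝ, T₁ ≤ T → ∀ s : X → L,
          (∀ j, Y120.HtLe L T (s j)) → (∀ j, ‖ξ j - io (s j)‖ ≤ C * T ^ (-τ)) →
            (fun j => io (s j)) ∈ U ∧ ¬ P K (algebraMap K ℂ) k T (fun j => io (s j)) := by
  have h1 := fun m : ℕ => h.near_all L io (1 / ((m : ℝ) + 1)) (by positivity)
  choose E hE hE' using h1
  refine ⟨⋃ m, E m, ?_, fun ξ hξ hξE K _ hLK k τ C hτ => ?_⟩
  · refine le_antisymm ?_ bot_le
    rw [dimH_iUnion]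
    refine iSup_le fun m => (hE m).trans (le_of_eq ?_)
    rw [hX]
    simp
  · obtain ⟨m, hm⟩ := exists_nat_one_div_lt hτ
    obtain ⟨T₁, hT₁⟩ := hE' m ξ hξ (fun hmem => hξE (Set.mem_iUnion.2 ⟨m, hmem⟩)) K hLK k |C|
    refine ⟨max T₁ 1, fun T hT s hs hd => hT₁ T ((le_max_left _ _).trans hT) s hs fun j => ?_⟩
    have hT1 : 1 ≤ T := (le_max_right _ _).trans hT
    refine (hd j).trans ?_
    exact mul_le_mul (le_abs_self C) (R437.Met.Fam.pow_mono (by linarith) hT1) (by positivity) (abs_nonneg C)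

/-- rational approximations of real points -/
theorem CovFam.near_real [Nonempty X] (h : CovFam U P) (τ : ℝ) (hτ : 0 < τ) :
    ∃ E : Set (X → ℝ), dimH E ≤ ENNReal.ofReal ((Fintype.card X : ℝ) / (1 + τ)) ∧
      ∀ y : X → ℝ, y ∉ E → (fun j => (y j : ℂ)) ∈ U → ∀ (K : IntermediateField ℚ ℂ) [NumberField K],
        ∀ (k : ℕ) (C : ℝ), ∃ Q : ℕ, ∀ q : ℕ, Q ≤ q → ∀ p : X → ℤ,
          (∀ j, |(q : ℝ) * y j - p j| ≤ C * (q : ℝ) ^ (-τ)) →
            (fun j => (p j : ℂ) / q) ∈ U ∧ ¬ P K (algebraMap K ℂ) k (q : ℝ) (fun j => (p j : ℂ) / q) := by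
  classical
  obtain ⟨E, hE, h'⟩ := h.near_cd ℚ (algebraMap ℚ ℂ) (1 + τ) (by linarith)
  have hiso : Isometry (fun (y : X → ℝ) (j : X) => (y j : ℂ)) := by
    refine Isometry.of_dist_eq fun y y' => ?_
    simp only [dist_pi_def]
    congr 1
    refine Finset.sup_congr rfl fun j _ => ?_
    rw [← NNReal.coe_inj]
    simp [nndist_dist, Complex.dist_eq, Real.dist_eq, ← Complex.ofReal_sub]
  refine ⟨{y | (fun j => (y j : ℂ)) ∈ E}, ?_, fun y hy hyU K _ k C => ?_⟩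
  · rw [← hiso.dimH_image]
    refine (dimH_mono ?_).trans (hE.trans (le_of_eq ?_))
    · rintro _ ⟨y, hy, rfl⟩
      exact hy
    · rw [Module.finrank_self]
      simp
  · obtain ⟨A, hA⟩ : ∃ A : ℝ, A = ‖y‖ + |C| + 1 := ⟨_, rfl⟩
    have hA1 : 1 ≤ A := by
      rw [hA]
      linarith [norm_nonneg y, abs_nonneg C]
    have hA0 : 0 < A := by linarith
    obtain ⟨T₁, hT₁⟩ := h' _ hyU hy K (fun x => by
      rw [eq_ratCast]
      exact SubfieldClass.ratCast_mem K x) k (|C| * A ^ (1 + τ))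
    refine ⟨max ⌈T₁⌉₊ 1, fun q hq p hp => ?_⟩
    have hq1 : 1 ≤ q := (le_max_right _ _).trans hq
    have hq1' : (1 : ℝ) ≤ q := by exact_mod_cast hq1
    have hq0 : (0 : ℝ) < q := by linarith
    have hqT : T₁ ≤ A * q := by
      have h1 : (⌈T₁⌉₊ : ℝ) ≤ q := by exact_mod_cast (le_max_left _ _).trans hq
      have h2 := Nat.le_ceil T₁
      nlinarith
    have hqτ : (q : ℝ) ^ (-τ) ≤ 1 := Real.rpow_le_one_of_one_le_of_nonpos hq1' (by linarith)
    have hqτ0 : (0 : ℝ) < (q : ℝ) ^ (-τ) := Real.rpow_pos_of_pos hq0 _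
    have hp' : ∀ j, |(q : ℝ) * y j - p j| ≤ |C| * (q : ℝ) ^ (-τ) := fun j =>
      (hp j).trans (mul_le_mul_of_nonneg_right (le_abs_self C) hqτ0.le)
    have hpb : ∀ j, |(p j : ℝ)| ≤ A * q := by
      intro j
      have h1 : |(q : ℝ) * y j| ≤ ‖y‖ * q := by
        rw [abs_mul, abs_of_pos hq0, mul_comm]
        exact mul_le_mul_of_nonneg_right (norm_le_pi_norm y j) hq0.le
      have h2 : |(p j : ℝ)| ≤ |(q : ℝ) * y j - p j| + |(q : ℝ) * y j| := by
        have h3 := abs_sub_abs_le_abs_sub (p j : ℝ) ((q : ℝ) * y j)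
        rw [abs_sub_comm] at h3
        linarith
      have h3 : |C| * (q : ℝ) ^ (-τ) ≤ |C| * 1 := mul_le_mul_of_nonneg_left hqτ (abs_nonneg C)
      have h4 := hp' j
      have h5 : |C| * 1 ≤ |C| * q := mul_le_mul_of_nonneg_left hq1' (abs_nonneg C)
      rw [hA]
      nlinarith
    have hs : (fun j => (algebraMap ℚ ℂ) ((p j : ℚ) / q)) = fun j => (p j : ℂ) / q := by
      funext j
      simp
    have hcd : CommonDen ℚ (A * q) (fun j : X => (p j : ℚ) / q) := by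
      refine ⟨((q : ℕ) : 𝓞 ℚ), fun j => ((p j : ℤ) : 𝓞 ℚ), by
        exact_mod_cast (by omega : q ≠ 0), fun φ => ⟨?_, fun j => ?_⟩, fun j => by simp⟩
      · have e1 : φ ((((q : ℕ) : 𝓞 ℚ)) : ℚ) = (q : ℂ) := by simp
        rw [e1, Complex.norm_natCast]
        nlinarith
      · have e1 : φ ((((p j : ℤ) : 𝓞 ℚ)) : ℚ) = ((p j : ℤ) : ℂ) := by simp
        rw [e1, Complex.norm_intCast]
        exact hpb j
    have hdist : ∀ j, ‖(y j : ℂ) - (algebraMap ℚ ℂ) ((p j : ℚ) / q)‖ ≤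
        |C| * A ^ (1 + τ) * (A * q) ^ (-(1 + τ)) := by
      intro j
      have e1 : (y j : ℂ) - (algebraMap ℚ ℂ) ((p j : ℚ) / q) = (((y j - p j / q : ℝ)) : ℂ) := by
        push_cast
        simp
      have e2 : y j - (p j : ℝ) / q = ((q : ℝ) * y j - p j) / q := by
        field_simp
      rw [e1, Complex.norm_real, Real.norm_eq_abs, e2, abs_div, abs_of_pos hq0, div_le_iff₀ hq0]
      refine (hp' j).trans ?_
      have e3 : (A * q) ^ (-(1 + τ)) = A ^ (-(1 + τ)) * ((q : ℝ) ^ (-τ) * (q : ℝ)⁻¹) := by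
        rw [Real.mul_rpow hA0.le hq0.le]
        congr 1
        rw [← Real.rpow_neg_one (q : ℝ), ← Real.rpow_add hq0]
        congr 1
        ring
      have e4 : A ^ (1 + τ) * A ^ (-(1 + τ)) = 1 := by
        rw [← Real.rpow_add hA0, add_neg_cancel, Real.rpow_zero]
      rw [e3]
      refine le_of_eq ?_
      calc |C| * (q : ℝ) ^ (-τ) = |C| * (q : ℝ) ^ (-τ) * ((A ^ (1 + τ) * A ^ (-(1 + τ))) * ((q : ℝ)⁻¹ * q)) := by
            rw [e4, inv_mul_cancel₀ hq0.ne']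
            ring
        _ = _ := by ring
    obtain ⟨g1, g2⟩ := hT₁ (A * q) hqT (fun j => (p j : ℚ) / q) hcd hdist
    rw [hs] at g1 g2
    exact ⟨g1, fun hbad => g2 (h.mono K _ k k q (A * q) _ le_rfl hq1' (by nlinarith) hbad)⟩

/-- the number of exceptional elements at their own height, one parameter -/
theorem CovFam.own [Nonempty X] (h : CovFam U P) (hX : Fintype.card X = 1) (K : Type) [Field K] [NumberField K]
    (io : K →+* ℂ) {k : ℕ} (hk : 0 < k) (hK : Module.finrank ℚ K ≤ k) {ε : ℝ} (hε : 0 < ε) :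
    ∃ C : ℝ, ∀ Y : ℝ, 1 ≤ Y →
      {x : K | ((fun _ : X => io x) ∈ InnerM U k ∧ ¬ ¬ P K io k (hgt K x) (fun _ => io x)) ∧ hgt K x ≤ Y}.Finite ∧
      (({x : K | ((fun _ : X => io x) ∈ InnerM U k ∧ ¬ ¬ P K io k (hgt K x) (fun _ => io x)) ∧
        hgt K x ≤ Y}.ncard : ℕ) : ℝ) ≤ C * Y ^ ε := by
  classical
  obtain ⟨D, C, T₀, hC, H⟩ := h.cov k hk ε hε
  obtain ⟨C', hC', h'⟩ := ht_count K io (fun T s => (fun j => io (s j)) ∈ InnerM U k ∧
    P K io k T (fun j => io (s j))) ε hC (H K hK io)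
  refine ⟨C' * (max T₀ 1) ^ ε, fun Y hY => ?_⟩
  have hY0 : 0 < Y := by linarith
  obtain ⟨h1, h2⟩ := h' (max Y (max T₀ 1)) (le_max_right _ _)
  have hmaps : Set.MapsTo (fun (x : K) (_ : X) => x)
      {x : K | ((fun _ : X => io x) ∈ InnerM U k ∧ ¬ ¬ P K io k (hgt K x) (fun _ => io x)) ∧ hgt K x ≤ Y}
      {s : X → K | (∀ j, Y120.HtLe K (max Y (max T₀ 1)) (s j)) ∧ (fun j => io (s j)) ∈ InnerM U k ∧
        P K io k (max Y (max T₀ 1)) (fun j => io (s j))} := by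
    rintro x ⟨⟨e1, e2⟩, e3⟩
    have e4 : hgt K x ≤ max Y (max T₀ 1) := e3.trans (le_max_left _ _)
    exact ⟨fun _ => (hgt_le_iff K x _).1 e4, e1, h.mono K io k k _ _ _ le_rfl (one_le_hgt K x) e4 (not_not.1 e2)⟩
  have hinj : Set.InjOn (fun (x : K) (_ : X) => x)
      {x : K | ((fun _ : X => io x) ∈ InnerM U k ∧ ¬ ¬ P K io k (hgt K x) (fun _ => io x)) ∧ hgt K x ≤ Y} := by
    intro x _ y _ hxy
    exact congrFun hxy (Classical.arbitrary X)
  refine ⟨h1.of_injOn hmaps hinj, ?_⟩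
  have h3 := Set.ncard_le_ncard_of_injOn _ hmaps hinj h1
  refine (Nat.cast_le (α := ℝ).2 h3).trans (h2.trans ?_)
  have e : 2 * (Module.finrank ℚ K : ℝ) * ((Fintype.card X : ℝ) - 1) + ε = ε := by
    rw [hX]
    push_cast
    ring
  have hT1 : 1 ≤ max T₀ 1 := le_max_right _ _
  rw [e, mul_assoc, ← Real.mul_rpow (by linarith) hY0.le]
  refine mul_le_mul_of_nonneg_left ?_ hC'
  refine Real.rpow_le_rpow (by positivity) (max_le ?_ ?_) hε.le
  · nlinarith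
  · nlinarith

/-- **denominators of good approximations**, one parameter -/
theorem CovFam.da [Nonempty X] (h : CovFam U P) (hX : Fintype.card X = 1) {G : ℕ → ℝ} {e : ℝ}
    (hG : Expanding G e) {κ : ℝ} (hκ : 0 ≤ κ) (hκ1 : κ ≤ 1) {m : ℕ} (β : Fin m → ℝ) {τ : ℝ} (hτ : 0 < τ) :
    ∃ E : Set (Fin m → ℝ), dimH E ≤ ENNReal.ofReal ((m + κ) / (1 + τ)) ∧
      ∀ α, α ∉ E → ∀ (K : IntermediateField ℚ ℂ) [NumberField K] (k : ℕ) (S : Set (X → ℂ)), IsCompact S → S ⊆ U →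
        ∀ C : ℝ, ∃ Q : ℕ, ∀ q : ℕ, Q ≤ q → Solves α β q (C * (q : ℝ) ^ (-τ)) →
          ∀ x : K, (fun _ : X => (x : ℂ)) ∈ S → |hgt K x - G q| ≤ (q : ℝ) ^ κ →
            ¬ P K (algebraMap K ℂ) k (hgt K x) (fun _ => (x : ℂ)) := by
  classical
  have hcount := N603.DA.countable_fields
  have key : ∀ p : {F : IntermediateField ℚ ℂ // FiniteDimensional ℚ F} × ℕ,
      ∃ E : Set (Fin m → ℝ), dimH E ≤ ENNReal.ofReal ((m + κ) / (1 + τ)) ∧
      ∀ α, α ∉ E → ∀ [NumberField p.1.1], Module.finrank ℚ p.1.1 ≤ p.2 → 0 < p.2 →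
        ∀ C : ℝ, ∃ Q : ℕ, ∀ q : ℕ, Q ≤ q → Solves α β q (C * (q : ℝ) ^ (-τ)) →
          ∀ x : p.1.1, (fun _ : X => (x : ℂ)) ∈ InnerM U p.2 → |hgt p.1.1 x - G q| ≤ (q : ℝ) ^ κ →
            ¬ P p.1.1 (algebraMap p.1.1 ℂ) p.2 (hgt p.1.1 x) (fun _ => (x : ℂ)) := by
    rintro ⟨⟨K, hK⟩, k⟩
    have : NumberField K := { to_charZero := inferInstance, to_finiteDimensional := hK }
    by_cases hk : Module.finrank ℚ K ≤ k ∧ 0 < k
    · obtain ⟨E, hE, h'⟩ := approx_good (T := K)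
        (fun x => (fun _ : X => (x : ℂ)) ∈ InnerM U k)
        (fun x => ¬ P K (algebraMap K ℂ) k (hgt K x) (fun _ => (x : ℂ)))
        (fun x => hgt K x) hG (s := 0) (κ := κ) le_rfl hκ hκ1 (fun ε hε => by
          obtain ⟨C, hC⟩ := h.own hX K (algebraMap K ℂ) hk.2 hk.1 hε
          refine ⟨C, fun Y hY => ?_⟩
          rw [zero_add]
          exact hC Y hY) β hτ
      rw [mul_zero, zero_add] at hE
      exact ⟨E, hE, fun α hα _ _ _ => h' α hα⟩
    · exact ⟨∅, by simp, fun α _ _ h1 h2 => absurd ⟨h1, h2⟩ hk⟩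
  choose E hE hE2 using key
  refine ⟨⋃ p, E p, ?_, fun α hα K hK k S hS hSU C => ?_⟩
  · rw [dimH_iUnion]
    exact iSup_le hE
  · obtain ⟨k₀, hk₀⟩ := compact_inner h.isOpen hS hSU
    obtain ⟨k', hk'⟩ : ∃ k' : ℕ, k' = max (max k₀ k) (max (Module.finrank ℚ K) 1) := ⟨_, rfl⟩
    have e1 : k₀ ≤ k' := by omega
    have e2 : k ≤ k' := by omega
    have e3 : Module.finrank ℚ K ≤ k' := by omega
    have e4 : 0 < k' := by omega
    have h1 : α ∉ E (⟨K, hK.to_finiteDimensional⟩, k') := fun h => hα (Set.mem_iUnion.2 ⟨_, h⟩)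
    obtain ⟨Q, hQ⟩ := hE2 (⟨K, hK.to_finiteDimensional⟩, k') α h1 e3 e4 C
    refine ⟨Q, fun q hq hs x hx hG' hbad => ?_⟩
    exact hQ q hq hs x (hk₀ k' e1 hx) hG' (h.mono K _ k k' _ _ _ e2 (one_le_hgt K x) le_rfl hbad)

/-- the height of a tuple `s` of elements of `K`: one plus the least natural number `n` such that all
`s j` are quotients of integers of `K` all of whose conjugates have absolute value at most `n` -/
noncomputable def hgtT {X : Type} {K : Type} [Field K] [NumberField K] (s : X → K) : ℕ :=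
  sInf {n : ℕ | ∀ j, Y120.HtLe K (n : ℝ) (s j)} + 1

lemma hgtT_spec {K : Type} [Field K] [NumberField K] (s : X → K) (j : X) :
    Y120.HtLe K (hgtT s : ℝ) (s j) := by
  have h1 : ∀ x : K, ∃ n : ℕ, Y120.HtLe K (n : ℝ) x := by
    intro x
    obtain ⟨n, hn⟩ := exists_nat_ge (hgt K x)
    exact ⟨n, (hgt_le_iff K x n).1 hn⟩
  choose n hn using h1
  have h2 : ∃ m : ℕ, ∀ j, Y120.HtLe K (m : ℝ) (s j) := by
    refine ⟨Finset.univ.sup fun j => n (s j), fun j => Tors.htLe_mono (hn (s j)) ?_⟩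
    have h3 : n (s j) ≤ Finset.univ.sup fun j => n (s j) :=
      Finset.le_sup (f := fun j => n (s j)) (Finset.mem_univ j)
    exact_mod_cast h3
  have h3 : ∀ j, Y120.HtLe K ((sInf {n : ℕ | ∀ j, Y120.HtLe K (n : ℝ) (s j)} : ℕ) : ℝ) (s j) :=
    Nat.sInf_mem (s := {n : ℕ | ∀ j, Y120.HtLe K (n : ℝ) (s j)}) h2
  refine Tors.htLe_mono (h3 j) ?_
  unfold hgtT
  push_cast
  linarith

/-- **random sets** -/
theorem CovFam.random [Nonempty X] (h : CovFam U P) (K : Type) [Field K] [NumberField K] (io : K →+* ℂ)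
    {γ : ℝ} (hγ : 2 * (Module.finrank ℚ K : ℝ) * ((Fintype.card X : ℝ) - 1) < γ) {Ω : Type} [MeasurableSpace Ω]
    {μ : Measure Ω} {A : Ω → Set (X → K)} {C : ℝ}
    (hA : ∀ s : X → K, μ {ω | s ∈ A ω} ≤ ENNReal.ofReal (C * (hgtT s : ℝ) ^ (-γ))) :
    ∀ᵐ ω ∂μ, ∀ (k : ℕ) (S : Set (X → ℂ)), IsCompact S → S ⊆ U →
      {s : X → K | s ∈ A ω ∧ (fun j => io (s j)) ∈ S ∧ P K io k (hgtT s : ℝ) (fun j => io (s j))}.Finite := by
  classical
  obtain ⟨g, hg⟩ : ∃ g : ℝ, g = 2 * (Module.finrank ℚ K : ℝ) * ((Fintype.card X : ℝ) - 1) := ⟨_, rfl⟩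
  have hm1 : (1 : ℝ) ≤ (Fintype.card X : ℝ) := by exact_mod_cast Fintype.card_pos
  have hg0 : 0 ≤ g := by
    rw [hg]
    exact mul_nonneg (by positivity) (by linarith)
  rw [← hg] at hγ
  have hone : ∀ s : X → K, (1 : ℝ) ≤ (hgtT s : ℝ) := by
    intro s
    unfold hgtT
    push_cast
    have : (0 : ℝ) ≤ ((sInf {n : ℕ | ∀ j, Y120.HtLe K (n : ℝ) (s j)} : ℕ) : ℝ) := Nat.cast_nonneg _
    linarith
  have key : ∀ k : ℕ, 0 < k → Module.finrank ℚ K ≤ k → ∀ᵐ ω ∂μ,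
      {s : X → K | ((fun j => io (s j)) ∈ InnerM U k ∧ P K io k (hgtT s : ℝ) (fun j => io (s j))) ∧
        s ∈ A ω}.Finite := by
    intro k hk hK
    obtain ⟨D, C₀, T₀, hC₀, H⟩ := h.cov k hk ((γ - g) / 4) (by linarith)
    obtain ⟨C₁, hC₁, hc⟩ := ht_count K io (fun T s => (fun j => io (s j)) ∈ InnerM U k ∧
      P K io k T (fun j => io (s j))) ((γ - g) / 4) hC₀ (H K hK io)
    rw [← hg] at hc
    set T₁ : ℝ := max T₀ 1 with hT₁
    have hT1 : 1 ≤ T₁ := le_max_right _ _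
    set N : ℝ → Set (X → K) := fun T => {s : X → K | (∀ j, Y120.HtLe K T (s j)) ∧
      (fun j => io (s j)) ∈ InnerM U k ∧ P K io k T (fun j => io (s j))} with hN
    obtain ⟨hf2, -⟩ := hc T₁ le_rfl
    have hsum : Summable fun s : {s : X → K // (fun j => io (s j)) ∈ InnerM U k ∧
        P K io k (hgtT s : ℝ) (fun j => io (s j))} => ((hgtT s.1 : ℕ) : ℝ) ^ (-(g + (γ - g) / 2)) := by
      refine Pool.Agent.R479.DA.summable_heights
        (fun s : {s : X → K // (fun j => io (s j)) ∈ InnerM U k ∧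
          P K io k (hgtT s : ℝ) (fun j => io (s j))} => ((hgtT s.1 : ℕ) : ℝ))
        (fun s => hone s.1) (s := g + (γ - g) / 4) (p := g + (γ - g) / 2)
        (C := C₁ + ((N T₁).ncard : ℝ)) (by linarith) (by linarith) (fun Y hY => ?_)
      have hY1 : 1 ≤ Y ^ (g + (γ - g) / 4) := Real.one_le_rpow hY (by linarith)
      have h6 : (0 : ℝ) ≤ ((N T₁).ncard : ℝ) := Nat.cast_nonneg _
      have hmaps : ∀ T : ℝ, Y ≤ T → Set.MapsTo Subtype.val
          {s : {s : X → K // (fun j => io (s j)) ∈ InnerM U k ∧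
            P K io k (hgtT s : ℝ) (fun j => io (s j))} | ((hgtT s.1 : ℕ) : ℝ) ≤ Y} (N T) := by
        intro T hT s hs
        have e1 : ((hgtT s.1 : ℕ) : ℝ) ≤ T := le_trans hs hT
        exact ⟨fun j => Tors.htLe_mono (hgtT_spec s.1 j) e1, s.2.1,
          h.mono K io k k _ _ _ le_rfl (hone s.1) e1 s.2.2⟩
      have hinj : Set.InjOn Subtype.val
          {s : {s : X → K // (fun j => io (s j)) ∈ InnerM U k ∧
            P K io k (hgtT s : ℝ) (fun j => io (s j))} | ((hgtT s.1 : ℕ) : ℝ) ≤ Y} :=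
        Subtype.val_injective.injOn
      by_cases h1 : T₁ ≤ Y
      · obtain ⟨h2, h3⟩ := hc Y h1
        refine ⟨h2.of_injOn (hmaps Y le_rfl) hinj, ?_⟩
        have h4 := Set.ncard_le_ncard_of_injOn _ (hmaps Y le_rfl) hinj h2
        have h5 := le_trans (Nat.cast_le (α := ℝ).2 h4) h3
        refine h5.trans (mul_le_mul_of_nonneg_right (by linarith) (by linarith))
      · push Not at h1
        refine ⟨hf2.of_injOn (hmaps T₁ h1.le) hinj, ?_⟩
        have h4 := Set.ncard_le_ncard_of_injOn _ (hmaps T₁ h1.le) hinj hf2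
        have h5 := Nat.cast_le (α := ℝ).2 h4
        refine h5.trans ?_
        calc ((N T₁).ncard : ℝ) ≤ C₁ + ((N T₁).ncard : ℝ) := by linarith
          _ = (C₁ + ((N T₁).ncard : ℝ)) * 1 := (mul_one _).symm
          _ ≤ _ := mul_le_mul_of_nonneg_left hY1 (by linarith)
    exact (Pool.Agent.R909.RS.single (P := μ)
      (nm := fun s : X → K => (hgtT s : ℝ)) (A := A) (γ := γ) (C := C) (fun x _ => hA x)
      (Q := fun s => (fun j => io (s j)) ∈ InnerM U k ∧ P K io k (hgtT s : ℝ) (fun j => io (s j)))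
      (H := fun s => ((hgtT s : ℕ) : ℝ))
      (fun z _ => hone z) (u := fun z => z) (K := 1) one_pos
      (fun z _ => by rw [one_mul]) (by linarith) (p := g + (γ - g) / 2) (η := (γ - g) / 2)
      (by linarith) (by linarith) hsum).1
  have hall : ∀ᵐ ω ∂μ, ∀ k : ℕ, 0 < k → Module.finrank ℚ K ≤ k →
      {s : X → K | ((fun j => io (s j)) ∈ InnerM U k ∧ P K io k (hgtT s : ℝ) (fun j => io (s j))) ∧
        s ∈ A ω}.Finite := by
    rw [ae_all_iff]
    intro k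
    by_cases hk : 0 < k ∧ Module.finrank ℚ K ≤ k
    · filter_upwards [key k hk.1 hk.2] with ω h2 _ _
      exact h2
    · exact Eventually.of_forall fun ω h1 h2 => absurd ⟨h1, h2⟩ hk
  filter_upwards [hall] with ω hω k S hS hSU
  obtain ⟨k₀, hk₀⟩ := compact_inner h.isOpen hS hSU
  obtain ⟨k', hk'⟩ : ∃ k' : ℕ, k' = max (max k₀ k) (max (Module.finrank ℚ K) 1) := ⟨_, rfl⟩
  have e1 : k₀ ≤ k' := by omega
  have e2 : k ≤ k' := by omega
  have e3 : Module.finrank ℚ K ≤ k' := by omega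
  have e4 : 0 < k' := by omega
  refine (hω k' e4 e3).subset ?_
  rintro s ⟨h1, h2, h3⟩
  exact ⟨⟨hk₀ k' e1 h2, h.mono K _ k k' _ _ _ e2 (hone s) le_rfl h3⟩, h1⟩

end Pool.Agent.N603.DB
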