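import Pool.Agent.N603.DB.Rx
import Pool.Agent.N603.DB.Gen

set_option autoImplicit false

/-!
Values of locally independent analytic functions at all elements of number fields near a given complex number, with
the own height.
-/

open NumberField

namespace Pool.Agent.N603.DB

open Pool.Agent.R437.Met Pool.Agent.R437.Met.Hs Pool.Agent.R349.Gen
open Pool.Agent.N603.DA (ht)

/-- the real points of a set of dimension zero -/
theorem dim_real {E : Set ℂ} (hE : dimH E = 0) : dimH {y : ℝ | (y : ℂ) ∈ E} = 0 := by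
  have hiso : Isometry (fun y : ℝ => (y : ℂ)) := Complex.isometry_ofReal
  refine le_antisymm ?_ bot_le
  rw [← hiso.dimH_image]
  refine (dimH_mono ?_).trans hE.le
  rintro _ ⟨y, hy, rfl⟩
  exact hy

/-- finitely many elements of bounded height -/
theorem fin_lt (F : Type) [Field F] [NumberField F] (T : ℝ) : {x : F | ht F x < T}.Finite := by
  refine (pt_finite F T).subset fun x hx => ?_
  exact (N603.DA.ht_le_iff F x T).1 (le_of_lt hx)

/-- one number field, one exponent -/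
theorem near_one (F : Type) [Field F] [NumberField F] (ι : F →+* ℂ) {κ' : Type} [Fintype κ']
    [DecidableEq κ'] (f : κ' → ℂ → ℂ) (S : Set ℂ) (hS : IsOpen S)
    (han : ∀ y, ∀ t ∈ S, AnalyticAt ℂ (f y) t) (hind : ∀ t ∈ S, Pool.Agent.Y124.LocInd f t)
    (c : ℕ → ℂ) {τ : ℝ} (hτ : 0 < τ) :
    ∃ E : Set ℂ, dimH E = 0 ∧ ∀ ξ ∈ S, ξ ∉ E → ∀ (g d : ℕ) (A : ℝ), ∃ B : ℝ, ∀ C : ℝ, ∃ T₁ : ℝ, ∀ x : F,
      T₁ ≤ ht F x → ‖ξ - ι x‖ ≤ C * ht F x ^ (-τ) → ι x ∈ S ∧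
        GoodG F ι (fun i : Fin g => c i) d (ht F x ^ A) (ht F x ^ (-B)) (fun k : κ' => f k (ι x)) := by
  classical
  have : LocallyCompactSpace S := hS.locallyCompactSpace
  set K := CompactExhaustion.choice S with hK
  have hKc : ∀ n, IsCompact ((fun x : S => (x : ℂ)) '' K n) := fun n =>
    (K.isCompact n).image continuous_subtype_val
  have hKS : ∀ n, ((fun x : S => (x : ℂ)) '' K n) ⊆ S := by
    rintro n _ ⟨x, _, rfl⟩
    exact x.2
  have h1 : ∀ p : ℕ × ℕ × ℕ, ∃ E : Set ℂ, dimH E ≤ ENNReal.ofReal (0 / τ) ∧ ∀ ξ ∉ E, ∀ A : ℝ, ∃ B : ℝ, ∀ C : ℝ,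
      ∃ T₁ : ℝ, ∀ T : ℝ, T₁ ≤ T → ∀ x ∈ {x : Fin 1 → F | (ι (x 0) ∈ ((fun x : S => (x : ℂ)) '' K p.2.2) ∧
        ¬ GoodG F ι (fun i : Fin p.1 => c i) p.2.1 (ht F (x 0) ^ (max A 0))
        (ht F (x 0) ^ (-B)) (fun z : Fin 1 × κ' => f z.2 (ι (x z.1)))) ∧ ht F (x 0) ≤ T},
          C * T ^ (-τ) < dist ξ (ι (x 0)) := by
    rintro ⟨g, d, n⟩
    refine Fam.fam (fun x : Fin 1 → F => ι (x 0))
      (fun A B T => {x : Fin 1 → F | (ι (x 0) ∈ ((fun x : S => (x : ℂ)) '' K n) ∧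
        ¬ GoodG F ι (fun i : Fin g => c i) d (ht F (x 0) ^ (max A 0))
        (ht F (x 0) ^ (-B)) (fun z : Fin 1 × κ' => f z.2 (ι (x z.1)))) ∧ ht F (x 0) ≤ T}) le_rfl hτ
      ⟨fun A ε hA hε => ?_, ?_, ?_, ?_⟩
    · obtain ⟨B, C, h⟩ := N603.DA.bad_count F ι f c g d (max A 0) (le_max_right _ _)
        ((fun x : S => (x : ℂ)) '' K n) (hKc n) (fun y t ht => han y t (hKS n ht))
        (fun t ht => hind t (hKS n ht)) ε hε
      refine ⟨B, C, 1, fun T hT => ?_⟩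
      rw [zero_add]
      exact h T hT
    · rintro A A' B T hA - x ⟨⟨h1, h2⟩, h3⟩
      refine ⟨⟨h1, fun hg => h2 (GG.good_mono ?_ le_rfl hg)⟩, h3⟩
      exact Real.rpow_le_rpow_of_exponent_le (N603.DA.one_le_ht F (x 0)) (max_le_max hA le_rfl)
    · rintro A B B' T hB - x ⟨⟨h1, h2⟩, h3⟩
      refine ⟨⟨h1, fun hg => h2 (GG.good_mono le_rfl ?_ hg)⟩, h3⟩
      exact Fam.pow_mono (neg_le_neg hB) (N603.DA.one_le_ht F (x 0))
    · rintro A B T T' - - - - hT - x ⟨⟨h1, h2⟩, h3⟩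
      refine ⟨⟨h1, fun hg => h2 (GG.good_mono le_rfl ?_ hg)⟩, h3.trans hT⟩
      exact Fam.pow_mono (neg_le_neg (by linarith)) (N603.DA.one_le_ht F (x 0))
  choose E hE hE2 using h1
  refine ⟨⋃ p, E p, ?_, fun ξ hξ hξE g d A => ?_⟩
  · refine le_antisymm ?_ bot_le
    rw [dimH_iUnion]
    refine iSup_le fun p => (hE p).trans ?_
    simp
  · obtain ⟨r, hr, hrS⟩ := Metric.isOpen_iff.1 hS ξ hξ
    have hbS : Metric.closedBall ξ (r / 2) ⊆ S :=
      (Metric.closedBall_subset_ball (by linarith)).trans hrS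
    have hL' : IsCompact ((fun x : S => (x : ℂ)) ⁻¹' (Metric.closedBall ξ (r / 2))) := by
      rw [Subtype.isCompact_iff, Subtype.image_preimage_coe]
      rw [Set.inter_eq_right.2 hbS]
      exact isCompact_closedBall _ _
    obtain ⟨n, hn⟩ := K.exists_superset_of_isCompact hL'
    obtain ⟨B, hB⟩ := hE2 (g, d, n) ξ (fun h => hξE (Set.mem_iUnion.2 ⟨_, h⟩)) A
    refine ⟨B, fun C => ?_⟩
    obtain ⟨T₁, hT₁⟩ := hB |C|
    obtain ⟨T₂, hT₂⟩ := Near.small (C := |C|) hτ (by positivity : (0 : ℝ) < r / 2)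
    refine ⟨max T₁ T₂, fun x hx hd => ?_⟩
    have hx1 : 1 ≤ ht F x := N603.DA.one_le_ht F x
    have hd' : dist ξ (ι x) ≤ |C| * ht F x ^ (-τ) := by
      rw [dist_eq_norm]
      exact hd.trans (mul_le_mul_of_nonneg_right (le_abs_self C) (by positivity))
    have hd2 : dist ξ (ι x) < r / 2 := hd'.trans_lt (hT₂ _ ((le_max_right _ _).trans hx))
    have hxS : ι x ∈ S := by
      apply hrS
      rw [Metric.mem_ball, dist_comm]
      linarith
    refine ⟨hxS, ?_⟩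
    by_contra hcon
    have h3 := hT₁ (ht F x) ((le_max_left _ _).trans hx) (fun _ => x) ⟨⟨?_, fun hg => hcon ?_⟩, le_rfl⟩
    · exact absurd h3 (not_lt.2 hd')
    · refine ⟨⟨ι x, hxS⟩, hn ?_, rfl⟩
      show ι x ∈ Metric.closedBall ξ (r / 2)
      rw [Metric.mem_closedBall, dist_comm]
      exact hd2.le
    · have h4 := good_reindex (F := F) (ι := ι) (tagEquiv κ') hg
      refine GG.good_mono ?_ le_rfl h4
      exact Real.rpow_le_rpow_of_exponent_le hx1 (le_max_left _ _)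

/-- **near every point**: all number fields, all exponents -/
theorem near_every {κ' : Type} [Fintype κ'] [DecidableEq κ'] (f : κ' → ℂ → ℂ) (S : Set ℂ) (hS : IsOpen S)
    (han : ∀ y, ∀ t ∈ S, AnalyticAt ℂ (f y) t) (hind : ∀ t ∈ S, Pool.Agent.Y124.LocInd f t)
    (c : ℕ → ℂ) :
    ∃ E : Set ℂ, dimH E = 0 ∧ ∀ ξ ∈ S, ξ ∉ E → ∀ (F : IntermediateField ℚ ℂ) [NumberField F] (g d : ℕ) (A τ : ℝ),
      0 < τ → ∃ B : ℝ, ∀ C : ℝ, ∃ T₁ : ℝ, ∀ x : F, T₁ ≤ ht F x → ‖ξ - (x : ℂ)‖ ≤ C * ht F x ^ (-τ) → (x : ℂ) ∈ S ∧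
        GoodG F (algebraMap F ℂ) (fun i : Fin g => c i) d (ht F x ^ A) (ht F x ^ (-B))
          (fun k : κ' => f k (x : ℂ)) := by
  classical
  have hcount := N603.DA.countable_fields
  have key : ∀ p : {F : IntermediateField ℚ ℂ // FiniteDimensional ℚ F} × ℕ,
      ∃ E : Set ℂ, dimH E = 0 ∧ ∀ ξ ∈ S, ξ ∉ E → ∀ [NumberField p.1.1] (g d : ℕ) (A : ℝ), ∃ B : ℝ, ∀ C : ℝ,
        ∃ T₁ : ℝ, ∀ x : p.1.1, T₁ ≤ ht p.1.1 x → ‖ξ - (x : ℂ)‖ ≤ C * ht p.1.1 x ^ (-(1 / ((p.2 : ℝ) + 1))) →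
          (x : ℂ) ∈ S ∧ GoodG p.1.1 (algebraMap p.1.1 ℂ) (fun i : Fin g => c i) d (ht p.1.1 x ^ A)
            (ht p.1.1 x ^ (-B)) (fun k : κ' => f k (x : ℂ)) := by
    rintro ⟨⟨F, hF⟩, i⟩
    have : NumberField F := { to_charZero := inferInstance, to_finiteDimensional := hF }
    obtain ⟨E, hE, h⟩ := near_one F (algebraMap F ℂ) f S hS han hind c
      (τ := 1 / ((i : ℝ) + 1)) (by positivity)
    exact ⟨E, hE, fun ξ hξ hξE _ => h ξ hξ hξE⟩
  choose E hE hE2 using key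
  refine ⟨⋃ p, E p, ?_, fun ξ hξ hξE F hF g d A τ hτ => ?_⟩
  · refine le_antisymm ?_ bot_le
    rw [dimH_iUnion]
    exact iSup_le fun p => (hE p).le
  · obtain ⟨i, hi⟩ := exists_nat_one_div_lt hτ
    obtain ⟨B, hB⟩ := hE2 (⟨F, hF.to_finiteDimensional⟩, i) ξ hξ (fun h => hξE (Set.mem_iUnion.2 ⟨_, h⟩)) g d A
    refine ⟨B, fun C => ?_⟩
    obtain ⟨T₁, hT₁⟩ := hB |C|
    refine ⟨T₁, fun x hx hd => hT₁ x hx (hd.trans ?_)⟩
    exact mul_le_mul (le_abs_self C) (Fam.pow_mono (neg_le_neg hi.le) (N603.DA.one_le_ht F x))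
      (Real.rpow_nonneg (by linarith [N603.DA.one_le_ht F x]) _) (abs_nonneg C)

end Pool.Agent.N603.DB
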