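import Pool.Agent.R349.GamFam
import Pool.Agent.N603.DB.Nr

set_option autoImplicit false

/-!
The functions `Γ(1 + j t)`, `1 ≤ j ≤ n`, are algebraically independent over `ℂ(t)` near every point of a half-plane, and good
values remain good if they are multiplied by rational numbers of small height.
-/

open Topology MvPolynomial NumberField

namespace Pool.Agent.N603.DB.Gq

open Pool.Agent.Y124 (LocInd)
open Pool.Agent.R349 (gf Om RR LL)
open Pool.Agent.R349.Gen (GoodG AdmG)

/-- local independence of the functions of `GamFam` at all points of the domain -/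
theorem gf_loc {κ : Type} [Fintype κ] [DecidableEq κ] {b D : κ → ℕ} {c : κ → ℤ} (hD : ∀ j, 0 < D j) (hb : ∀ j, 0 < b j)
    (hc : ∀ j, 0 ≤ c j) (hinj : ∀ i j, i ≠ j → b i * D j ≠ b j * D i) (s : ℤ) (hs : ∀ j, (D j : ℤ) ∣ c j + b j * s)
    (t0 : ℂ) (h0 : t0 ∈ Om b D) : LocInd (gf b D c) t0 := by
  refine Pool.Agent.Y771.RP.locInd_of (gf b D c) (Om b D) Pool.Agent.R349.Om_convex.isPreconnected
    (fun j t ht => Pool.Agent.R349.gf_an hD hc j t ht) ?_ t0 h0
  intro P hP
  have h1 := Pool.Agent.R349.shift_ind (gf b D c) (Om b D)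
    (infinite_of_mem_nhds 0 (Pool.Agent.R349.Om_isOpen.mem_nhds (Pool.Agent.R349.zero_mem_Om hD))) (LL D : ℂ)
    (fun t ht => Pool.Agent.R349.Om_shift t ht) (fun j t ht => Pool.Agent.R349.gf_ne_zero hD hc j t ht) (RR b D c)
    (Pool.Agent.R349.RR_ne_zero hD hb)
    (fun j t ht => Pool.Agent.R349.gf_shift hD hc j t ht)
    (fun e e' hee => Pool.Agent.R349.cls_cond hD hb hinj s hs e e' hee)
    (MvPolynomial.optionEquivRight ℂ κ P) (fun t ht => by
      rw [← Pool.Agent.Y549.GM.eval_option]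
      exact hP t ht)
  exact (map_eq_zero_iff _ (MvPolynomial.optionEquivRight ℂ κ).injective).1 h1

/-- the functions `Γ(1 + (j + 1) t)` -/
noncomputable def ga (n : ℕ) (j : Fin n) (t : ℂ) : ℂ := Complex.Gamma (1 + ((j : ℕ) + 1 : ℕ) * t)

/-- the domain -/
def So (n : ℕ) : Set ℂ := Om (fun j : Fin n => (j : ℕ) + 1) (fun _ => 1)

theorem ga_eq (n : ℕ) : gf (fun j : Fin n => (j : ℕ) + 1) (fun _ => 1) (fun _ => 0) = ga n := by
  funext j t
  simp [gf, ga]

theorem So_open (n : ℕ) : IsOpen (So n) := Pool.Agent.R349.Om_isOpen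

theorem ga_an (n : ℕ) (j : Fin n) : ∀ t ∈ So n, AnalyticAt ℂ (ga n j) t := by
  intro t ht
  rw [← ga_eq]
  exact Pool.Agent.R349.gf_an (fun _ => one_pos) (fun _ => le_rfl) j t ht

theorem ga_loc (n : ℕ) : ∀ t ∈ So n, LocInd (ga n) t := by
  intro t ht
  rw [← ga_eq]
  refine gf_loc (fun _ => one_pos) (fun _ => Nat.succ_pos _) (fun _ => le_rfl) (fun i j hij h => hij ?_) 0
    (fun j => by simp) t ht
  apply Fin.ext
  simp only [mul_one] at h
  omega

theorem real_mem (n : ℕ) {x : ℝ} (hx : 0 ≤ x) : (x : ℂ) ∈ So n := by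
  intro j
  simp only [Nat.cast_one, Complex.ofReal_re]
  positivity

section scale

variable {σ R : Type} [CommSemiring R]

/-- multiply the coefficients by natural numbers -/
noncomputable def sca (φ : (σ →₀ ℕ) → ℕ) (P : MvPolynomial σ R) : MvPolynomial σ R :=
  ∑ s ∈ P.support, monomial s ((φ s : R) * P.coeff s)

theorem sca_coeff (φ : (σ →₀ ℕ) → ℕ) (P : MvPolynomial σ R) (s : σ →₀ ℕ) :
    (sca φ P).coeff s = φ s * P.coeff s := by
  classical
  rw [sca, coeff_sum]
  simp only [coeff_monomial]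
  rw [Finset.sum_ite_eq']
  split_ifs with h
  · rfl
  · rw [notMem_support_iff.1 h, mul_zero]

theorem sca_degreeOf (φ : (σ →₀ ℕ) → ℕ) (P : MvPolynomial σ R) {j : σ} {d : ℕ} (h : P.degreeOf j ≤ d) :
    (sca φ P).degreeOf j ≤ d := by
  rw [degreeOf_le_iff] at h ⊢
  intro s hs
  apply h
  rw [mem_support_iff] at hs ⊢
  rw [sca_coeff] at hs
  exact right_ne_zero_of_mul hs

theorem sca_eval {S : Type} [CommRing S] [Fintype σ] (φ : (σ →₀ ℕ) → ℕ) (P : MvPolynomial σ R) (f : R →+* S)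
    (v w : σ → S) (K : S) (h : ∀ s ∈ P.support, (φ s : S) * ∏ j, v j ^ s j = K * ∏ j, w j ^ s j) :
    eval₂ f v (sca φ P) = K * eval₂ f w P := by
  rw [sca, eval₂_sum, eval₂_eq', Finset.mul_sum]
  refine Finset.sum_congr rfl fun s hs => ?_
  rw [eval₂_monomial, map_mul, map_natCast, Finsupp.prod_fintype _ _ (by simp)]
  linear_combination (f (P.coeff s)) * h s hs

end scale

/-- the weights -/
def wt {σ : Type} [Fintype σ] (d : ℕ) (M N : σ → ℕ) (s : σ →₀ ℕ) : ℕ := ∏ j, M j ^ s j * N j ^ (d - s j)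

theorem wt_eq {σ : Type} [Fintype σ] {d : ℕ} {M N : σ → ℕ} {v w : σ → ℂ}
    (hvw : ∀ j, (M j : ℂ) * v j = N j * w j) (s : σ →₀ ℕ) (hs : ∀ j, s j ≤ d) :
    (wt d M N s : ℂ) * ∏ j, v j ^ s j = (∏ j, (N j : ℂ) ^ d) * ∏ j, w j ^ s j := by
  unfold wt
  push_cast
  rw [← Finset.prod_mul_distrib, ← Finset.prod_mul_distrib]
  refine Finset.prod_congr rfl fun j _ => ?_
  have h1 : (N j : ℂ) ^ d = (N j : ℂ) ^ (s j) * (N j : ℂ) ^ (d - s j) := by
    rw [← pow_add, Nat.add_sub_cancel' (hs j)]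
  rw [h1]
  have h2 := congrArg (fun z : ℂ => z ^ s j) (hvw j)
  simp only [mul_pow] at h2
  linear_combination (N j : ℂ) ^ (d - s j) * h2

theorem wt_le {σ : Type} [Fintype σ] {d K : ℕ} {M N : σ → ℕ} (hM : ∀ j, M j ≤ K) (hN : ∀ j, N j ≤ K)
    (s : σ →₀ ℕ) (hs : ∀ j, s j ≤ d) : wt d M N s ≤ K ^ (d * Fintype.card σ) := by
  calc wt d M N s ≤ ∏ _j : σ, K ^ d := by
        refine Finset.prod_le_prod' fun j _ => ?_
        calc M j ^ s j * N j ^ (d - s j) ≤ K ^ s j * K ^ (d - s j) :=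
              Nat.mul_le_mul (Nat.pow_le_pow_left (hM j) _) (Nat.pow_le_pow_left (hN j) _)
          _ = K ^ d := by rw [← pow_add, Nat.add_sub_cancel' (hs j)]
    _ = K ^ (d * Fintype.card σ) := by
        rw [Finset.prod_const, Finset.card_univ, ← pow_mul]

theorem wt_pos {σ : Type} [Fintype σ] {d : ℕ} {M N : σ → ℕ} (hM : ∀ j, 1 ≤ M j) (hN : ∀ j, 1 ≤ N j)
    (s : σ →₀ ℕ) : 1 ≤ wt d M N s :=
  Nat.succ_le_of_lt (Finset.prod_pos fun j _ => Nat.mul_pos (pow_pos (hM j) _) (pow_pos (hN j) _))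

theorem le_of_mem' {σ R : Type} [CommSemiring R] (P : MvPolynomial σ R) {d : ℕ} (hP : ∀ j, P.degreeOf j ≤ d) {s : σ →₀ ℕ}
    (hs : s ∈ P.support) (j : σ) : s j ≤ d :=
  (monomial_le_degreeOf j hs).trans (hP j)

/-- good numbers remain good when they are multiplied by rational numbers of small height -/
theorem good_scale {σ : Type} [Fintype σ] {g : ℕ} {F : Type} [Field F] [NumberField F] {ι : F →+* ℂ}
    {ξ : Fin g → ℂ} {d : ℕ} {H δ : ℝ} {v w : σ → ℂ} (M N : σ → ℕ) (K : ℕ) (hM : ∀ j, 1 ≤ M j) (hN : ∀ j, 1 ≤ N j)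
    (hMK : ∀ j, M j ≤ K) (hNK : ∀ j, N j ≤ K) (hK : 1 ≤ K) (hH : 0 ≤ H) (hδ : 0 ≤ δ)
    (hvw : ∀ j, (M j : ℂ) * v j = N j * w j)
    (h : GoodG F ι ξ d (H * (K : ℝ) ^ (d * (Fintype.card σ + 1))) δ v) :
    GoodG F ι ξ d H (δ / (K : ℝ) ^ (d * (Fintype.card σ + 1))) w := by
  classical
  have hK1 : (1 : ℝ) ≤ K := by exact_mod_cast hK
  have hKp : (0 : ℝ) < (K : ℝ) ^ (d * (Fintype.card σ + 1)) := by positivity
  have hKK : (K : ℝ) ^ (d * Fintype.card σ) ≤ (K : ℝ) ^ (d * (Fintype.card σ + 1)) :=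
    pow_le_pow_right₀ hK1 (Nat.mul_le_mul_left _ (Nat.le_succ _))
  refine ⟨?_, ?_⟩
  · rintro P ⟨hP1, hP2⟩ s
    by_cases hs : s ∈ P.support
    swap
    · rw [notMem_support_iff.1 hs, norm_zero, mul_zero]
      exact norm_nonneg _
    have h1 := h.1 (sca (wt d M N) P) ⟨fun j => sca_degreeOf _ P (hP1 j), fun s' => ?_⟩ s
    · rw [sca_coeff] at h1
      have h2 : aeval v (sca (wt d M N) P) = (∏ j, (N j : ℂ) ^ d) * aeval w P := by
        rw [aeval_def, aeval_def]
        exact sca_eval _ P _ v w _ fun s' hs' => wt_eq hvw s' fun j => le_of_mem' P hP1 hs' j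
      rw [h2, norm_mul, norm_mul, Complex.norm_natCast] at h1
      have h3 : (1 : ℝ) ≤ (wt d M N s : ℝ) := by exact_mod_cast wt_pos hM hN s
      have h4 : ‖∏ j, (N j : ℂ) ^ d‖ ≤ (K : ℝ) ^ (d * (Fintype.card σ + 1)) := by
        rw [norm_prod]
        refine le_trans ?_ hKK
        calc ∏ j, ‖(N j : ℂ) ^ d‖ ≤ ∏ _j : σ, (K : ℝ) ^ d := by
              refine Finset.prod_le_prod (fun _ _ => norm_nonneg _) fun j _ => ?_
              rw [norm_pow, Complex.norm_natCast]
              exact pow_le_pow_left₀ (Nat.cast_nonneg _) (by exact_mod_cast hNK j) _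
          _ = (K : ℝ) ^ (d * Fintype.card σ) := by
              rw [Finset.prod_const, Finset.card_univ, ← pow_mul]
      rw [div_mul_eq_mul_div, div_le_iff₀ hKp]
      calc δ * ‖P.coeff s‖ ≤ δ * ((wt d M N s : ℝ) * ‖P.coeff s‖) :=
            mul_le_mul_of_nonneg_left (le_mul_of_one_le_left (norm_nonneg _) h3) hδ
        _ ≤ ‖∏ j, (N j : ℂ) ^ d‖ * ‖aeval w P‖ := h1
        _ ≤ (K : ℝ) ^ (d * (Fintype.card σ + 1)) * ‖aeval w P‖ := mul_le_mul_of_nonneg_right h4 (norm_nonneg _)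
        _ = ‖aeval w P‖ * (K : ℝ) ^ (d * (Fintype.card σ + 1)) := mul_comm _ _
    · obtain ⟨c, hc1, hc2⟩ := hP2 s'
      by_cases hs' : s' ∈ P.support
      · refine ⟨fun i => (wt d M N s' : 𝓞 F) * c i, fun i φ => ?_, ?_⟩
        · have e1 : (((wt d M N s' : 𝓞 F) * c i : 𝓞 F) : F) = ((wt d M N s' : ℕ) : F) * (c i : F) := by
            push_cast
            rfl
          rw [e1, map_mul, map_natCast, norm_mul, Complex.norm_natCast, mul_comm]
          refine mul_le_mul (hc1 i φ) ?_ (Nat.cast_nonneg _) hH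
          refine le_trans ?_ hKK
          exact_mod_cast wt_le hMK hNK s' fun j => le_of_mem' P hP1 hs' j
        · rw [sca_coeff, hc2, Finset.mul_sum]
          refine Finset.sum_congr rfl fun i _ => ?_
          have e1 : (((wt d M N s' : 𝓞 F) * c i : 𝓞 F) : F) = ((wt d M N s' : ℕ) : F) * (c i : F) := by
            push_cast
            rfl
          rw [e1, map_mul, map_natCast]
          ring
      · refine ⟨fun _ => 0, fun i φ => ?_, ?_⟩
        · simp only [map_zero, norm_zero]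
          positivity
        · rw [sca_coeff, notMem_support_iff.1 hs', mul_zero]
          simp
  · intro Q hQ0 hQd hQc h0
    set M' : Option σ → ℕ := fun o => o.elim 1 M with hM'
    set N' : Option σ → ℕ := fun o => o.elim 1 N with hN'
    have hM1 : ∀ o, 1 ≤ M' o := by
      rintro (_ | j)
      · exact le_rfl
      · exact hM j
    have hN1 : ∀ o, 1 ≤ N' o := by
      rintro (_ | j)
      · exact le_rfl
      · exact hN j
    have hMK' : ∀ o, M' o ≤ K := by
      rintro (_ | j)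
      · exact hK
      · exact hMK j
    have hNK' : ∀ o, N' o ≤ K := by
      rintro (_ | j)
      · exact hK
      · exact hNK j
    have hvw' : ∀ o : Option σ, (M' o : ℂ) * (o.elim (Real.pi : ℂ) v) = N' o * (o.elim (Real.pi : ℂ) w) := by
      rintro (_ | j)
      · rfl
      · exact hvw j
    refine h.2 (sca (wt d M' N') Q) ?_ (fun x => sca_degreeOf _ Q (hQd x)) ?_ ?_
    · obtain ⟨s, hs⟩ := ne_zero_iff.1 hQ0
      refine ne_zero_iff.2 ⟨s, ?_⟩
      rw [sca_coeff]
      refine mul_ne_zero ?_ hs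
      have := wt_pos (d := d) hM1 hN1 s
      exact_mod_cast (by omega : wt d M' N' s ≠ 0)
    · intro s φ
      by_cases hs : s ∈ Q.support
      · rw [sca_coeff]
        have e1 : (((wt d M' N' s : 𝓞 F) * Q.coeff s : 𝓞 F) : F) = ((wt d M' N' s : ℕ) : F) *
            ((Q.coeff s : 𝓞 F) : F) := by
          push_cast
          rfl
        rw [e1, map_mul, map_natCast, norm_mul, Complex.norm_natCast, mul_comm]
        refine mul_le_mul (hQc s φ) ?_ (Nat.cast_nonneg _) hH
        have h3 := wt_le hMK' hNK' s fun o => le_of_mem' Q hQd hs o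
        rw [Fintype.card_option] at h3
        exact_mod_cast h3
      · rw [sca_coeff, notMem_support_iff.1 hs, mul_zero]
        simp only [map_zero, norm_zero]
        positivity
    · rw [sca_eval _ Q _ (fun o => o.elim (Real.pi : ℂ) v) (fun o => o.elim (Real.pi : ℂ) w) _ fun s' hs' =>
        wt_eq hvw' s' fun o => le_of_mem' Q hQd hs' o, h0, mul_zero]

/-- the relation between `Γ(1 + j a / q)` and `Γ({j a / q})` -/
theorem gam_res (n a q : ℕ) (hq : 0 < q) (haq : a < q) (j : ℕ) (hj : j ≤ n) (hr : 0 < (j * a) % q) (hnq : n ≤ q) :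
    ∃ M N : ℕ, 1 ≤ M ∧ 1 ≤ N ∧ M ≤ q ^ (2 * (n + 1)) ∧ N ≤ q ^ (2 * (n + 1)) ∧
      (M : ℂ) * Complex.Gamma (1 + (j : ℂ) * ((a : ℂ) / q)) = N * Complex.Gamma ((((j * a) % q : ℕ) : ℂ) / q) := by
  set r : ℕ := (j * a) % q with hr'
  set m : ℕ := (j * a) / q with hm
  have hdiv : q * m + r = j * a := Nat.div_add_mod (j * a) q
  have hqC : (q : ℂ) ≠ 0 := by exact_mod_cast hq.ne'
  have hja : j * a ≤ n * q := Nat.mul_le_mul hj haq.le
  have hmn : m ≤ n := by
    have h1 : q * m ≤ q * n := by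
      rw [mul_comm q n]
      omega
    exact Nat.le_of_mul_le_mul_left h1 hq
  refine ⟨q ^ (m + 1), ∏ k ∈ Finset.range (m + 1), (r + k * q), Nat.one_le_pow _ _ hq, ?_, ?_, ?_, ?_⟩
  · exact Nat.succ_le_of_lt (Finset.prod_pos fun k _ => by omega)
  · exact Nat.pow_le_pow_right hq (by omega)
  · calc ∏ k ∈ Finset.range (m + 1), (r + k * q) ≤ ∏ _k ∈ Finset.range (m + 1), q ^ 2 := by
          refine Finset.prod_le_prod' fun k hk => ?_
          rw [Finset.mem_range] at hk
          have h1 : k * q ≤ q * m := by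
            rw [mul_comm]
            exact Nat.mul_le_mul_left _ (by omega)
          have h2 : n * q ≤ q ^ 2 := by
            rw [pow_two]
            exact Nat.mul_le_mul_right _ hnq
          omega
      _ = q ^ (2 * (m + 1)) := by
          rw [Finset.prod_const, Finset.card_range, ← pow_mul]
      _ ≤ q ^ (2 * (n + 1)) := Nat.pow_le_pow_right hq (by omega)
  · have e1 : 1 + (j : ℂ) * ((a : ℂ) / q) = (r : ℂ) / q + ((m + 1 : ℕ) : ℂ) := by
      have e2 : (q : ℂ) * m + r = j * a := by exact_mod_cast hdiv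
      push_cast
      field_simp
      linear_combination -e2
    rw [e1, Pool.Agent.R349.gamma_add_nat _ (by
      rw [← Complex.ofReal_natCast, ← Complex.ofReal_natCast q, ← Complex.ofReal_div, Complex.ofReal_re]
      have h1 : (0 : ℝ) < r := by exact_mod_cast hr
      have h2 : (0 : ℝ) < q := by exact_mod_cast hq
      positivity)]
    have e3 : ((∏ k ∈ Finset.range (m + 1), (r + k * q) : ℕ) : ℂ) =
        (q : ℂ) ^ (m + 1) * ∏ k ∈ Finset.range (m + 1), ((r : ℂ) / q + k) := by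
      push_cast
      rw [← Finset.card_range (m + 1), ← Finset.prod_const, Finset.card_range, ← Finset.prod_mul_distrib]
      refine Finset.prod_congr rfl fun k _ => ?_
      field_simp
    rw [e3]
    push_cast
    ring

end Pool.Agent.N603.DB.Gq
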