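import Pool.Agent.N603.DB.Pg
import Pool.Agent.R352.E.Gam

set_option autoImplicit false

/-!
The derivatives of the digamma function as Hurwitz zeta series, and the algebraic independence of these series near every
point of the right half-plane.
-/

open Topology Filter Complex

namespace Pool.Agent.N603.DB.Hz

open Pool.Agent.Y124 (LocInd)

/-- the Hurwitz zeta series `∑ 1 / (s + n)^k`, `n ≥ 0` -/
noncomputable def hz (k : ℕ) (s : ℂ) : ℂ := ∑' n : ℕ, 1 / (s + n) ^ k

theorem ne0 {s : ℂ} (hs : 0 < s.re) (n : ℕ) : s + (n : ℂ) ≠ 0 := by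
  intro h
  have := congrArg re h
  simp only [add_re, natCast_re, zero_re] at this
  have hn : (0 : ℝ) ≤ n := Nat.cast_nonneg n
  linarith

theorem nrm {s : ℂ} {δ : ℝ} (hs : δ < s.re) (n : ℕ) : δ + n ≤ ‖s + (n : ℂ)‖ := by
  refine le_trans ?_ (re_le_norm _)
  simp only [add_re, natCast_re]
  linarith

theorem smb {δ : ℝ} (hδ : 0 < δ) {k : ℕ} (hk : 2 ≤ k) : Summable fun n : ℕ => 1 / (δ + n) ^ k := by
  have h1 := (Real.summable_one_div_nat_add_rpow δ k).2 (by exact_mod_cast hk)
  refine h1.congr fun n => ?_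
  rw [Real.rpow_natCast, abs_of_pos (by positivity), add_comm]

theorem hz_sum {k : ℕ} (hk : 2 ≤ k) {s : ℂ} (hs : 0 < s.re) : Summable fun n : ℕ => 1 / (s + (n : ℂ)) ^ k := by
  have hd : 0 < s.re / 2 := by positivity
  refine Summable.of_norm_bounded (smb hd hk) fun n => ?_
  rw [norm_div, norm_one, norm_pow]
  have h1 := nrm (by linarith : s.re / 2 < s.re) n
  exact one_div_le_one_div_of_le (by positivity) (pow_le_pow_left₀ (by positivity) h1 k)

theorem hz_deriv {k : ℕ} (hk : 2 ≤ k) {s : ℂ} (hs : 0 < s.re) :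
    HasDerivAt (hz k) (-(k : ℂ) * hz (k + 1) s) s := by
  have hd : 0 < s.re / 2 := by positivity
  have hop : IsOpen {z : ℂ | s.re / 2 < z.re} := continuous_re.isOpen_preimage _ isOpen_Ioi
  have h1 : HasDerivAt (fun z : ℂ => ∑' n : ℕ, 1 / (z + (n : ℂ)) ^ k)
      (∑' n : ℕ, -(k : ℂ) * (1 / (s + (n : ℂ)) ^ (k + 1))) s := by
    refine hasDerivAt_tsum_of_isPreconnected (u := fun n : ℕ => (k : ℝ) * (1 / (s.re / 2 + n) ^ (k + 1)))
      ((smb hd (by omega)).mul_left _) hop (convex_halfSpace_re_gt _).isPreconnected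
      (g := fun (n : ℕ) z => 1 / (z + (n : ℂ)) ^ k)
      (g' := fun (n : ℕ) z => -(k : ℂ) * (1 / (z + (n : ℂ)) ^ (k + 1))) ?_ ?_
      (y₀ := s) (by show s.re / 2 < s.re; linarith) (hz_sum hk hs) (by show s.re / 2 < s.re; linarith)
    · intro n y hy
      have hy' : s.re / 2 < y.re := hy
      have hy0 := ne0 (by linarith : 0 < y.re) n
      have h2 : HasDerivAt (fun z : ℂ => z + (n : ℂ)) 1 y := (hasDerivAt_id y).add_const _
      have h3 := (h2.pow k).inv (pow_ne_zero k hy0)
      refine (h3.congr_deriv ?_).congr_of_eventuallyEq (Eventually.of_forall fun z => ?_)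
      · obtain ⟨j, rfl⟩ : ∃ j, k = j + 1 := ⟨k - 1, by omega⟩
        simp only [Nat.add_sub_cancel, Pi.pow_apply]
        field_simp
        ring
      · simp
    · intro n y hy
      have hy' : s.re / 2 < y.re := hy
      rw [norm_mul, norm_neg, Complex.norm_natCast, norm_div, norm_one, norm_pow]
      have h2 := nrm hy' n
      refine mul_le_mul_of_nonneg_left ?_ (Nat.cast_nonneg k)
      exact one_div_le_one_div_of_le (by positivity) (pow_le_pow_left₀ (by positivity) h2 _)
  rw [tsum_mul_left] at h1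
  exact h1

theorem dig_deriv {s : ℂ} (hs : 0 < s.re) : HasDerivAt Complex.digamma (hz 2 s) s := by
  have h1 := Pool.Agent.R352.E.psi_deriv hs
  have h2 : Pool.Agent.R352.E.psi1 s = hz 2 s := by
    unfold Pool.Agent.R352.E.psi1 hz
    rw [(hz_sum (le_refl 2) hs).tsum_eq_zero_add]
    simp
  rw [h2] at h1
  refine h1.congr_of_eventuallyEq ?_
  have hop : IsOpen {z : ℂ | 0 < z.re} := continuous_re.isOpen_preimage _ isOpen_Ioi
  filter_upwards [hop.mem_nhds hs] with z hz
  rw [digamma_def, Pool.Agent.W45.WP.logDeriv_Gamma_eq hz]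
  rfl

theorem dig_iter (k : ℕ) : ∀ {s : ℂ}, 0 < s.re →
    iteratedDeriv (k + 1) Complex.digamma s = (-1) ^ k * ((k + 1).factorial : ℂ) * hz (k + 2) s := by
  induction k with
  | zero =>
    intro s hs
    rw [iteratedDeriv_succ, iteratedDeriv_zero, (dig_deriv hs).deriv]
    simp
  | succ k ih =>
    intro s hs
    have hop : IsOpen {z : ℂ | 0 < z.re} := continuous_re.isOpen_preimage _ isOpen_Ioi
    rw [iteratedDeriv_succ]
    have h1 : iteratedDeriv (k + 1) Complex.digamma =ᶠ[𝓝 s]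
        fun z => (-1) ^ k * ((k + 1).factorial : ℂ) * hz (k + 2) z := by
      filter_upwards [hop.mem_nhds hs] with z hz using ih hz
    rw [h1.deriv_eq, ((hz_deriv (by omega : 2 ≤ k + 2) hs).const_mul _).deriv]
    rw [Nat.factorial_succ (k + 1)]
    push_cast
    ring

/-- `hz k = (-1)^k / (k - 1)! ψ^(k-1)` -/
theorem hz_eq (k : ℕ) {s : ℂ} (hs : 0 < s.re) :
    hz (k + 2) s = (-1) ^ k / ((k + 1).factorial : ℂ) * iteratedDeriv (k + 1) Complex.digamma s := by
  rw [dig_iter k hs]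
  have h1 : ((k + 1).factorial : ℂ) ≠ 0 := by exact_mod_cast Nat.factorial_ne_zero _
  have h2 : ((-1 : ℂ) ^ k) * (-1) ^ k = 1 := by rw [← mul_pow]; norm_num
  have h3 : (-1 : ℂ) ^ k / ((k + 1).factorial : ℂ) * ((-1) ^ k * ((k + 1).factorial : ℂ) * hz (k + 2) s) =
      ((-1 : ℂ) ^ k * (-1) ^ k) * hz (k + 2) s := by
    field_simp
  rw [h3, h2, one_mul]

open MvPolynomial in
/-- scaling of the functions -/
theorem scale {κ : Type} {f f' : κ → ℂ → ℂ} {t : ℂ} (h : LocInd f t) (c : κ → ℂ) (hc : ∀ k, c k ≠ 0)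
    (hf : ∀ᶠ z in 𝓝 t, ∀ k, f' k z = c k * f k z) : LocInd f' t := by
  intro P hP
  set φ : MvPolynomial (Option κ) ℂ →ₐ[ℂ] MvPolynomial (Option κ) ℂ := bind₁ fun o => C (o.elim 1 c) * X o with hφ
  have h1 : φ P = 0 := by
    apply h
    filter_upwards [hP, hf] with z hz hz'
    have h4 : ∀ v : Option κ → ℂ, eval v (bind₁ (fun o : Option κ => C (o.elim 1 c) * X o) P) =
        eval (fun o => eval v (C (o.elim 1 c) * X o)) P := fun v =>
      eval₂Hom_bind₁ (RingHom.id ℂ) v (fun o : Option κ => C (o.elim 1 c) * X o) P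
    rw [hφ, h4]
    refine Eq.trans ?_ hz
    congr 2
    funext o
    cases o with
    | none => simp
    | some k => simp [hz' k]
  have h2 : (bind₁ fun o : Option κ => C (o.elim 1 fun k => (c k)⁻¹) * X o) (φ P) = P := by
    rw [hφ, bind₁_bind₁]
    have h3 : (fun o : Option κ => (bind₁ fun o : Option κ => C (o.elim 1 fun k => (c k)⁻¹) * X o)
        (C (o.elim 1 c) * X o)) = X := by
      funext o
      rw [map_mul, bind₁_X_right, algHom_C, ← mul_assoc]
      cases o with
      | none => simp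
      | some k =>
        have : (C (c k) * C (c k)⁻¹ : MvPolynomial (Option κ) ℂ) = 1 := by
          rw [← C_mul, mul_inv_cancel₀ (hc k), C_1]
        simp only [Option.elim_some]
        rw [MvPolynomial.algebraMap_eq, this, one_mul]
    rw [h3, bind₁_X_left]
    rfl
  rw [← h2, h1, map_zero]

/-- `Γ(x)`, `ψ(x)` and the Hurwitz zeta values `ζ(k, x)`, `2 ≤ k ≤ s + 1` -/
noncomputable def fh (s : ℕ) : Option (Fin (s + 1)) → ℂ → ℂ
  | none => Complex.Gamma
  | some k => if (k : ℕ) = 0 then Complex.digamma else hz (k + 1)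

/-- the right half-plane -/
def Hp : Set ℂ := {z | 0 < z.re}

theorem Hp_open : IsOpen Hp := continuous_re.isOpen_preimage _ isOpen_Ioi

theorem Hp_sub {z : ℂ} (hz : z ∈ Hp) : z ∈ Pg.Dm := by
  intro n h
  have h1 : 0 < z.re := hz
  rw [h] at h1
  simp only [neg_re, natCast_re] at h1
  have : (0 : ℝ) ≤ n := Nat.cast_nonneg n
  linarith

/-- the factors -/
noncomputable def cf (s : ℕ) : Option (Fin (s + 1)) → ℂ
  | none => 1
  | some k => if (k : ℕ) = 0 then 1 else (-1) ^ ((k : ℕ) - 1) / (((k : ℕ)).factorial : ℂ)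

theorem cf_ne (s : ℕ) (v : Option (Fin (s + 1))) : cf s v ≠ 0 := by
  cases v with
  | none => exact one_ne_zero
  | some k =>
    show (if (k : ℕ) = 0 then (1 : ℂ) else (-1) ^ ((k : ℕ) - 1) / (((k : ℕ)).factorial : ℂ)) ≠ 0
    split_ifs
    · exact one_ne_zero
    · exact div_ne_zero (pow_ne_zero _ (by norm_num)) (by exact_mod_cast Nat.factorial_ne_zero _)

theorem fh_eq (s : ℕ) (v : Option (Fin (s + 1))) {z : ℂ} (hz : z ∈ Hp) : fh s v z = cf s v * Pg.pg (s + 1) v z := by
  rcases v with _ | ⟨k, hk⟩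
  · show Complex.Gamma z = 1 * Complex.Gamma z
    rw [one_mul]
  · show (if k = 0 then Complex.digamma else Hz.hz (k + 1)) z =
      (if k = 0 then (1 : ℂ) else (-1) ^ (k - 1) / ((k).factorial : ℂ)) * iteratedDeriv k Complex.digamma z
    rcases k with _ | k
    · simp
    · rw [if_neg (by omega), if_neg (by omega), Nat.add_sub_cancel]
      exact hz_eq k hz

theorem fh_an (s : ℕ) (v : Option (Fin (s + 1))) : AnalyticOnNhd ℂ (fh s v) Hp := by
  intro z hz
  have h1 : AnalyticAt ℂ (fun z => cf s v * Pg.pg (s + 1) v z) z :=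
    analyticAt_const.mul (Pg.pg_an (s + 1) v z (Hp_sub hz))
  refine h1.congr ?_
  filter_upwards [Hp_open.mem_nhds hz] with w hw using (fh_eq s v hw).symm

theorem fh_loc (s : ℕ) : ∀ t ∈ Hp, LocInd (fh s) t := by
  intro t ht
  refine scale (Pg.pg_loc (s + 1) t (Hp_sub ht)) (cf s) (cf_ne s) ?_
  filter_upwards [Hp_open.mem_nhds ht] with w hw k using fh_eq s k hw

end Pool.Agent.N603.DB.Hz
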