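import Pool.Agent.X39.Near.Ax

set_option autoImplicit false

/-!
Iterated exponentials are algebraically independent over `ℂ(x)` at every point.
-/

namespace Pool.Agent.N603.DB.ItE

open Pool.Agent.Y776.Fam (IndC)

/-- the iterated exponentials -/
noncomputable def it (k : ℕ) (x : ℂ) : ℂ := Complex.exp^[k] x

theorem it_zero (x : ℂ) : it 0 x = x := rfl

theorem it_succ (k : ℕ) (x : ℂ) : it (k + 1) x = Complex.exp (it k x) := Function.iterate_succ_apply' _ _ _

theorem it_succ' (k : ℕ) (x : ℂ) : it (k + 1) x = it k (Complex.exp x) := Function.iterate_succ_apply _ _ _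

theorem it_an (k : ℕ) (x : ℂ) : AnalyticAt ℂ (it k) x := by
  induction k with
  | zero => exact analyticAt_id
  | succ k ih =>
    have h1 : it (k + 1) = fun x => Complex.exp (it k x) := funext fun x => it_succ k x
    rw [h1]
    exact ih.cexp

theorem it_cont (k : ℕ) : Continuous (it k) := continuous_iff_continuousAt.2 fun x => (it_an k x).continuousAt

theorem indC (n : ℕ) : IndC (Set.univ : Set ℂ) (fun (k : Fin n) z => it k z) := by
  induction n with
  | zero =>
    intro m c _
    exact Subsingleton.elim _ _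
  | succ n ih =>
    intro m c h
    have h0 : ∀ x : ℂ, (m 0 : ℂ) * x + ∑ k : Fin n, (m k.succ : ℂ) * it k (Complex.exp x) = c := by
      intro x
      have h1 := h x (Set.mem_univ _)
      rw [Fin.sum_univ_succ] at h1
      simp only [Fin.val_zero, Fin.val_succ, it_zero, it_succ'] at h1
      exact h1
    have hm0 : m 0 = 0 := by
      have e0 := h0 0
      have e1 := h0 (2 * Real.pi * Complex.I)
      rw [Complex.exp_two_pi_mul_I] at e1
      rw [Complex.exp_zero] at e0
      have e2 : (m 0 : ℂ) * (2 * Real.pi * Complex.I) = 0 := by linear_combination e1 - e0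
      have e3 := (mul_eq_zero.1 e2).resolve_right Complex.two_pi_I_ne_zero
      exact_mod_cast e3
    have h1 : ∀ w : ℂ, w ≠ 0 → ∑ k : Fin n, (m k.succ : ℂ) * it k w = c := by
      intro w hw
      have h2 := h0 (Complex.log w)
      rw [hm0, Complex.exp_log hw] at h2
      simpa using h2
    have h2 : ∀ w : ℂ, ∑ k : Fin n, (m k.succ : ℂ) * it k w = c := by
      have hc1 : Continuous fun w : ℂ => ∑ k : Fin n, (m k.succ : ℂ) * it k w :=
        continuous_finset_sum _ fun k _ => continuous_const.mul (it_cont k)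
      have hd : Dense {w : ℂ | w ≠ 0} := dense_compl_singleton 0
      have := Continuous.ext_on hd hc1 (continuous_const (y := c)) (fun w hw => h1 w hw)
      intro w
      exact congrFun this w
    have h3 := ih (fun k => m k.succ) c (fun w _ => h2 w)
    funext k
    refine Fin.cases hm0 (fun j => ?_) k
    exact congrFun h3 j

/-- the numbers `e^x, e^(e^x), …` -/
noncomputable def val (n : ℕ) (k : Fin n) (x : ℂ) : ℂ := it (k + 1) x

theorem val_an (n : ℕ) (k : Fin n) (x : ℂ) : AnalyticAt ℂ (val n k) x := it_an (k + 1) x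

theorem loc (n : ℕ) (hn : 0 < n) : ∀ t ∈ (Set.univ : Set ℂ), Pool.Agent.Y124.LocInd (val n) t := by
  refine Pool.Agent.X39.Near.loc_exp hn isOpen_univ isPreconnected_univ ⟨0, Set.mem_univ _⟩
    (l := fun (k : Fin n) z => it k z) (fun k z _ => it_an k z) (indC n) (fun k z _ => val_an n k z)
    (by rw [Fintype.card_fin]) (G := ∅) Set.countable_empty (fun F hF z _ k => ?_) (fun F hF z _ k => ?_)
  · rcases k with ⟨k, hk⟩
    rcases k with _ | k
    · exact Pool.Agent.Y685.subset_clo (Set.mem_insert _ _)
    · exact Pool.Agent.Y685.subset_clo (Or.inr ⟨⟨k, by omega⟩, rfl⟩)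
  · exact Pool.Agent.Y685.subset_clo (Or.inr ⟨k, it_succ k z⟩)

end Pool.Agent.N603.DB.ItE
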