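import Pool.Agent.N603.DB.ItE

set_option autoImplicit false

/-!
Exponentials of the monomials in the iterated exponentials are algebraically independent over `ℂ(x)` at every point.
-/

open MvPolynomial

namespace Pool.Agent.N603.DB.ItE

open Pool.Agent.Y776.Fam (IndC)

/-- the exponents of the nonconstant monomials -/
abbrev Ix (n D : ℕ) : Type := {a : Option (Fin n) → Fin (D + 1) // a ≠ 0}

/-- the monomials in `x` and the iterated exponentials -/
noncomputable def mon (n D : ℕ) (a : Option (Fin n) → Fin (D + 1)) (x : ℂ) : ℂ :=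
  x ^ (a none : ℕ) * ∏ j, val n j x ^ (a (some j) : ℕ)

/-- their exponentials -/
noncomputable def vals (n D : ℕ) (a : Ix n D) (x : ℂ) : ℂ := Complex.exp (mon n D a.1 x)

theorem mon_an (n D : ℕ) (a : Option (Fin n) → Fin (D + 1)) (x : ℂ) : AnalyticAt ℂ (mon n D a) x :=
  (analyticAt_id.pow _).mul (Finset.analyticAt_fun_prod _ fun y _ => (val_an n y x).pow _)

theorem vals_an (n D : ℕ) (a : Ix n D) (x : ℂ) : AnalyticAt ℂ (vals n D a) x := (mon_an n D a.1 x).cexp

theorem indC_mon {n D s : ℕ} (hn : 0 < n) (e : Fin s ≃ Ix n D) :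
    IndC (Set.univ : Set ℂ) (fun k z => mon n D (e k).1 z) := by
  classical
  intro m c h
  set Fe : (Option (Fin n) → Fin (D + 1)) → (Option (Fin n) →₀ ℕ) :=
    fun a => Finsupp.equivFunOnFinite.symm (fun o => (a o : ℕ)) with hFe
  have hFinj : Function.Injective Fe := by
    intro a b hab
    funext o
    have := DFunLike.congr_fun hab o
    exact Fin.ext (by simpa [hFe] using this)
  have hF0 : ∀ a : Ix n D, Fe a.1 ≠ 0 := by
    intro a h0
    apply a.2
    funext o
    have := DFunLike.congr_fun h0 o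
    exact Fin.ext (by simpa [hFe] using this)
  set P : MvPolynomial (Option (Fin n)) ℂ := ∑ k, monomial (Fe (e k).1) ((m k : ℤ) : ℂ) - C c with hP
  have hP0 : P = 0 := by
    refine loc n hn 0 (Set.mem_univ _) P (Filter.Eventually.of_forall fun t => ?_)
    rw [hP, map_sub, map_sum, eval_C, ← h t (Set.mem_univ _), sub_eq_zero]
    refine Finset.sum_congr rfl fun k _ => ?_
    rw [eval_monomial, Finsupp.prod_fintype _ _ (fun _ => pow_zero _), Fintype.prod_option]
    rfl
  funext k
  have h1 : coeff (Fe (e k).1) P = 0 := by rw [hP0, coeff_zero]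
  rw [hP, coeff_sub, coeff_sum, coeff_C, if_neg (fun h => hF0 (e k) h.symm), sub_zero] at h1
  simp only [coeff_monomial] at h1
  rw [Finset.sum_eq_single k (fun b _ hb => if_neg fun h2 => hb (e.injective (Subtype.ext (hFinj h2))))
    (fun h2 => absurd (Finset.mem_univ _) h2), if_pos rfl] at h1
  exact_mod_cast h1

theorem locM (n D : ℕ) (hn : 0 < n) (hD : 0 < D) :
    ∀ t ∈ (Set.univ : Set ℂ), Pool.Agent.Y124.LocInd (vals n D) t := by
  classical
  have hone : ((1 : Fin (D + 1)) : ℕ) = 1 := by
    rw [Fin.val_one']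
    exact Nat.mod_eq_of_lt (by omega)
  have h10 : (1 : Fin (D + 1)) ≠ 0 := by
    intro h
    have := congrArg Fin.val h
    rw [hone] at this
    simp at this
  have hsing : ∀ o : Option (Fin n), (Pi.single o (1 : Fin (D + 1)) : Option (Fin n) → Fin (D + 1)) ≠ 0 := by
    intro o h
    have := congrFun h o
    rw [Pi.single_eq_same] at this
    exact h10 this
  have hmon0 : ∀ z : ℂ, mon n D (Pi.single none 1) z = z := by
    intro z
    unfold mon
    rw [Pi.single_eq_same, hone, pow_one]
    have : ∀ j : Fin n, val n j z ^ (((Pi.single none 1 : Option (Fin n) → Fin (D + 1)) (some j) : Fin (D + 1)) : ℕ) = 1 := by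
      intro j
      rw [Pi.single_eq_of_ne (by simp)]
      simp
    rw [Finset.prod_congr rfl fun j _ => this j]
    simp
  have hmonj : ∀ (i : Fin n) (z : ℂ), mon n D (Pi.single (some i) 1) z = val n i z := by
    intro i z
    unfold mon
    rw [Pi.single_eq_of_ne (by simp : (none : Option (Fin n)) ≠ some i)]
    rw [Finset.prod_eq_single i]
    · rw [Pi.single_eq_same, hone, pow_one]
      simp
    · intro j _ hj
      rw [Pi.single_eq_of_ne (by simpa using hj)]
      simp
    · intro h
      exact absurd (Finset.mem_univ _) h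
  have hval : ∀ (F : IntermediateField ℚ ℂ) (z : ℂ) (j : Fin n),
      val n j z ∈ Pool.Agent.Y685.clo F (insert z (Set.range fun k => vals n D k z)) := by
    rintro F z ⟨j, hj⟩
    rcases j with _ | j
    · refine Pool.Agent.Y685.subset_clo (Or.inr ⟨⟨Pi.single none 1, hsing _⟩, ?_⟩)
      show Complex.exp (mon n D (Pi.single none 1) z) = it (0 + 1) z
      rw [hmon0, it_succ, it_zero]
    · refine Pool.Agent.Y685.subset_clo (Or.inr ⟨⟨Pi.single (some ⟨j, by omega⟩) 1, hsing _⟩, ?_⟩)
      show Complex.exp (mon n D (Pi.single (some ⟨j, by omega⟩) 1) z) = it (j + 1 + 1) z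
      rw [hmonj, it_succ (j + 1)]
      rfl
  let e : Fin (Fintype.card (Ix n D)) ≃ Ix n D := (Fintype.equivFin (Ix n D)).symm
  have hs : 0 < Fintype.card (Ix n D) := Fintype.card_pos_iff.2 ⟨⟨Pi.single none 1, hsing _⟩⟩
  refine Pool.Agent.X39.Near.loc_exp hs isOpen_univ isPreconnected_univ ⟨0, Set.mem_univ _⟩
    (l := fun k z => mon n D (e k).1 z) (fun k z _ => mon_an n D _ z) (indC_mon hn e) (fun k z _ => vals_an n D k z)
    rfl (G := ∅) Set.countable_empty (fun F hF z _ k => ?_) (fun F hF z _ k => ?_)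
  · have m1 : z ∈ Pool.Agent.Y685.clo F (insert z (Set.range fun k => vals n D k z)) :=
      Pool.Agent.Y685.subset_clo (Set.mem_insert _ _)
    exact mul_mem (pow_mem m1 _) (prod_mem fun j _ => pow_mem (hval F z j) _)
  · exact Pool.Agent.Y685.subset_clo (Or.inr ⟨e k, rfl⟩)

end Pool.Agent.N603.DB.ItE
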