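import Pool.Agent.N603.DA.All

set_option autoImplicit false

/-!
Products of two coordinates of a good system of numbers are not in the span of the coordinates with coefficients of small
height.
-/

open NumberField MvPolynomial

namespace Pool.Agent.N603.DB

open Pool.Agent.R349.Gen

theorem not_comb {F : Type} [Field F] [NumberField F] {ι : F →+* ℂ} {σ : Type} {d : ℕ} {H δ : ℝ}
    {v : σ → ℂ} (h : GoodG F ι (fun _ : Fin 1 => (1 : ℂ)) d H δ v) {τ : Type} [Fintype τ] {e : τ → (σ →₀ ℕ)}
    (he : Function.Injective e) (hd : ∀ t i, e t i ≤ d) (c : τ → 𝓞 F) (hc : ∀ t (φ : F →+* ℂ), ‖φ (c t)‖ ≤ H)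
    (t0 : τ) : δ * ‖ι (c t0 : F)‖ ≤ ‖∑ t, ι (c t : F) * (e t).prod (fun i n => v i ^ n)‖ := by
  classical
  have hH : 0 ≤ H := (norm_nonneg _).trans (hc t0 ι)
  set P : MvPolynomial σ ℂ := ∑ t, monomial (e t) (ι (c t : F)) with hP
  have hcf : ∀ t, coeff (e t) P = ι (c t : F) := by
    intro t
    rw [hP, coeff_sum]
    simp only [coeff_monomial]
    rw [Finset.sum_eq_single t (fun b _ hb => if_neg fun h2 => hb (he h2))
      (fun h2 => absurd (Finset.mem_univ _) h2), if_pos rfl]
  have hadm : (∀ y, P.degreeOf y ≤ d) ∧ ∀ s, ∃ c : Fin 1 → 𝓞 F, (∀ i (φ : F →+* ℂ), ‖φ (c i)‖ ≤ H) ∧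
      P.coeff s = ∑ i, (1 : ℂ) * ι (c i) := by
    constructor
    · intro y
      rw [hP]
      refine (degreeOf_sum_le _ _ _).trans (Finset.sup_le fun t _ => ?_)
      by_cases hz : ι (c t : F) = 0
      · rw [hz, monomial_zero, degreeOf_zero]
        exact Nat.zero_le _
      · rw [degreeOf_monomial_eq _ _ hz]
        exact hd t y
    · intro s
      by_cases hs : ∃ t, e t = s
      · obtain ⟨t, rfl⟩ := hs
        refine ⟨fun _ => c t, fun _ φ => hc t φ, ?_⟩
        rw [hcf]
        simp
      · refine ⟨fun _ => 0, fun _ φ => ?_, ?_⟩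
        · have : φ ((0 : 𝓞 F) : F) = 0 := by simp
          rw [this, norm_zero]
          exact hH
        · rw [hP, coeff_sum]
          push Not at hs
          simp only [coeff_monomial]
          rw [Finset.sum_eq_zero fun t _ => if_neg (hs t)]
          simp
  have h1 := h.1 P hadm (e t0)
  have hval : aeval v P = ∑ t, ι (c t : F) * (e t).prod (fun i n => v i ^ n) := by
    rw [hP, map_sum]
    refine Finset.sum_congr rfl fun t _ => ?_
    rw [aeval_monomial]
    rfl
  rw [hval, hcf] at h1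
  exact h1

/-- exponents -/
noncomputable def ee {σ : Type} (i j : σ) : Option (Option σ) → (σ →₀ ℕ)
  | none => Finsupp.single i 1 + Finsupp.single j 1
  | some none => 0
  | some (some s) => Finsupp.single s 1

theorem ee_inj {σ : Type} {i j : σ} (hij : i ≠ j) : Function.Injective (ee i j) := by
  classical
  have e1 : ∀ s, (Finsupp.single i 1 + Finsupp.single j 1 : σ →₀ ℕ) ≠ Finsupp.single s 1 := by
    intro s h
    have hi := DFunLike.congr_fun h i
    have hj := DFunLike.congr_fun h j
    simp only [Finsupp.add_apply, Finsupp.single_apply] at hi hj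
    by_cases h1 : s = i
    · subst h1
      rw [if_neg hij] at hj
      simp at hj
    · rw [if_neg h1] at hi
      simp at hi
  have e2 : (Finsupp.single i 1 + Finsupp.single j 1 : σ →₀ ℕ) ≠ 0 := by
    intro h
    have hi := DFunLike.congr_fun h i
    simp at hi
  have e3 : ∀ s, (Finsupp.single s 1 : σ →₀ ℕ) ≠ 0 := fun s => by simp
  rintro (_ | _ | s) (_ | _ | t) h
  · rfl
  · exact absurd h e2
  · exact absurd h (e1 t)
  · exact absurd h.symm e2
  · rfl
  · exact absurd h.symm (e3 t)
  · exact absurd h.symm (e1 s)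
  · exact absurd h (e3 s)
  · have : s = t := Finsupp.single_left_injective one_ne_zero h
    rw [this]

theorem not_span {F : Type} [Field F] [NumberField F] {ι : F →+* ℂ} {σ : Type} [Fintype σ] [DecidableEq σ]
    {H δ : ℝ} (hH : 1 ≤ H) {v : σ → ℂ} {i j : σ} (hij : i ≠ j)
    (h : GoodG F ι (fun _ : Fin 1 => (1 : ℂ)) 1 (H ^ (Fintype.card σ + 1)) δ v) (a b : Option σ → 𝓞 F)
    (hb : ∀ o, b o ≠ 0) (hab : ∀ o (φ : F →+* ℂ), ‖φ (a o)‖ ≤ H ∧ ‖φ (b o)‖ ≤ H) :
    δ ≤ ‖v i * v j - (ι ((a none : F) / b none) + ∑ s, ι ((a (some s) : F) / b (some s)) * v s)‖ := by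
  classical
  have hcard : Fintype.card (Option σ) = Fintype.card σ + 1 := Fintype.card_option
  set c : Option (Option σ) → 𝓞 F := fun o => o.elim (∏ o', b o') fun o => -(a o * ∏ o' ∈ Finset.univ.erase o, b o')
    with hc
  have hbF : ∀ o, (b o : F) ≠ 0 := fun o => by exact_mod_cast hb o
  have hprod : ∀ (s : Finset (Option σ)) (φ : F →+* ℂ), φ ((∏ o' ∈ s, b o' : 𝓞 F) : F) = ∏ o' ∈ s, φ (b o' : F) := by
    intro s φ
    rw [show ((∏ o' ∈ s, b o' : 𝓞 F) : F) = ∏ o' ∈ s, (b o' : F) from map_prod (algebraMap (𝓞 F) F) _ _, map_prod]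
  have hpb : ∀ (s : Finset (Option σ)) (φ : F →+* ℂ), ‖φ ((∏ o' ∈ s, b o' : 𝓞 F) : F)‖ ≤ H ^ s.card := by
    intro s φ
    rw [hprod, norm_prod]
    refine (Finset.prod_le_prod (fun _ _ => norm_nonneg _) fun o _ => (hab o φ).2).trans ?_
    rw [Finset.prod_const]
  have hcn : c none ≠ 0 := Finset.prod_ne_zero_iff.2 fun o _ => hb o
  have hcb : ∀ o (φ : F →+* ℂ), ‖φ (c o)‖ ≤ H ^ (Fintype.card σ + 1) := by
    intro o φ
    rcases o with _ | o
    · refine (hpb Finset.univ φ).trans ?_
      rw [Finset.card_univ, hcard]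
    · have e1 : φ ((c (some o) : 𝓞 F) : F) = -(φ (a o : F) * φ ((∏ o' ∈ Finset.univ.erase o, b o' : 𝓞 F) : F)) := by
        show φ ((-(a o * ∏ o' ∈ Finset.univ.erase o, b o') : 𝓞 F) : F) = _
        rw [show ((-(a o * ∏ o' ∈ Finset.univ.erase o, b o') : 𝓞 F) : F) =
          -((a o : F) * ((∏ o' ∈ Finset.univ.erase o, b o' : 𝓞 F) : F)) by simp, map_neg, map_mul]
      rw [e1, norm_neg, norm_mul]
      refine (mul_le_mul (hab o φ).1 (hpb _ φ) (norm_nonneg _) (by linarith)).trans ?_
      rw [Finset.card_erase_of_mem (Finset.mem_univ _), Finset.card_univ, hcard, Nat.add_sub_cancel, ← pow_succ']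
  have hdeg : ∀ (t : Option (Option σ)) (s : σ), ee i j t s ≤ 1 := by
    intro t s
    rcases t with _ | _ | t
    · show (Finsupp.single i 1 + Finsupp.single j 1 : σ →₀ ℕ) s ≤ 1
      rw [Finsupp.add_apply, Finsupp.single_apply, Finsupp.single_apply]
      split_ifs with h1 h2
      · exact absurd (h1.trans h2.symm) hij
      · rfl
      · rfl
      · exact Nat.zero_le _
    · exact Nat.zero_le _
    · show (Finsupp.single t 1 : σ →₀ ℕ) s ≤ 1
      rw [Finsupp.single_apply]
      split_ifs
      · rfl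
      · exact Nat.zero_le _
  have hmain := not_comb h (ee_inj hij) hdeg c hcb none
  have hq : ∀ o, ι (c (some o) : F) = -(ι (c none : F) * ι ((a o : F) / b o)) := by
    intro o
    have e2 : (∏ o', b o') = b o * ∏ o' ∈ Finset.univ.erase o, b o' :=
      (Finset.mul_prod_erase Finset.univ b (Finset.mem_univ o)).symm
    have e3 : ((c (some o) : 𝓞 F) : F) = -((c none : F) * ((a o : F) / b o)) := by
      show ((-(a o * ∏ o' ∈ Finset.univ.erase o, b o') : 𝓞 F) : F) = -(((∏ o', b o' : 𝓞 F) : F) * ((a o : F) / b o))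
      rw [e2]
      push_cast
      have := hbF o
      field_simp
    rw [e3, map_neg, map_mul]
  rw [Fintype.sum_option, Fintype.sum_option] at hmain
  have e4 : (ee i j none).prod (fun i n => v i ^ n) = v i * v j := by
    show (Finsupp.single i 1 + Finsupp.single j 1 : σ →₀ ℕ).prod (fun i n => v i ^ n) = _
    rw [Finsupp.prod_add_index' (fun _ => pow_zero _) (fun _ _ _ => pow_add _ _ _),
      Finsupp.prod_single_index (by rw [pow_zero]), Finsupp.prod_single_index (by rw [pow_zero]), pow_one, pow_one]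
  have e5 : (ee i j (some none)).prod (fun i n => v i ^ n) = 1 := Finsupp.prod_zero_index
  have e6 : ∀ s, (ee i j (some (some s))).prod (fun i n => v i ^ n) = v s := by
    intro s
    show (Finsupp.single s 1 : σ →₀ ℕ).prod (fun i n => v i ^ n) = _
    rw [Finsupp.prod_single_index (by rw [pow_zero]), pow_one]
  rw [e4, e5, hq none] at hmain
  simp only [e6, hq] at hmain
  have e7 : ι (c none : F) * (v i * v j) + (-(ι (c none : F) * ι ((a none : F) / b none)) * 1 +
      ∑ s, -(ι (c none : F) * ι ((a (some s) : F) / b (some s))) * v s) = ι (c none : F) *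
      (v i * v j - (ι ((a none : F) / b none) + ∑ s, ι ((a (some s) : F) / b (some s)) * v s)) := by
    have e8 : ∑ s, -(ι (c none : F) * ι ((a (some s) : F) / b (some s))) * v s =
        -(ι (c none : F) * ∑ s, ι ((a (some s) : F) / b (some s)) * v s) := by
      rw [Finset.mul_sum, ← Finset.sum_neg_distrib]
      exact Finset.sum_congr rfl fun s _ => by ring
    rw [e8]
    ring
  rw [e7, norm_mul, mul_comm δ] at hmain
  have hcF : (c none : F) ≠ 0 := by exact_mod_cast hcn
  exact le_of_mul_le_mul_left hmain (norm_pos_iff.2 ((map_ne_zero ι).2 hcF))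

end Pool.Agent.N603.DB
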