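import Mathlib

set_option autoImplicit false

/-!
Counting near coincidences between powers in a range without near misses.
-/

namespace Pool.Agent.N603.DB.Nm

open Real

theorem pow_le_iff {p y : ℝ} (hp : 1 < p) (hy : 0 < y) (n : ℕ) : p ^ n ≤ y ↔ (n : ℝ) ≤ log y / log p := by
  have hlp : 0 < log p := log_pos hp
  rw [le_div_iff₀ hlp, ← log_pow, log_le_log_iff (pow_pos (by linarith) n) hy]

theorem count {p b x M Bd : ℝ} (hp : 1 < p) (hb : 1 < b) (hx : 1 ≤ x) (hM1 : log x / log p ≤ M)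
    (hM2 : log x / log b ≤ M) (hBd : 1 ≤ Bd)
    (hmiss : ∀ n m : ℕ, 0 < n → (n : ℝ) ≤ M → (m : ℝ) ≤ M → b ^ m ≤ Bd * |p ^ n - b ^ m|) :
    {q : ℕ × ℕ | 0 < q.1 ∧ (q.1 : ℝ) ≤ M ∧ (q.2 : ℝ) ≤ M ∧ |p ^ q.1 - b ^ q.2| ≤ x}.Finite ∧
    (log x / log p - 1) * (log x / log b) ≤
      ({q : ℕ × ℕ | 0 < q.1 ∧ (q.1 : ℝ) ≤ M ∧ (q.2 : ℝ) ≤ M ∧ |p ^ q.1 - b ^ q.2| ≤ x}.ncard : ℝ) ∧
    ({q : ℕ × ℕ | 0 < q.1 ∧ (q.1 : ℝ) ≤ M ∧ (q.2 : ℝ) ≤ M ∧ |p ^ q.1 - b ^ q.2| ≤ x}.ncard : ℝ) ≤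
      (log x + log Bd + 1) / log p * ((log x + log Bd) / log b + 1) := by
  classical
  set S : Set (ℕ × ℕ) := {q : ℕ × ℕ | 0 < q.1 ∧ (q.1 : ℝ) ≤ M ∧ (q.2 : ℝ) ≤ M ∧ |p ^ q.1 - b ^ q.2| ≤ x} with hS
  have hlp : 0 < log p := log_pos hp
  have hlb : 0 < log b := log_pos hb
  have hx0 : 0 < x := by linarith
  have hlx : 0 ≤ log x := log_nonneg hx
  have hlB : 0 ≤ log Bd := log_nonneg hBd
  set u : ℝ := (log x + log Bd + 1) / log p with hu
  set v : ℝ := (log x + log Bd) / log b with hv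
  have hu0 : 0 ≤ u := by positivity
  have hv0 : 0 ≤ v := by positivity
  set U : Finset (ℕ × ℕ) := Finset.Icc 1 ⌊u⌋₊ ×ˢ Finset.range (⌊v⌋₊ + 1) with hU
  have hSU : S ⊆ (U : Set (ℕ × ℕ)) := by
    rintro ⟨n, m⟩ ⟨h1, h2, h3, h4⟩
    simp only at h1 h2 h3 h4
    have h5 := hmiss n m h1 h2 h3
    have h6 : b ^ m ≤ Bd * x := h5.trans (mul_le_mul_of_nonneg_left h4 (by linarith))
    have h7 : p ^ n ≤ 2 * (Bd * x) := by
      have := (abs_le.1 h4).2
      nlinarith
    have hm : (m : ℝ) ≤ v := by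
      have := (pow_le_iff hb (by positivity) m).1 h6
      rw [log_mul (by linarith) (by linarith)] at this
      rw [hv, add_comm (log x)]
      exact this
    have hn : (n : ℝ) ≤ u := by
      have := (pow_le_iff hp (by positivity) n).1 h7
      refine this.trans ?_
      rw [log_mul (by norm_num) (by positivity), log_mul (by linarith) (by linarith), hu]
      refine div_le_div_of_nonneg_right ?_ hlp.le
      have h2 : log 2 ≤ 1 := by
        have := log_two_lt_d9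
        linarith
      linarith
    rw [hU, Finset.coe_product, Set.mem_prod]
    refine ⟨?_, ?_⟩
    · rw [Finset.mem_coe, Finset.mem_Icc]
      exact ⟨h1, Nat.le_floor hn⟩
    · rw [Finset.mem_coe, Finset.mem_range]
      exact Nat.lt_succ_of_le (Nat.le_floor hm)
  have hfin : S.Finite := U.finite_toSet.subset hSU
  refine ⟨hfin, ?_, ?_⟩
  · set V : Finset (ℕ × ℕ) := Finset.Icc 1 ⌊log x / log p⌋₊ ×ˢ Finset.range (⌊log x / log b⌋₊ + 1) with hV
    have ha0 : 0 ≤ log x / log p := by positivity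
    have hb0 : 0 ≤ log x / log b := by positivity
    have hVS : (V : Set (ℕ × ℕ)) ⊆ S := by
      rintro ⟨n, m⟩ h
      rw [hV, Finset.coe_product, Set.mem_prod, Finset.mem_coe, Finset.mem_coe, Finset.mem_Icc, Finset.mem_range] at h
      obtain ⟨⟨h1, h2⟩, h3⟩ := h
      simp only at h1 h2 h3
      have hn : (n : ℝ) ≤ log x / log p := (Nat.le_floor_iff ha0).1 h2
      have hm : (m : ℝ) ≤ log x / log b := (Nat.le_floor_iff hb0).1 (Nat.lt_succ_iff.1 h3)
      have e1 := (pow_le_iff hp hx0 n).2 hn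
      have e2 := (pow_le_iff hb hx0 m).2 hm
      refine ⟨h1, hn.trans hM1, hm.trans hM2, ?_⟩
      have e3 : 0 < p ^ n := pow_pos (by linarith) n
      have e4 : 0 < b ^ m := pow_pos (by linarith) m
      rw [abs_le]
      constructor <;> simp only <;> linarith
    have h1 : ((V.card : ℕ) : ℝ) ≤ (S.ncard : ℝ) := by
      rw [← Set.ncard_coe_finset]
      exact_mod_cast Set.ncard_le_ncard hVS hfin
    refine le_trans ?_ h1
    rw [hV, Finset.card_product, Nat.card_Icc, Finset.card_range, Nat.add_sub_cancel]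
    push_cast
    have h2 : log x / log p - 1 ≤ (⌊log x / log p⌋₊ : ℝ) := by
      have := Nat.lt_floor_add_one (log x / log p)
      linarith
    have h3 : log x / log b ≤ (⌊log x / log b⌋₊ : ℝ) + 1 := (Nat.lt_floor_add_one _).le
    calc (log x / log p - 1) * (log x / log b) ≤ (⌊log x / log p⌋₊ : ℝ) * (log x / log b) :=
          mul_le_mul_of_nonneg_right h2 hb0
      _ ≤ _ := mul_le_mul_of_nonneg_left h3 (Nat.cast_nonneg _)
  · have h1 : (S.ncard : ℝ) ≤ ((U.card : ℕ) : ℝ) := by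
      rw [← Set.ncard_coe_finset]
      exact_mod_cast Set.ncard_le_ncard hSU U.finite_toSet
    refine h1.trans ?_
    rw [hU, Finset.card_product, Nat.card_Icc, Finset.card_range, Nat.add_sub_cancel]
    push_cast
    exact mul_le_mul (Nat.floor_le hu0) (by linarith [Nat.floor_le hv0]) (by positivity) hu0

end Pool.Agent.N603.DB.Nm
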