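import Pool.Agent.X39.Near.Ax

set_option autoImplicit false

/-!
The functions `log x`, `x^θ`, `θ^x`, `θ^(θ x)`, `x^x`, `x^(θ x)` are algebraically independent: copied from the hand-in
`MP_4c2ad3_nt.PowersAtAllRoots` of helper534.
-/

namespace Pool.Agent.N603.DB.PiF

/-- The functions `log x`, `x^θ`, `θ^x`, `θ^(θ x)`, `x^x`, `x^(θ x)`. -/
noncomputable def values (θ : ℝ) : Fin 6 → ℂ → ℂ :=
  ![Complex.log, fun x => x ^ (θ : ℂ), fun x => (θ : ℂ) ^ x, fun x => (θ : ℂ) ^ (θ * x), fun x => x ^ x, fun x => x ^ (θ * x)]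

/-- the logarithms -/
noncomputable def logs (θ : ℝ) : Fin 6 → ℂ → ℂ :=
  ![Complex.log, fun z => θ * Complex.log z, fun z => (Real.log θ : ℂ) * z, fun z => (Real.log θ : ℂ) * (θ * z),
    fun z => Complex.log z * z, fun z => Complex.log z * (θ * z)]

variable {θ : ℝ}

theorem exp_logs (hθ : 0 < θ) {z : ℂ} (hz : z ≠ 0) (k : Fin 6) :
    Complex.exp (logs θ k z) = if k = 0 then z else values θ k z := by
  have hθ0 : (θ : ℂ) ≠ 0 := by exact_mod_cast hθ.ne'
  fin_cases k
  · change Complex.exp (Complex.log z) = _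
    rw [Complex.exp_log hz]
    rfl
  · change Complex.exp (θ * Complex.log z) = z ^ (θ : ℂ)
    rw [Complex.cpow_def_of_ne_zero hz, mul_comm]
  · change Complex.exp ((Real.log θ : ℂ) * z) = (θ : ℂ) ^ z
    rw [Complex.cpow_def_of_ne_zero hθ0, Complex.ofReal_log hθ.le]
  · change Complex.exp ((Real.log θ : ℂ) * (θ * z)) = (θ : ℂ) ^ (θ * z)
    rw [Complex.cpow_def_of_ne_zero hθ0, Complex.ofReal_log hθ.le]
  · change Complex.exp (Complex.log z * z) = z ^ z
    rw [Complex.cpow_def_of_ne_zero hz]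
  · change Complex.exp (Complex.log z * (θ * z)) = z ^ (θ * z)
    rw [Complex.cpow_def_of_ne_zero hz]

theorem logs_an (k : Fin 6) : AnalyticOnNhd ℂ (logs θ k) Complex.slitPlane := by
  intro z hz
  have hl := analyticAt_clog hz
  fin_cases k
  · exact hl
  · exact analyticAt_const.mul hl
  · exact analyticAt_const.mul analyticAt_id
  · exact analyticAt_const.mul (analyticAt_const.mul analyticAt_id)
  · exact hl.mul analyticAt_id
  · exact hl.mul (analyticAt_const.mul analyticAt_id)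

theorem an (hθ : 0 < θ) (k : Fin 6) : AnalyticOnNhd ℂ (values θ k) Complex.slitPlane := by
  intro z hz
  by_cases hk : k = 0
  · subst hk
    exact analyticAt_clog hz
  · refine ((logs_an (θ := θ) k z hz).cexp).congr ?_
    filter_upwards [Complex.isOpen_slitPlane.mem_nhds hz] with w hw
    change Complex.exp (logs θ k w) = _
    rw [exp_logs hθ (Complex.slitPlane_ne_zero hw), if_neg hk]

theorem conn : IsPreconnected Complex.slitPlane :=
  (Complex.starConvex_one_slitPlane.isPathConnected Complex.one_mem_slitPlane).isConnected.isPreconnected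

/-- `log z`, `z` and `z log z` are linearly independent modulo constants -/
theorem lin (α β γ c : ℂ) (h : ∀ z ∈ Complex.slitPlane, α * Complex.log z + β * z + γ * (Complex.log z * z) = c) :
    α = 0 ∧ β = 0 ∧ γ = 0 := by
  have hr : ∀ t : ℝ, α * t + β * (Real.exp t : ℂ) + γ * (t * (Real.exp t : ℂ)) = c := by
    intro t
    have h1 := h (Real.exp t : ℂ) (Complex.ofReal_mem_slitPlane.2 (Real.exp_pos t))
    rwa [← Complex.ofReal_log (Real.exp_pos t).le, Real.log_exp] at h1
  set e : ℂ := (Real.exp 1 : ℂ) with he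
  have he0 : e ≠ 0 := by
    rw [he]
    exact_mod_cast (Real.exp_pos 1).ne'
  have he1 : e - 1 ≠ 0 := by
    rw [he]
    have h1 : (1 : ℝ) < Real.exp 1 := Real.one_lt_exp_iff.2 one_pos
    have h2 : (Real.exp 1 - 1 : ℝ) ≠ 0 := by linarith
    exact_mod_cast h2
  have e0 := hr 0
  have e1 := hr 1
  have e2 := hr 2
  have e3 := hr (-1)
  have h2 : (Real.exp 2 : ℂ) = e * e := by
    rw [he, ← Complex.ofReal_mul, ← Real.exp_add]
    norm_num
  have h3 : (Real.exp (-1) : ℂ) = e⁻¹ := by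
    rw [he, Real.exp_neg, Complex.ofReal_inv]
  rw [Real.exp_zero] at e0
  rw [h2] at e2
  rw [h3] at e3
  rw [← he] at e1
  push_cast at e0 e1 e2 e3
  have a1 : α + β * (e - 1) + γ * e = 0 := by linear_combination e1 - e0
  have a2 : 2 * α + β * (e * e - 1) + γ * (2 * (e * e)) = 0 := by linear_combination e2 - e0
  have a3 : -α + β * (e⁻¹ - 1) - γ * e⁻¹ = 0 := by linear_combination e3 - e0
  have a3' : -α * e + β * (1 - e) - γ = 0 := by
    have h4 : e * e⁻¹ = 1 := mul_inv_cancel₀ he0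
    linear_combination e * a3 - β * h4 + γ * h4
  have b1 : β * (e - 1) + 2 * (γ * e) = 0 := by
    refine mul_left_cancel₀ he1 ?_
    rw [mul_zero]
    linear_combination a2 - 2 * a1
  have b2 : β * (e - 1) + γ * (e + 1) = 0 := by
    refine mul_left_cancel₀ he1 ?_
    rw [mul_zero]
    linear_combination e * a1 + a3'
  have hγ : γ = 0 := by
    refine mul_left_cancel₀ he1 ?_
    rw [mul_zero]
    linear_combination b1 - b2
  subst hγ
  have hβ : β = 0 := by
    refine mul_right_cancel₀ he1 ?_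
    rw [zero_mul]
    linear_combination b1
  subst hβ
  exact ⟨by linear_combination a1, rfl, rfl⟩

theorem irr (hθ : Irrational θ) {m n : ℤ} (h : (m : ℂ) + n * θ = 0) : m = 0 ∧ n = 0 := by
  have h1 : (m : ℝ) + n * θ = 0 := by exact_mod_cast h
  by_cases hn : n = 0
  · subst hn
    refine ⟨?_, rfl⟩
    have h2 : (m : ℝ) = 0 := by simpa using h1
    exact_mod_cast h2
  · exfalso
    have hn' : (n : ℝ) ≠ 0 := by exact_mod_cast hn
    refine hθ ⟨-m / n, ?_⟩
    push_cast
    field_simp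
    linarith

theorem log_ne (hθ0 : 0 < θ) (hθ : Irrational θ) : (Real.log θ : ℂ) ≠ 0 := by
  have h1 : Real.log θ ≠ 0 := Real.log_ne_zero_of_pos_of_ne_one hθ0 (by
    rintro rfl
    exact hθ ⟨1, by norm_num⟩)
  exact_mod_cast h1

theorem indC (hθ0 : 0 < θ) (hθ : Irrational θ) : Pool.Agent.Y776.Fam.IndC Complex.slitPlane (logs θ) := by
  intro m c h
  have h1 := lin ((m 0 : ℂ) + m 1 * θ) (((m 2 : ℂ) + m 3 * θ) * Real.log θ) ((m 4 : ℂ) + m 5 * θ) c (fun z hz => by
    rw [← h z hz]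
    have h2 : ∑ k, (m k : ℂ) * logs θ k z = (m 0 : ℂ) * Complex.log z + (m 1 : ℂ) * (θ * Complex.log z) +
        (m 2 : ℂ) * ((Real.log θ : ℂ) * z) + (m 3 : ℂ) * ((Real.log θ : ℂ) * (θ * z)) +
        (m 4 : ℂ) * (Complex.log z * z) + (m 5 : ℂ) * (Complex.log z * (θ * z)) := by
      rw [Fin.sum_univ_six]
      rfl
    rw [h2]
    ring)
  obtain ⟨h2, h3, h4⟩ := h1
  have h5 := irr hθ h2
  have h6 := irr hθ ((mul_eq_zero.1 h3).resolve_right (log_ne hθ0 hθ))
  have h7 := irr hθ h4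
  funext k
  fin_cases k
  · exact h5.1
  · exact h5.2
  · exact h6.1
  · exact h6.2
  · exact h7.1
  · exact h7.2

theorem loc (hθ0 : 0 < θ) (hθ : Irrational θ) : ∀ t ∈ Complex.slitPlane, Pool.Agent.Y124.LocInd (values θ) t := by
  refine Pool.Agent.X39.Near.loc_exp (by norm_num : 0 < 6) Complex.isOpen_slitPlane conn ⟨1, Complex.one_mem_slitPlane⟩
    (l := logs θ) logs_an (indC hθ0 hθ) (an hθ0) (by rw [Fintype.card_fin]) (G := {(θ : ℂ), (Real.log θ : ℂ)})
    ((Set.countable_singleton _).insert _) (fun F hF z hz k => ?_) (fun F hF z hz k => ?_)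
  · have m1 : (θ : ℂ) ∈ Pool.Agent.Y685.clo F (insert z (Set.range fun k => values θ k z)) :=
      Pool.Agent.Y685.base_clo (hF (Or.inl rfl))
    have m2 : (Real.log θ : ℂ) ∈ Pool.Agent.Y685.clo F (insert z (Set.range fun k => values θ k z)) :=
      Pool.Agent.Y685.base_clo (hF (Or.inr rfl))
    have m3 : z ∈ Pool.Agent.Y685.clo F (insert z (Set.range fun k => values θ k z)) :=
      Pool.Agent.Y685.subset_clo (Set.mem_insert _ _)
    have m4 : Complex.log z ∈ Pool.Agent.Y685.clo F (insert z (Set.range fun k => values θ k z)) :=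
      Pool.Agent.Y685.subset_clo (Or.inr ⟨0, rfl⟩)
    fin_cases k
    · exact m4
    · exact mul_mem m1 m4
    · exact mul_mem m2 m3
    · exact mul_mem m2 (mul_mem m1 m3)
    · exact mul_mem m4 m3
    · exact mul_mem m4 (mul_mem m1 m3)
  · rw [exp_logs hθ0 (Complex.slitPlane_ne_zero hz)]
    split_ifs with hk
    · exact Pool.Agent.Y685.subset_clo (Set.mem_insert _ _)
    · exact Pool.Agent.Y685.subset_clo (Or.inr ⟨k, rfl⟩)


/-- `(θ x)^(θ x)` -/
theorem pow_self (hθ : 0 < θ) {x : ℂ} (hx : x ≠ 0) :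
    ((θ : ℂ) * x) ^ ((θ : ℂ) * x) = values θ 3 x * values θ 5 x := by
  have hθ0 : (θ : ℂ) ≠ 0 := by exact_mod_cast hθ.ne'
  change _ = (θ : ℂ) ^ ((θ : ℂ) * x) * x ^ ((θ : ℂ) * x)
  rw [Complex.cpow_def_of_ne_zero (mul_ne_zero hθ0 hx), Complex.cpow_def_of_ne_zero hθ0,
    Complex.cpow_def_of_ne_zero hx, Complex.log_ofReal_mul hθ hx, Complex.ofReal_log hθ.le, ← Complex.exp_add, add_mul]

end Pool.Agent.N603.DB.PiF
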