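import Pool.Agent.N603.DB.Nr
import Pool.Agent.N603.DB.PiF

set_option autoImplicit false

/-!
Near coincidences between the powers of `a r` and of `b`, `r` algebraic.
-/

open NumberField MvPolynomial

namespace Pool.Agent.N603.DB.Nm

open Pool.Agent.R349.Gen

/-- the constants -/
noncomputable def cc (a b : ℝ) : ℕ → ℂ
  | 0 => 1
  | 1 => (Real.log a : ℂ)
  | 2 => (Real.log b : ℂ)
  | _ => 0

/-- the logarithm -/
noncomputable def lg : Fin 1 → ℂ → ℂ := fun _ => Complex.log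

theorem lg_an (k : Fin 1) (x : ℂ) (hx : x ∈ Complex.slitPlane) : AnalyticAt ℂ (lg k) x := analyticAt_clog hx

theorem lg_loc : ∀ t ∈ Complex.slitPlane, Pool.Agent.Y124.LocInd lg t := by
  intro t ht
  exact Pool.Agent.Y776.Cv.LocInd.comp_inj (PiF.loc Real.pi_pos irrational_pi t ht) (e := fun _ : Fin 1 => (0 : Fin 6))
    (fun a b _ => Subsingleton.elim a b)

theorem lower {F : Type} [Field F] [NumberField F] {ι : F →+* ℂ} {H δ : ℝ} {r a b : ℝ} (hr : 0 < r) (ha : 0 < a)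
    (h : GoodG F ι (fun i : Fin 3 => cc a b i) 1 H δ (fun k => lg k (r : ℂ))) (hδ : 0 ≤ δ) {n m : ℕ} (hn : 0 < n)
    (hnT : (n : ℝ) ≤ H) (hmT : (m : ℝ) ≤ H) : δ ≤ |n * Real.log (a * r) - m * Real.log b| := by
  classical
  have hH : 0 ≤ H := (Nat.cast_nonneg n).trans hnT
  set s1 : Fin 1 →₀ ℕ := Finsupp.single 0 1 with hs1
  have hs10 : s1 ≠ 0 := by simp [hs1]
  set P : MvPolynomial (Fin 1) ℂ := monomial s1 (n : ℂ) + C ((n : ℂ) * Real.log a - m * Real.log b) with hP
  have hcf : ∀ s, coeff s P = (if s1 = s then (n : ℂ) else 0) +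
      (if 0 = s then (n : ℂ) * Real.log a - m * Real.log b else 0) := by
    intro s
    rw [hP, coeff_add, coeff_monomial, coeff_C]
  have hn0 : (n : ℂ) ≠ 0 := by exact_mod_cast hn.ne'
  have hadm : (∀ y, P.degreeOf y ≤ 1) ∧ ∀ s, ∃ c : Fin 3 → 𝓞 F, (∀ i (φ : F →+* ℂ), ‖φ (c i)‖ ≤ H) ∧
      P.coeff s = ∑ i : Fin 3, cc a b i * ι (c i) := by
    constructor
    · intro y
      refine (degreeOf_add_le y _ _).trans (max_le ?_ ?_)
      · rw [degreeOf_monomial_eq _ _ hn0, hs1, Finsupp.single_apply]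
        split_ifs
        · rfl
        · exact Nat.zero_le _
      · rw [degreeOf_C]
        exact Nat.zero_le _
    · intro s
      have e0 : ∀ φ : F →+* ℂ, ‖φ ((0 : 𝓞 F) : F)‖ ≤ H := by
        intro φ
        have : φ ((0 : 𝓞 F) : F) = 0 := by simp
        rw [this, norm_zero]
        exact hH
      have en : ∀ φ : F →+* ℂ, ‖φ (((n : ℕ) : 𝓞 F) : F)‖ ≤ H := by
        intro φ
        have : φ (((n : ℕ) : 𝓞 F) : F) = (n : ℂ) := by simp
        rw [this, Complex.norm_natCast]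
        exact hnT
      have em : ∀ φ : F →+* ℂ, ‖φ ((-((m : ℕ) : 𝓞 F) : 𝓞 F) : F)‖ ≤ H := by
        intro φ
        have : φ ((-((m : ℕ) : 𝓞 F) : 𝓞 F) : F) = -(m : ℂ) := by simp
        rw [this, norm_neg, Complex.norm_natCast]
        exact hmT
      rw [hcf]
      by_cases h1 : s1 = s
      · refine ⟨![((n : ℕ) : 𝓞 F), 0, 0], fun i φ => ?_, ?_⟩
        · fin_cases i
          · exact en φ
          · exact e0 φ
          · exact e0 φ
        · rw [if_pos h1, if_neg (fun h2 => hs10 (h1.trans h2.symm)), Fin.sum_univ_three]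
          simp [cc]
      · rw [if_neg h1]
        by_cases h2 : 0 = s
        · refine ⟨![0, ((n : ℕ) : 𝓞 F), -((m : ℕ) : 𝓞 F)], fun i φ => ?_, ?_⟩
          · fin_cases i
            · exact e0 φ
            · exact en φ
            · exact em φ
          · rw [if_pos h2, Fin.sum_univ_three]
            simp [cc]
            ring
        · refine ⟨fun _ => 0, fun _ φ => e0 φ, ?_⟩
          rw [if_neg h2]
          simp
  have h1 := h.1 P hadm s1
  have hval : aeval (fun k => lg k (r : ℂ)) P =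
      (((n * Real.log (a * r) - m * Real.log b : ℝ)) : ℂ) := by
    rw [hP, map_add, aeval_monomial, aeval_C, hs1, Finsupp.prod_single_index (by rw [pow_zero]), pow_one]
    show (n : ℂ) * Complex.log (r : ℂ) + ((n : ℂ) * Real.log a - m * Real.log b) = _
    rw [← Complex.ofReal_log hr.le, Real.log_mul ha.ne' hr.ne']
    push_cast
    ring
  have h2 : coeff s1 P = (n : ℂ) := by
    rw [hcf, if_pos rfl, if_neg (fun h2 => hs10 h2.symm), add_zero]
  rw [hval, h2, Complex.norm_natCast, Complex.norm_real, Real.norm_eq_abs] at h1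
  have h3 : (1 : ℝ) ≤ n := by exact_mod_cast hn
  nlinarith

theorem exp_low {Λ δ : ℝ} (hδ0 : 0 ≤ δ) (hδ : δ ≤ 1) (h : δ ≤ |Λ|) : δ / 2 ≤ |Real.exp Λ - 1| := by
  rcases le_or_gt 0 Λ with h0 | h0
  · rw [abs_of_nonneg h0] at h
    have h1 := Real.add_one_le_exp Λ
    rw [abs_of_nonneg (by linarith)]
    linarith
  · rw [abs_of_neg h0] at h
    have h1 := Real.add_one_le_exp (-Λ)
    have h2 : 0 < Real.exp Λ := Real.exp_pos _
    have h3 : Real.exp Λ * Real.exp (-Λ) = 1 := by rw [← Real.exp_add]; simp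
    have h4 : Real.exp Λ * (1 + δ) ≤ 1 := by
      calc Real.exp Λ * (1 + δ) ≤ Real.exp Λ * Real.exp (-Λ) :=
            mul_le_mul_of_nonneg_left (by linarith) h2.le
        _ = 1 := h3
    have h5 : Real.exp Λ ≤ 1 := Real.exp_le_one_iff.2 h0.le
    rw [abs_of_nonpos (by linarith)]
    nlinarith

/-- the near misses -/
theorem miss {r a b : ℝ} (hr : 0 < r) (ha : 0 < a) (hb : 1 < b) {δ : ℝ} (hδ0 : 0 ≤ δ) (hδ : δ ≤ 1) {n m : ℕ}
    (h : δ ≤ |n * Real.log (a * r) - m * Real.log b|) : b ^ m * (δ / 2) ≤ |(a * r) ^ n - b ^ m| := by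
  have hb0 : 0 < b := by linarith
  have har : 0 < a * r := mul_pos ha hr
  have h1 : (a * r) ^ n = b ^ m * Real.exp (n * Real.log (a * r) - m * Real.log b) := by
    rw [Real.exp_sub, mul_comm (n : ℝ), mul_comm (m : ℝ), ← Real.rpow_def_of_pos har, ← Real.rpow_def_of_pos hb0,
      Real.rpow_natCast, Real.rpow_natCast]
    field_simp
  have h2 : (a * r) ^ n - b ^ m = b ^ m * (Real.exp (n * Real.log (a * r) - m * Real.log b) - 1) := by
    rw [h1]
    ring
  rw [h2, abs_mul, abs_of_pos (pow_pos hb0 m)]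
  exact mul_le_mul_of_nonneg_left (exp_low hδ0 hδ h) (pow_pos hb0 m).le

/-- the conclusion at a point of height `T` -/
theorem concl {F : Type} [Field F] [NumberField F] {ι : F →+* ℂ} {T A B' : ℝ} {r a b : ℝ} (hr : 0 < r) (ha : 0 < a)
    (hb : 1 < b) (hT : 2 ≤ T)
    (h : GoodG F ι (fun i : Fin 3 => cc a b i) 1 (T ^ A) (T ^ (-B')) (fun k => lg k (r : ℂ))) {n m : ℕ} (hn : 0 < n)
    (hnT : (n : ℝ) ≤ T ^ A) (hmT : (m : ℝ) ≤ T ^ A) :
    b ^ m * T ^ (-(max B' 0 + 1)) ≤ |(a * r) ^ n - b ^ m| := by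
  have hT0 : 0 < T := by linarith
  have hT1 : 1 ≤ T := by linarith
  have hd : T ^ (-(max B' 0)) ≤ T ^ (-B') :=
    Real.rpow_le_rpow_of_exponent_le hT1 (neg_le_neg (le_max_left _ _))
  have h1 := hd.trans (lower hr ha h (Real.rpow_nonneg hT0.le _) hn hnT hmT)
  have h2 : T ^ (-(max B' 0)) ≤ 1 :=
    Real.rpow_le_one_of_one_le_of_nonpos hT1 (by linarith [le_max_right B' 0])
  have h3 := miss hr ha hb (Real.rpow_nonneg hT0.le _) h2 h1
  refine le_trans (mul_le_mul_of_nonneg_left ?_ (pow_pos (by linarith : 0 < b) m).le) h3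
  have h4 : T ^ (-(max B' 0 + 1)) = T ^ (-(max B' 0)) * T⁻¹ := by
    rw [neg_add, Real.rpow_add hT0, Real.rpow_neg_one]
  rw [h4]
  have h5 : T⁻¹ ≤ 1 / 2 := by
    rw [inv_le_comm₀ hT0 (by norm_num)]
    linarith
  have h6 : 0 ≤ T ^ (-(max B' 0)) := Real.rpow_nonneg hT0.le _
  nlinarith

end Pool.Agent.N603.DB.Nm
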