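import Pool.Agent.N603.DA.All

set_option autoImplicit false

/-!
A product of two of the coordinates of a good system of numbers is no element of small height of the field.
-/

open NumberField MvPolynomial

namespace Pool.Agent.N603.DB

open Pool.Agent.R349.Gen

theorem not_quot {F : Type} [Field F] [NumberField F] {ι : F →+* ℂ} {σ : Type} {H δ : ℝ} (hδ : 0 < δ) {v : σ → ℂ}
    {i j : σ} (hij : i ≠ j) (h : GoodG F ι (fun _ : Fin 1 => (1 : ℂ)) 1 H δ v) (a b : 𝓞 F) (hb : b ≠ 0)
    (hab : ∀ φ : F →+* ℂ, ‖φ a‖ ≤ H ∧ ‖φ b‖ ≤ H) : v i * v j ≠ ι ((a : F) / b) := by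
  classical
  intro h0
  have hbF : (b : F) ≠ 0 := by exact_mod_cast hb
  have hιb : ι (b : F) ≠ 0 := (map_ne_zero ι).2 hbF
  have hH : 0 ≤ H := (norm_nonneg _).trans (hab ι).1
  set m : σ →₀ ℕ := Finsupp.single i 1 + Finsupp.single j 1 with hm
  have hm0 : m ≠ 0 := by
    intro h1
    have := DFunLike.congr_fun h1 i
    simp [hm] at this
  set P : MvPolynomial σ ℂ := monomial m (ι (b : F)) - C (ι (a : F)) with hP
  have hc : ∀ s, coeff s P = (if m = s then ι (b : F) else 0) - (if 0 = s then ι (a : F) else 0) := by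
    intro s
    rw [hP, coeff_sub, coeff_monomial, coeff_C]
  have hadm : (∀ y, P.degreeOf y ≤ 1) ∧ ∀ s, ∃ c : Fin 1 → 𝓞 F, (∀ i (φ : F →+* ℂ), ‖φ (c i)‖ ≤ H) ∧
      P.coeff s = ∑ i, (1 : ℂ) * ι (c i) := by
    constructor
    · intro y
      refine (degreeOf_sub_le y _ _).trans (max_le ?_ ?_)
      · rw [degreeOf_monomial_eq _ _ hιb, hm, Finsupp.add_apply, Finsupp.single_apply, Finsupp.single_apply]
        split_ifs with h1 h2
        · exact absurd (h1.trans h2.symm) hij
        · rfl
        · rfl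
        · exact Nat.zero_le _
      · rw [degreeOf_C]
        exact Nat.zero_le _
    · intro s
      rw [hc]
      by_cases h1 : m = s
      · refine ⟨fun _ => b, fun _ φ => (hab φ).2, ?_⟩
        rw [if_pos h1, if_neg (fun h2 => hm0 (h1.trans h2.symm))]
        simp
      · rw [if_neg h1]
        by_cases h2 : 0 = s
        · refine ⟨fun _ => -a, fun _ φ => ?_, ?_⟩
          · have : φ ((-a : 𝓞 F) : F) = -φ (a : F) := by simp
            rw [this, norm_neg]
            exact (hab φ).1
          · rw [if_pos h2]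
            simp
        · refine ⟨fun _ => 0, fun _ φ => ?_, ?_⟩
          · have : φ ((0 : 𝓞 F) : F) = 0 := by simp
            rw [this, norm_zero]
            exact hH
          · rw [if_neg h2]
            simp
  have h1 := h.1 P hadm m
  have hval : aeval v P = 0 := by
    have e1 : (monomial m (ι (b : F)) : MvPolynomial σ ℂ) = C (ι (b : F)) * (X i * X j) := by
      rw [X, X, monomial_mul, C_mul_monomial, mul_one, mul_one]
    rw [hP, e1, map_sub, map_mul, map_mul, aeval_X, aeval_X, aeval_C, aeval_C, h0, map_div₀]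
    show ι (b : F) * (ι (a : F) / ι (b : F)) - ι (a : F) = 0
    rw [mul_div_cancel₀ _ hιb, sub_self]
  have h2 : coeff m P = ι (b : F) := by
    rw [hc, if_pos rfl, if_neg (fun h2 => hm0 h2.symm), sub_zero]
  rw [hval, h2, norm_zero] at h1
  have h3 : 0 < δ * ‖ι (b : F)‖ := mul_pos hδ (norm_pos_iff.2 hιb)
  linarith

end Pool.Agent.N603.DB
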