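import Pool.Agent.N603.DA.All

set_option autoImplicit false

/-!
Two monomials in a good system of numbers are not proportional with a factor of small height.
-/

open NumberField MvPolynomial

namespace Pool.Agent.N603.DB

open Pool.Agent.R349.Gen

theorem not_rel {F : Type} [Field F] [NumberField F] {ι : F →+* ℂ} {σ : Type} {d : ℕ} {H δ : ℝ} (hδ : 0 < δ)
    {v : σ → ℂ} {m m' : σ →₀ ℕ} (hmm : m ≠ m') (hm : ∀ i, m i ≤ d) (hm' : ∀ i, m' i ≤ d)
    (h : GoodG F ι (fun _ : Fin 1 => (1 : ℂ)) d H δ v) (a b : 𝓞 F) (hb : b ≠ 0)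
    (hab : ∀ φ : F →+* ℂ, ‖φ a‖ ≤ H ∧ ‖φ b‖ ≤ H) :
    (m.prod fun i e => v i ^ e) ≠ ι ((a : F) / b) * m'.prod fun i e => v i ^ e := by
  classical
  intro h0
  have hbF : (b : F) ≠ 0 := by exact_mod_cast hb
  have hιb : ι (b : F) ≠ 0 := (map_ne_zero ι).2 hbF
  have hH : 0 ≤ H := (norm_nonneg _).trans (hab ι).1
  set P : MvPolynomial σ ℂ := monomial m (ι (b : F)) - monomial m' (ι (a : F)) with hP
  have hc : ∀ s, coeff s P = (if m = s then ι (b : F) else 0) - (if m' = s then ι (a : F) else 0) := by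
    intro s
    rw [hP, coeff_sub, coeff_monomial, coeff_monomial]
  have hdeg : ∀ (n : σ →₀ ℕ) (z : ℂ) (y : σ), (∀ i, n i ≤ d) → (monomial n z : MvPolynomial σ ℂ).degreeOf y ≤ d := by
    intro n z y hn
    by_cases hz : z = 0
    · rw [hz, monomial_zero, degreeOf_zero]
      exact Nat.zero_le _
    · rw [degreeOf_monomial_eq _ _ hz]
      exact hn y
  have hadm : (∀ y, P.degreeOf y ≤ d) ∧ ∀ s, ∃ c : Fin 1 → 𝓞 F, (∀ i (φ : F →+* ℂ), ‖φ (c i)‖ ≤ H) ∧
      P.coeff s = ∑ i, (1 : ℂ) * ι (c i) := by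
    constructor
    · intro y
      exact (degreeOf_sub_le y _ _).trans (max_le (hdeg _ _ _ hm) (hdeg _ _ _ hm'))
    · intro s
      rw [hc]
      by_cases h1 : m = s
      · refine ⟨fun _ => b, fun _ φ => (hab φ).2, ?_⟩
        rw [if_pos h1, if_neg (fun h2 => hmm (h1.trans h2.symm))]
        simp
      · rw [if_neg h1]
        by_cases h2 : m' = s
        · refine ⟨fun _ => -a, fun _ φ => ?_, ?_⟩
          · have : φ ((-a : 𝓞 F) : F) = -φ (a : F) := by simp
            rw [this, norm_neg]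
            exact (hab φ).1
          · rw [if_pos h2]
            simp
        · refine ⟨fun _ => 0, fun _ φ => ?_, ?_⟩
          · have : φ ((0 : 𝓞 F) : F) = 0 := by simp
            rw [this, norm_zero]
            exact hH
          · rw [if_neg h2]
            simp
  have h1 := h.1 P hadm m
  have hval : aeval v P = 0 := by
    rw [hP, map_sub, aeval_monomial, aeval_monomial, h0, map_div₀]
    show ι (b : F) * (ι (a : F) / ι (b : F) * _) - ι (a : F) * _ = 0
    rw [← mul_assoc, mul_div_cancel₀ _ hιb, sub_self]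
  have h2 : coeff m P = ι (b : F) := by
    rw [hc, if_pos rfl, if_neg (fun h2 => hmm h2.symm), sub_zero]
  rw [hval, h2, norm_zero] at h1
  have h3 : 0 < δ * ‖ι (b : F)‖ := mul_pos hδ (norm_pos_iff.2 hιb)
  linarith

/-- a coordinate does not vanish -/
theorem not_zero {F : Type} [Field F] [NumberField F] {ι : F →+* ℂ} {σ : Type} {d : ℕ} (hd : 0 < d) {H δ : ℝ}
    (hδ : 0 < δ) (hH : 1 ≤ H) {v : σ → ℂ} (h : GoodG F ι (fun _ : Fin 1 => (1 : ℂ)) d H δ v) (i : σ) : v i ≠ 0 := by
  classical
  intro h0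
  have h1 := not_rel hδ (m := Finsupp.single i 1) (m' := 0) (fun h => by
    have := DFunLike.congr_fun h i
    simp at this) (fun j => by
      rw [Finsupp.single_apply]
      split_ifs
      · omega
      · exact Nat.zero_le _) (fun j => Nat.zero_le _) h (0 : 𝓞 F) 1 one_ne_zero (fun φ => by
        constructor
        · have : φ ((0 : 𝓞 F) : F) = 0 := by simp
          rw [this, norm_zero]
          linarith
        · have : φ ((1 : 𝓞 F) : F) = 1 := by simp
          rw [this, norm_one]
          exact hH)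
  apply h1
  rw [Finsupp.prod_single_index (by rw [pow_zero]), pow_one, h0]
  simp

end Pool.Agent.N603.DB
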