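import Pool.Agent.Results.MP_2cf66e_nt.RandomPoints
import Pool.Agent.N603.DA.All

set_option autoImplicit false

/-!
Members of a one-parameter family with symplectic monodromy whose height is near a function of the
denominators of good simultaneous approximations.
-/

open NumberField

namespace Pool.Agent.N603.DB

open Pool.Agent Pool.Agent.Y890.MV Pool.Agent.Y890.SM Pool.Agent.R349.PC
open Pool.Agent.R437.Met.Hs (IsPt)
open Pool.Agent.N671.DA (Solves Expanding approx_good)
open Pool.Agent.Results.MP_2cf66e_nt.RandomPoints (NotGood notGood_mono count_notGood)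

/-- the height of `x`: the least `T` such that `x` is a quotient of two integers of `K` all of whose
conjugates have absolute value at most `T` -/
noncomputable def height (K : Type) [Field K] [NumberField K] (x : K) : ℝ := sInf {T : ℝ | Y120.HtLe K T x}

theorem htLe_iff {K : Type} [Field K] [NumberField K] {T : ℝ} {x : K} : Y120.HtLe K T x ↔ IsPt K T x := by
  constructor
  · rintro ⟨a, b, h1, h2, h3, h4⟩
    exact ⟨a, b, h1, fun φ => ⟨(norm_embedding_le_house _ φ).trans h2,
      (norm_embedding_le_house _ φ).trans h3⟩, h4⟩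
  · intro h
    have hT : 0 ≤ T := by linarith [N603.DA.one_le_pt h]
    obtain ⟨a, b, h1, h2, h3⟩ := h
    refine ⟨a, b, h1, ?_, ?_, h3⟩
    · rw [house, pi_norm_le_iff_of_nonneg hT]
      exact fun φ => (h2 φ).1
    · rw [house, pi_norm_le_iff_of_nonneg hT]
      exact fun φ => (h2 φ).2

theorem height_eq (K : Type) [Field K] [NumberField K] (x : K) : height K x = N603.DA.ht K x := by
  unfold height N603.DA.ht
  congr 1
  ext T
  exact htLe_iff

theorem height_le_iff (K : Type) [Field K] [NumberField K] (x : K) (T : ℝ) :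
    height K x ≤ T ↔ Y120.HtLe K T x := by
  rw [height_eq, htLe_iff]
  exact N603.DA.ht_le_iff K x T

theorem one_le_height (K : Type) [Field K] [NumberField K] (x : K) : 1 ≤ height K x := by
  rw [height_eq]
  exact N603.DA.one_le_ht K x

variable {X : Type} [Fintype X] [DecidableEq X] [Nonempty X] {ι : Type} [Fintype ι] [DecidableEq ι]
  {n : ι → ℕ}

/-- the members which are not good at their own height -/
theorem count (F : SympFam X n) (hX : Fintype.card X = 1) (k : ℕ) (K : Type) [Field K] [NumberField K]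
    (hK : Module.finrank ℚ K ≤ k) (io : K →+* ℂ) (z : ℂ) {ε : ℝ} (hε : 0 < ε) :
    ∃ C : ℝ, ∀ Y : ℝ, 1 ≤ Y →
      {x : K | ((fun _ : X => io x) ∈ InnerM F.U k ∧
        ¬ Good F k K io (height K x) z (fun _ => io x)) ∧ height K x ≤ Y}.Finite ∧
      (({x : K | ((fun _ : X => io x) ∈ InnerM F.U k ∧
        ¬ Good F k K io (height K x) z (fun _ => io x)) ∧ height K x ≤ Y}.ncard : ℕ) : ℝ) ≤ C * Y ^ ε := by
  classical
  obtain ⟨C₁, T₁, hC₁, hT₁, H⟩ := count_notGood F k (η := ε / 2) (by positivity) K hK io z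
  refine ⟨C₁ * T₁ ^ ε, fun Y hY => ?_⟩
  have hY0 : 0 < Y := by linarith
  obtain ⟨h1, h2⟩ := H (max Y T₁) (le_max_right _ _)
  have hmaps : Set.MapsTo (fun (x : K) (_ : X) => x) {x : K | ((fun _ : X => io x) ∈ InnerM F.U k ∧
        ¬ Good F k K io (height K x) z (fun _ => io x)) ∧ height K x ≤ Y}
      (NotGood F k K io z (max Y T₁)) := by
    rintro x ⟨⟨e1, e2⟩, e3⟩
    refine notGood_mono F k K io z (T := height K x) (by linarith [one_le_height K x])
      (e3.trans (le_max_left _ _)) ⟨fun _ => (height_le_iff K x _).1 le_rfl, e1, e2⟩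
  have hinj : Set.InjOn (fun (x : K) (_ : X) => x) {x : K | ((fun _ : X => io x) ∈ InnerM F.U k ∧
        ¬ Good F k K io (height K x) z (fun _ => io x)) ∧ height K x ≤ Y} := by
    intro x _ y _ hxy
    exact congrFun hxy (Classical.arbitrary X)
  refine ⟨h1.of_injOn hmaps hinj, ?_⟩
  have h3 := Set.ncard_le_ncard_of_injOn _ hmaps hinj h1
  refine (Nat.cast_le (α := ℝ).2 h3).trans (h2.trans ?_)
  have e : 2 * (Module.finrank ℚ K : ℝ) * ((Fintype.card X : ℝ) - 1) +
      2 * (Fintype.card X : ℝ) * (ε / 2) = ε := by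
    rw [hX]
    push_cast
    ring
  rw [e, mul_assoc, ← Real.mul_rpow (by linarith) hY0.le]
  refine mul_le_mul_of_nonneg_left ?_ hC₁
  refine Real.rpow_le_rpow (by positivity) (max_le ?_ ?_) hε.le
  · nlinarith
  · nlinarith

/-- all number fields in `ℂ` and countably many numbers -/
theorem all (F : SympFam X n) (hX : Fintype.card X = 1) {Z : Set ℂ} (hZ : Z.Countable) {G : ℕ → ℝ} {e : ℝ}
    (hG : Expanding G e) {κ : ℝ} (hκ : 0 ≤ κ) (hκ1 : κ ≤ 1) {m : ℕ} (β : Fin m → ℝ) {τ : ℝ} (hτ : 0 < τ) :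
    ∃ E : Set (Fin m → ℝ), dimH E ≤ ENNReal.ofReal ((m + κ) / (1 + τ)) ∧
      ∀ α, α ∉ E → ∀ (K : IntermediateField ℚ ℂ) [NumberField K] (k : ℕ), Module.finrank ℚ K ≤ k →
        ∀ z ∈ Z, ∀ C : ℝ, ∃ Q : ℕ, ∀ q : ℕ, Q ≤ q → Solves α β q (C * (q : ℝ) ^ (-τ)) →
          ∀ x : K, (fun _ : X => (x : ℂ)) ∈ InnerM F.U k → |height K x - G q| ≤ (q : ℝ) ^ κ →
            Good F k K (algebraMap K ℂ) (height K x) z (fun _ => (x : ℂ)) := by
  classical
  have hcount := N603.DA.countable_fields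
  have hZc : Countable Z := hZ.to_subtype
  have key : ∀ p : {F : IntermediateField ℚ ℂ // FiniteDimensional ℚ F} × ℕ × Z,
      ∃ E : Set (Fin m → ℝ), dimH E ≤ ENNReal.ofReal ((m + κ) / (1 + τ)) ∧
      ∀ α, α ∉ E → ∀ [NumberField p.1.1], Module.finrank ℚ p.1.1 ≤ p.2.1 →
        ∀ C : ℝ, ∃ Q : ℕ, ∀ q : ℕ, Q ≤ q → Solves α β q (C * (q : ℝ) ^ (-τ)) →
          ∀ x : p.1.1, (fun _ : X => (x : ℂ)) ∈ InnerM F.U p.2.1 →
            |height p.1.1 x - G q| ≤ (q : ℝ) ^ κ →
            Good F p.2.1 p.1.1 (algebraMap p.1.1 ℂ) (height p.1.1 x) (p.2.2 : ℂ) (fun _ => (x : ℂ)) := by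
    rintro ⟨⟨K, hK⟩, k, z⟩
    have : NumberField K := { to_charZero := inferInstance, to_finiteDimensional := hK }
    by_cases hk : Module.finrank ℚ K ≤ k
    · obtain ⟨E, hE, h⟩ := approx_good (T := K)
        (fun x => (fun _ : X => (x : ℂ)) ∈ InnerM F.U k)
        (fun x => Good F k K (algebraMap K ℂ) (height K x) (z : ℂ) (fun _ => (x : ℂ)))
        (fun x => height K x) hG (s := 0) (κ := κ) le_rfl hκ hκ1 (fun ε hε => by
          obtain ⟨C, hC⟩ := count F hX k K hk (algebraMap K ℂ) z hε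
          refine ⟨C, fun Y hY => ?_⟩
          rw [zero_add]
          exact hC Y hY) β hτ
      rw [mul_zero, zero_add] at hE
      exact ⟨E, hE, fun α hα _ _ => h α hα⟩
    · exact ⟨∅, by simp, fun α _ _ h => absurd h hk⟩
  choose E hE hE2 using key
  refine ⟨⋃ p, E p, ?_, fun α hα K hK k hk z hz => ?_⟩
  · rw [dimH_iUnion]
    exact iSup_le hE
  · have h1 : α ∉ E (⟨K, hK.to_finiteDimensional⟩, k, ⟨z, hz⟩) := fun h => hα (Set.mem_iUnion.2 ⟨_, h⟩)
    exact hE2 (⟨K, hK.to_finiteDimensional⟩, k, ⟨z, hz⟩) α h1 hk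

end Pool.Agent.N603.DB
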