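import Pool.Agent.Q136.LR.Loc
import Pool.Agent.Y776.Cv.Pad

set_option autoImplicit false

/-!
The functions `Γ(x)`, `ψ(x)`, `ψ'(x)`, … are algebraically independent over `ℂ(x)` near every point: from
`Pool.Agent.Q136.LR.loc`.
-/

open Topology

namespace Pool.Agent.N603.DB.Pg

open Pool.Agent.Y124 (LocInd)

/-- `Γ` and the derivatives of the digamma function -/
noncomputable def pg (s : ℕ) : Option (Fin s) → ℂ → ℂ
  | none => Complex.Gamma
  | some k => iteratedDeriv k Complex.digamma

/-- the points which are no poles of `Γ` -/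
def Dm : Set ℂ := {z | ∀ n : ℕ, z ≠ -n}

theorem Dm_open : IsOpen Dm := by
  rw [isOpen_iff_mem_nhds]
  intro z hz
  exact Pool.Agent.Q136.LR.np_ev hz

theorem pg_an (s : ℕ) (v : Option (Fin s)) : AnalyticOnNhd ℂ (pg s v) Dm := by
  intro z hz
  cases v with
  | none => exact Pool.Agent.Q136.LR.gam_an hz
  | some k => exact Pool.Agent.Q136.LR.psi_an k hz

/-- the indices -/
def ix {s : ℕ} : Option (Fin s) → (Fin 1 × Fin s) ⊕ (Fin 1 ⊕ Fin 0)
  | none => Sum.inr (Sum.inl 0)
  | some k => Sum.inl (0, k)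

theorem ix_inj {s : ℕ} : Function.Injective (ix (s := s)) := by
  rintro (_ | a) (_ | b) h
  · rfl
  · simp [ix] at h
  · simp [ix] at h
  · simp [ix] at h
    rw [h]

theorem pg_loc (s : ℕ) : ∀ t ∈ Dm, LocInd (pg s) t := by
  intro t ht
  have h1 := Pool.Agent.Q136.LR.loc (r := 1) (u := 0) s (fun _ => 1) (fun _ => one_ne_zero) (fun _ => 0)
    (fun j => j.elim0) (fun n k _ => Subsingleton.elim _ _) (fun m hm => by
      funext i
      have h2 := hm 0
      rw [Fin.sum_univ_one] at h2
      rw [if_pos ⟨0, by simp⟩, mul_one] at h2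
      rw [Subsingleton.elim i 0]
      exact h2) t (fun i n => by
        simp only [Rat.cast_one, one_mul, add_zero]
        exact ht n)
  have h3 := Pool.Agent.Y776.Cv.LocInd.comp_inj h1 (ix_inj (s := s))
  have h4 : (fun k => Pool.Agent.Q136.LR.fn s (fun _ : Fin 1 => (((1 : ℚ)) : ℂ)) (fun _ => 0)
      (fun j : Fin 0 => j.elim0) (ix k)) = pg s := by
    funext k z
    cases k with
    | none =>
      show Complex.Gamma (((1 : ℚ) : ℂ) * z + 0) = Complex.Gamma z
      simp
    | some k =>
      show Pool.Agent.Q136.LR.psi (k : ℕ) (((1 : ℚ) : ℂ) * z + 0) = iteratedDeriv k Complex.digamma z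
      simp [Pool.Agent.Q136.LR.psi]
  rw [h4] at h3
  exact h3

end Pool.Agent.N603.DB.Pg
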