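import Pool.Agent.N603.DA.All

set_option autoImplicit false

/-! Reindexing of good systems of numbers; the statement on denominators of good approximations without index. -/

open NumberField MvPolynomial

namespace Pool.Agent.N603.DB

open Pool.Agent.R349.Gen
open Pool.Agent.N671.DA (Solves Expanding)

theorem good_reindex {σ τ : Type} {g : ℕ} {F : Type} [Field F] [NumberField F] {ι : F →+* ℂ} {ξ : Fin g → ℂ}
    {d : ℕ} {H δ : ℝ} (e : σ ≃ τ) {v : τ → ℂ} (h : GoodG F ι ξ d H δ v) :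
    GoodG F ι ξ d H δ (fun s => v (e s)) := by
  constructor
  · rintro P ⟨hP1, hP2⟩ s
    have h1 := h.1 (rename e P) ⟨fun j => ?_, fun s' => ?_⟩ (s.mapDomain e)
    · rw [coeff_rename_mapDomain e e.injective, aeval_rename] at h1
      exact h1
    · obtain ⟨i, rfl⟩ := e.surjective j
      rw [degreeOf_rename_of_injective e.injective]
      exact hP1 i
    · have h2 : s' = (s'.mapDomain e.symm).mapDomain e := by
        rw [← Finsupp.mapDomain_comp]
        simp
      rw [h2, coeff_rename_mapDomain e e.injective]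
      exact hP2 _
  · intro Q hQ hQd hQc
    have h1 := h.2 (rename (Equiv.optionCongr e) Q) (fun h0 => hQ ?_) (fun j => ?_) (fun s' φ => ?_)
    · intro h0
      apply h1
      rw [eval₂_rename]
      rw [← h0]
      congr 1
      funext o
      rcases o with _ | o <;> rfl
    · exact (rename_injective _ (Equiv.injective _)) (h0.trans (map_zero _).symm)
    · obtain ⟨i, rfl⟩ := (Equiv.optionCongr e).surjective j
      rw [degreeOf_rename_of_injective (Equiv.injective _)]
      exact hQd i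
    · have h2 : s' = (s'.mapDomain (Equiv.optionCongr e).symm).mapDomain (Equiv.optionCongr e) := by
        rw [← Finsupp.mapDomain_comp]
        simp
      rw [h2, coeff_rename_mapDomain _ (Equiv.injective _)]
      exact hQc _ φ

/-- the index of the library -/
def tagEquiv (κ' : Type) : κ' ≃ Fin 1 × κ' where
  toFun k := (0, k)
  invFun := Prod.snd
  left_inv _ := rfl
  right_inv x := by
    rcases x with ⟨a, b⟩
    have : a = 0 := Subsingleton.elim _ _
    subst this
    rfl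

/-- all number fields in `ℂ`, without index -/
theorem master_all' {κ' : Type} [Fintype κ']
    [DecidableEq κ'] (f : κ' → ℂ → ℂ) (S : Set ℂ) (hS : IsOpen S)
    (han : ∀ y, ∀ t ∈ S, AnalyticAt ℂ (f y) t) (hind : ∀ t ∈ S, Pool.Agent.Y124.LocInd f t)
    (c : ℕ → ℂ) {G : ℕ → ℝ} {e : ℝ} (hG : Expanding G e) {κ : ℝ} (hκ : 0 ≤ κ) (hκ1 : κ ≤ 1)
    {m : ℕ} (β : Fin m → ℝ) {τ : ℝ} (hτ : 0 < τ) :
    ∃ E : Set (Fin m → ℝ), dimH E ≤ ENNReal.ofReal ((m + κ) / (1 + τ)) ∧
      ∀ α, α ∉ E → ∀ (F : IntermediateField ℚ ℂ) [NumberField F] (g d : ℕ) (A : ℝ) (L : Set ℂ),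
        IsCompact L → L ⊆ S → ∃ B : ℝ, ∀ C : ℝ,
        ∃ Q : ℕ, ∀ q : ℕ, Q ≤ q → Solves α β q (C * (q : ℝ) ^ (-τ)) →
          ∀ x : F, (x : ℂ) ∈ L → |N603.DA.ht F x - G q| ≤ (q : ℝ) ^ κ →
            GoodG F (algebraMap F ℂ) (fun i : Fin g => c i) d (N603.DA.ht F x ^ A) (N603.DA.ht F x ^ (-B))
              (fun k : κ' => f k (x : ℂ)) := by
  obtain ⟨E, hE, h⟩ := N603.DA.master_all f S hS han hind c hG hκ hκ1 β hτ
  refine ⟨E, hE, fun α hα F _ g d A L hL hLS => ?_⟩
  obtain ⟨B, hB⟩ := h α hα F g d A L hL hLS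
  refine ⟨B, fun C => ?_⟩
  obtain ⟨Q, hQ⟩ := hB C
  refine ⟨Q, fun q hq hs x hx hG' => ?_⟩
  have h2 : GoodG F (algebraMap F ℂ) (fun i : Fin g => c i) d (N603.DA.ht F x ^ A) (N603.DA.ht F x ^ (-B))
      (fun z : Fin 1 × κ' => f z.2 (x : ℂ)) := hQ q hq hs (fun _ => x) hx hG'
  have h3 := good_reindex (F := F) (ι := algebraMap F ℂ) (tagEquiv κ') h2
  exact h3

end Pool.Agent.N603.DB
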