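import Pool.Agent.N534.ZI.Ind
import Pool.Agent.Y771.RP.Rel

set_option autoImplicit false

/-!
The functions `c^x`, `ζ(x)`, `ζ'(x)`, … are algebraically independent over `ℂ(x)` near every point: from
`Pool.Agent.N534.ZI` of helper534 and the identity theorem.
-/

namespace Pool.Agent.N603.DB.Ze

open Pool.Agent.N534.ZI (fz)

theorem zeta_an : AnalyticOnNhd ℂ riemannZeta ({1}ᶜ : Set ℂ) :=
  DifferentiableOn.analyticOnNhd (fun _ hz => (differentiableAt_riemannZeta hz).differentiableWithinAt)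
    isOpen_compl_singleton

theorem an {c : ℝ} {n : ℕ} (hc0 : 0 < c) (v : Option (Fin n)) : AnalyticOnNhd ℂ (fz c n v) ({1}ᶜ : Set ℂ) := by
  cases v with
  | none =>
    intro z hz
    have hc : (c : ℂ) ∈ Complex.slitPlane := Complex.ofReal_mem_slitPlane.2 hc0
    exact analyticAt_const.cpow analyticAt_id hc
  | some k =>
    change AnalyticOnNhd ℂ (iteratedDeriv k riemannZeta) _
    rw [iteratedDeriv_eq_iterate]
    exact zeta_an.iterated_deriv k

theorem conn : IsPreconnected ({1}ᶜ : Set ℂ) :=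
  (isConnected_compl_singleton_of_one_lt_rank (by rw [Complex.rank_real_complex]; norm_num) (1 : ℂ)).isPreconnected

theorem loc {c : ℝ} (hc0 : 0 < c) (hc1 : c ≠ 1) (n : ℕ) :
    ∀ t ∈ ({1}ᶜ : Set ℂ), Pool.Agent.Y124.LocInd (fz c n) t :=
  Pool.Agent.Y771.RP.locInd_of (fz c n) _ conn (fun y t ht => an hc0 y t ht) fun P hP =>
    Pool.Agent.N534.ZI.aindep c hc0 hc1 n P fun z hz => hP z hz

end Pool.Agent.N603.DB.Ze
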